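import Pool.Agent.Work.MP_44e654_pr.Prob

/-! Climbing implies an infinite cluster, MP_44e654_pr. (helper96) -/

set_option autoImplicit false

namespace Pool.Agent.MP44

open MeasureTheory

theorem climb_infinite (β : ℕ) (p : unitInterval) (h : Climb β p) :
    0 < mu Ce p {ω | {u | Conn ca (cc β) Set.univ ω ((0, 0), 0) u}.Infinite} := by
  obtain ⟨r, hr, h⟩ := h
  choose l H hl hE using h
  set E : ℕ → Set (Ce → Bool) := fun j =>
    {ω | ∃ n ≤ H j, Conn ca (cc β) (CR β (l j) (H j)) ω ((0, 0), 0) ((l j, 0), n)} with hEdef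
  have hmeas : ∀ j, MeasurableSet (E j) := fun j =>
    meas_of_dep (CR_finite β (l j) (H j))
      (fun ω ω' h => exists_congr fun _ => and_congr_right fun _ => Conn.dep _ _ _ ω ω' h)
  set B : ℕ → Set (Ce → Bool) := fun N => ⋃ j ∈ Set.Ici N, E j with hB
  have hBmeas : ∀ N, MeasurableSet (B N) := fun N =>
    MeasurableSet.biUnion (Set.to_countable _) (fun j _ => hmeas j)
  have hBanti : Antitone B := by
    intro N M hNM ω hω
    simp only [hB, Set.mem_iUnion, Set.mem_Ici] at hω ⊢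
    obtain ⟨j, hj, hω⟩ := hω
    exact ⟨j, hNM.trans hj, hω⟩
  have hBge : ∀ N, ENNReal.ofReal r ≤ mu Ce p (B N) := by
    intro N
    refine (ENNReal.ofReal_le_of_le_toReal (hE N)).trans (measure_mono ?_)
    intro ω hω
    simp only [hB, Set.mem_iUnion, Set.mem_Ici]
    exact ⟨N, le_rfl, hω⟩
  have hlim := tendsto_measure_iInter_atTop (μ := mu Ce p)
    (fun N => (hBmeas N).nullMeasurableSet) hBanti ⟨0, measure_ne_top _ _⟩
  have hge : ENNReal.ofReal r ≤ mu Ce p (⋂ N, B N) := ge_of_tendsto' hlim hBge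
  refine lt_of_lt_of_le (ENNReal.ofReal_pos.2 hr) (hge.trans (measure_mono ?_))
  intro ω hω hfin
  -- the levels of the cluster are unbounded
  have hbd : BddAbove ((fun u : Cv => u.1.1) ''
      {u | Conn ca (cc β) Set.univ ω ((0, 0), 0) u}) := (hfin.image _).bddAbove
  obtain ⟨N, hN⟩ := hbd
  have h1 := Set.mem_iInter.1 hω (N + 1)
  simp only [hB, Set.mem_iUnion, Set.mem_Ici] at h1
  obtain ⟨j, hj, n, hn, hc⟩ := h1
  have h2 := hN ⟨_, hc.mono_set (Set.subset_univ _), rfl⟩
  have h3 := hl j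
  simp only at h2
  omega

end Pool.Agent.MP44
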