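import Pool.Agent.Work.MP_44e654_pr.Prob

/-! Step A for MP_44e654_pr: an infinite cluster gives crossings of the trees of all depths with
probability bounded below. (helper96) -/

set_option autoImplicit false

namespace Pool.Agent.MP44

open MeasureTheory

theorem Conn.invariant {ι V : Type} {a c : ι → V} {S : Set ι} {ω : ι → Bool} (X : Set V)
    (hX : ∀ e ∈ S, ω e = true → (a e ∈ X ↔ c e ∈ X)) {u v : V} (h : Conn a c S ω u v) :
    u ∈ X ↔ v ∈ X := by
  induction h with
  | rel u v huv =>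
    obtain ⟨e, he, ho, rfl, rfl⟩ := huv
    exact hX e he ho
  | refl u => exact Iff.rfl
  | symm u v _ ih => exact ih.symm
  | trans u v w _ _ ih1 ih2 => exact ih1.trans ih2

/-- all edges below `(K, 0)` -/
def LoI (β K : ℕ) : Set Ce := {e | e.2.1.1 < K ∧ e.2.1.2 < (β + 2) ^ (K - e.2.1.1)}

/-- all edges below `(K, 0)` at heights `≤ H` -/
def LoA (β K H : ℕ) : Set Ce :=
  {e | e.2.1.1 < K ∧ e.2.1.2 < (β + 2) ^ (K - e.2.1.1) ∧ e.2.2 ≤ H}

theorem LoA_finite (β K H : ℕ) : (LoA β K H).Finite := by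
  have h1 : ({n : ℕ | n ≤ K}).Finite := Set.finite_Iic K
  have h2 : ({n : ℕ | n < (β + 2) ^ K}).Finite := Set.finite_Iio _
  have h3 : ({n : ℕ | n ≤ H}).Finite := Set.finite_Iic H
  refine ((Set.finite_univ (α := Bool)).prod ((h1.prod h2).prod h3)).subset ?_
  rintro ⟨b, ⟨k, i⟩, n⟩ ⟨ha, hb, hc⟩
  refine ⟨trivial, ⟨?_, ?_⟩, hc⟩
  · exact le_of_lt ha
  · show i < (β + 2) ^ K
    exact lt_of_lt_of_le hb (Nat.pow_le_pow_right (by omega) (by simp))

/-- an infinite cluster hits `(K, 0) × ℕ` through `LoI` if some layer is closed -/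
theorem hit_of_infinite (β : ℕ) {K h : ℕ} {ω : Ce → Bool} {v : Cv} (hv : v.1.1 < K)
    (hv2 : v.1.2 < (β + 2) ^ (K - v.1.1)) (hvh : v.2 ≤ h)
    (hcl : ∀ k i, k < K → i < (β + 2) ^ (K - k) → ω (true, (k, i), h) = false)
    (hinf : {u | Conn ca (cc β) Set.univ ω v u}.Infinite) :
    ∃ m, Conn ca (cc β) (LoI β K) ω v ((K, 0), m) := by
  by_contra hcon
  push Not at hcon
  apply hinf
  set D : Set Cv := {u | u.1.1 < K ∧ u.1.2 < (β + 2) ^ (K - u.1.1) ∧ u.2 ≤ h} with hD
  have hDfin : D.Finite := by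
    have h1 : ({n : ℕ | n ≤ K}).Finite := Set.finite_Iic K
    have h2 : ({n : ℕ | n < (β + 2) ^ K}).Finite := Set.finite_Iio _
    have h3 : ({n : ℕ | n ≤ h}).Finite := Set.finite_Iic h
    refine ((h1.prod h2).prod h3).subset ?_
    rintro ⟨⟨k, i⟩, n⟩ ⟨ha, hb, hc⟩
    refine ⟨⟨le_of_lt ha, ?_⟩, hc⟩
    show i < (β + 2) ^ K
    exact lt_of_lt_of_le hb (Nat.pow_le_pow_right (by omega) (by simp))
  refine hDfin.subset ?_
  intro u hu
  have hX := Conn.invariant {u | Conn ca (cc β) (LoI β K) ω v u ∧ u ∈ D} (S := Set.univ) (ω := ω)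
    (a := ca) (c := cc β) ?_ hu
  · exact ((hX.1 ⟨Conn.refl _ _ _, hv, hv2, hvh⟩)).2
  · rintro ⟨t, ⟨k, i⟩, n⟩ - ho
    constructor
    · rintro ⟨h1, h2, h3, h4⟩
      have he : ((t, (k, i), n) : Ce) ∈ LoI β K := ⟨h2, h3⟩
      have hc := h1.trans (Conn.edge he ho)
      refine ⟨hc, ?_⟩
      simp only [ca] at h2 h3 h4
      cases t
      · simp only [cc, Bool.false_eq_true, if_false] at hc ⊢
        rcases Nat.lt_or_ge (k + 1) K with hk | hk
        · refine ⟨hk, ?_, h4⟩
          show i / (β + 2) < (β + 2) ^ (K - (k + 1))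
          rw [Nat.div_lt_iff_lt_mul (by omega), ← pow_succ]
          rwa [show K - (k + 1) + 1 = K - k by omega]
        · exfalso
          have hk' : K = k + 1 := by omega
          subst hk'
          have : i / (β + 2) = 0 := by
            apply Nat.div_eq_of_lt
            simpa using h3
          rw [this] at hc
          exact hcon n hc
      · simp only [cc, if_true]
        refine ⟨h2, h3, ?_⟩
        show n + 1 ≤ h
        rcases Nat.lt_or_ge n h with hn | hn
        · exact hn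
        · exfalso
          have : n = h := le_antisymm h4 hn
          subst this
          rw [hcl k i h2 h3] at ho
          exact absurd ho (by simp)
    · rintro ⟨h1, h2, h3, h4⟩
      have hmem : k < K ∧ i < (β + 2) ^ (K - k) ∧ n ≤ h := by
        cases t
        · simp only [cc, Bool.false_eq_true, if_false] at h2 h3 h4
          refine ⟨by omega, ?_, h4⟩
          rw [Nat.div_lt_iff_lt_mul (by omega), ← pow_succ] at h3
          rwa [show K - (k + 1) + 1 = K - k by omega] at h3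
        · simp only [cc, if_true] at h2 h3 h4
          exact ⟨h2, h3, by omega⟩
      have he : ((t, (k, i), n) : Ce) ∈ LoI β K := ⟨hmem.1, hmem.2.1⟩
      exact ⟨h1.trans (Conn.edge he ho).symm, hmem⟩

/-- the vertical edges at height `h` over a large part of the canopy -/
def layer (β K h : ℕ) : Finset Ce :=
  (Finset.range K ×ˢ Finset.range ((β + 2) ^ K)).image (fun x => (true, x, h))

theorem layer_card (β K h : ℕ) : (layer β K h).card = K * (β + 2) ^ K := by
  rw [layer, Finset.card_image_of_injective, Finset.card_product, Finset.card_range,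
    Finset.card_range]
  intro x y hxy
  simpa using hxy

theorem dep_closed {ι : Type} (F : Finset ι) :
    DepOn (F : Set ι) {ω : ι → Bool | ∀ e ∈ F, ω e = false} := by
  intro ω ω' h
  refine forall_congr' fun e => ?_
  constructor
  · intro h3 he; rw [← h e (by simpa using he)]; exact h3 he
  · intro h3 he; rw [h e (by simpa using he)]; exact h3 he

theorem dep_open {ι : Type} (F : Finset ι) :
    DepOn (F : Set ι) {ω : ι → Bool | ∀ e ∈ F, ω e = true} := by
  intro ω ω' h
  refine forall_congr' fun e => ?_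
  constructor
  · intro h3 he; rw [← h e (by simpa using he)]; exact h3 he
  · intro h3 he; rw [h e (by simpa using he)]; exact h3 he

theorem exists_open_eq {ι : Type} (F : Finset ι) : {ω : ι → Bool | ∃ e ∈ F, ω e = true} =
    {ω | ∀ e ∈ F, ω e = false}ᶜ := by
  ext ω; simp

theorem incr_open {ι : Type} (F : Finset ι) :
    Incr {ω : ι → Bool | ∀ e ∈ F, ω e = true} := fun _ _ h h' e he => h e (h' e he)

/-- almost surely some layer is closed -/
theorem closed_layer (β K n0 : ℕ) (p : unitInterval) (hp : p < 1) :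
    mu Ce p {ω | ∀ h, n0 ≤ h → ∃ e ∈ layer β K h, ω e = true} = 0 := by
  set M := K * (β + 2) ^ K with hM
  set r : ENNReal := 1 - ENNReal.ofReal ((1 - p : ℝ) ^ M) with hr
  have hp' : (p : ℝ) < 1 := hp
  have hr1 : r < 1 := by
    rw [hr]
    refine ENNReal.sub_lt_self ENNReal.one_ne_top one_ne_zero ?_
    simp only [ne_eq, ENNReal.ofReal_eq_zero, not_le]
    exact pow_pos (by linarith) _
  have hA : ∀ h, mu Ce p {ω | ∃ e ∈ layer β K h, ω e = true} = r := by
    intro h
    have h1 : {ω : Ce → Bool | ∃ e ∈ layer β K h, ω e = true} =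
        {ω | ∀ e ∈ layer β K h, ω e = false}ᶜ := exists_open_eq _
    have hmeas : MeasurableSet {ω : Ce → Bool | ∀ e ∈ layer β K h, ω e = false} :=
      meas_of_dep (Finset.finite_toSet _) (dep_closed _)
    rw [h1, prob_compl_eq_one_sub hmeas, all_closed, layer_card]
  have hdepA : ∀ h, DepOn (layer β K h : Set Ce) {ω : Ce → Bool | ∃ e ∈ layer β K h, ω e = true} := by
    intro h
    have h1 : {ω : Ce → Bool | ∃ e ∈ layer β K h, ω e = true} =
        {ω | ∀ e ∈ layer β K h, ω e = false}ᶜ := exists_open_eq _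
    rw [h1]
    exact (dep_closed _).compl
  have hN : ∀ N, mu Ce p {ω | ∀ h, n0 ≤ h → h < n0 + N → ∃ e ∈ layer β K h, ω e = true} = r ^ N := by
    intro N
    induction N with
    | zero =>
      have : {ω : Ce → Bool | ∀ h, n0 ≤ h → h < n0 + 0 → ∃ e ∈ layer β K h, ω e = true} =
          Set.univ := by
        ext ω
        simp only [Set.mem_ofPred_eq, Set.mem_univ, iff_true]
        intro h h1 h2; omega
      rw [this, measure_univ, pow_zero]
    | succ N ih =>
      have hsplit : {ω : Ce → Bool | ∀ h, n0 ≤ h → h < n0 + (N + 1) → ∃ e ∈ layer β K h, ω e = true}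
          = {ω | ∀ h, n0 ≤ h → h < n0 + N → ∃ e ∈ layer β K h, ω e = true} ∩
            {ω | ∃ e ∈ layer β K (n0 + N), ω e = true} := by
        ext ω
        simp only [Set.mem_ofPred_eq, Set.mem_inter_iff]
        constructor
        · intro hω
          exact ⟨fun h h1 h2 => hω h h1 (by omega), hω _ (by omega) (by omega)⟩
        · rintro ⟨h1, h2⟩ h h3 h4
          rcases Nat.lt_or_ge h (n0 + N) with h5 | h5
          · exact h1 h h3 h5
          · have : h = n0 + N := by omega
            subst this; exact h2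
      rw [hsplit, indep_of_dep p (F := ⋃ h ∈ Finset.Ico n0 (n0 + N), (layer β K h : Set Ce))
        (G := (layer β K (n0 + N) : Set Ce)) ?_ (Finset.finite_toSet _) ?_ ?_ (hdepA _), ih, hA,
        pow_succ]
      · exact Set.Finite.biUnion (Finset.finite_toSet _) (fun h _ => Finset.finite_toSet _)
      · rw [Set.disjoint_left]
        rintro ⟨t, x, n⟩ h1 h2
        simp only [Set.mem_iUnion, Finset.mem_Ico, layer, Finset.coe_image, Set.mem_image,
          Prod.mk.injEq] at h1 h2
        obtain ⟨h, hh, x', _, _, _, h3⟩ := h1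
        obtain ⟨x'', _, _, _, h4⟩ := h2
        omega
      · intro ω ω' hω
        refine forall_congr' fun h => ?_
        refine forall_congr' fun h1 => forall_congr' fun h2 => ?_
        refine hdepA h ω ω' (fun e he => hω e ?_)
        simp only [Set.mem_iUnion, Finset.mem_Ico]
        exact ⟨h, ⟨h1, h2⟩, he⟩
  have hle : ∀ N, mu Ce p {ω | ∀ h, n0 ≤ h → ∃ e ∈ layer β K h, ω e = true} ≤ r ^ N := by
    intro N
    rw [← hN N]
    exact measure_mono (fun ω hω h h1 _ => hω h h1)
  have hlim : Filter.Tendsto (fun N : ℕ => r ^ N) Filter.atTop (nhds 0) :=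
    ENNReal.tendsto_pow_atTop_nhds_zero_of_lt_one hr1
  exact le_antisymm (ge_of_tendsto' hlim hle) bot_le

/-- positive probability of hitting `(K, 0) × ℕ` in a finite region -/
theorem hit_prob (β : ℕ) (p : unitInterval) (hp : p < 1) (v : Cv) {K : ℕ} (hv : v.1.1 < K)
    (hv2 : v.1.2 < (β + 2) ^ (K - v.1.1)) {t : ENNReal}
    (ht : t < mu Ce p {ω | {u | Conn ca (cc β) Set.univ ω v u}.Infinite}) :
    ∃ H, v.2 ≤ H ∧ t < mu Ce p {ω | ∃ m ≤ H, Conn ca (cc β) (LoA β K H) ω v ((K, 0), m)} := by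
  have h1 : mu Ce p {ω | {u | Conn ca (cc β) Set.univ ω v u}.Infinite} ≤
      mu Ce p (⋃ H, {ω | ∃ m ≤ H, Conn ca (cc β) (LoA β K H) ω v ((K, 0), m)}) := by
    have h2 : {ω | {u | Conn ca (cc β) Set.univ ω v u}.Infinite} ⊆
        (⋃ H, {ω | ∃ m ≤ H, Conn ca (cc β) (LoA β K H) ω v ((K, 0), m)}) ∪
        {ω | ∀ h, v.2 ≤ h → ∃ e ∈ layer β K h, ω e = true} := by
      intro ω hω
      by_cases hl : ∀ h, v.2 ≤ h → ∃ e ∈ layer β K h, ω e = true
      · right; exact hl
      · left
        push Not at hl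
        obtain ⟨h, hvh, hl⟩ := hl
        obtain ⟨m, hm⟩ := hit_of_infinite β hv hv2 hvh (fun k i hk hi => by
          have := hl (true, (k, i), h) (by
            simp only [layer, Finset.mem_image, Finset.mem_product, Finset.mem_range]
            refine ⟨(k, i), ⟨hk, lt_of_lt_of_le hi (Nat.pow_le_pow_right (by omega) (by simp))⟩, rfl⟩)
          simpa using this) hω
        obtain ⟨n, hn⟩ := Conn.exhaust (T := fun n => LoA β K n)
          (fun n m hnm e he => ⟨he.1, he.2.1, le_trans he.2.2 hnm⟩)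
          (fun e he => ⟨e.2.2, he.1, he.2, le_rfl⟩) hm
        refine Set.mem_iUnion.2 ⟨max n m, m, le_max_right _ _, hn.mono_set ?_⟩
        exact fun e he => ⟨he.1, he.2.1, le_trans he.2.2 (le_max_left _ _)⟩
    refine (measure_mono h2).trans ((measure_union_le _ _).trans ?_)
    rw [closed_layer β K v.2 p hp, add_zero]
  have hmono : Monotone (fun H => {ω | ∃ m ≤ H, Conn ca (cc β) (LoA β K H) ω v ((K, 0), m)}) := by
    intro H H' hH ω hω
    obtain ⟨m, hm, h⟩ := hω
    have hsub : LoA β K H ⊆ LoA β K H' := fun e he => ⟨he.1, he.2.1, le_trans he.2.2 hH⟩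
    exact ⟨m, hm.trans hH, h.mono_set hsub⟩
  rw [hmono.measure_iUnion] at h1
  obtain ⟨H, hH⟩ := lt_iSup_iff.1 (ht.trans_le h1)
  exact ⟨max H v.2, le_max_right _ _, hH.trans_le (measure_mono (hmono (le_max_left _ _)))⟩

theorem dep_exconn {ι V : Type} {a c : ι → V} (S : Set ι) (u : V) (f : ℕ → V) (H : ℕ) :
    DepOn S {ω | ∃ m ≤ H, Conn a c S ω u (f m)} :=
  fun ω ω' h => exists_congr fun _ => and_congr_right fun _ => Conn.dep _ _ _ ω ω' h

theorem incr_exconn {ι V : Type} {a c : ι → V} (S : Set ι) (u : V) (f : ℕ → V) (H : ℕ) :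
    Incr {ω | ∃ m ≤ H, Conn a c S ω u (f m)} :=
  fun ω ω' h ⟨m, hm, h'⟩ => ⟨m, hm, Conn.incr _ _ _ ω ω' h h'⟩

/-! ### the open path from the corner to `v` -/

/-- edges of a path from `((0,0),0)` to `((k0,i0),n0)` -/
def pathF (β k0 i0 n0 K0 : ℕ) : Finset Ce :=
  (Finset.range n0).image (fun h => (true, (k0, i0), h)) ∪
    ((Finset.range (K0 - k0)).image (fun j => (false, (k0 + j, i0 / (β + 2) ^ j), 0)) ∪
      (Finset.range K0).image (fun j => (false, (j, 0), 0)))

theorem pathF_sub {β k0 i0 n0 K0 K H : ℕ} (h0 : k0 < K0) (hi : i0 < (β + 2) ^ (K0 - k0))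
    (hK : K0 ≤ K) (hH : n0 ≤ H) : (pathF β k0 i0 n0 K0 : Set Ce) ⊆ LoA β K H := by
  intro e he
  simp only [pathF, Finset.coe_union, Finset.coe_image, Set.mem_union, Set.mem_image,
    Finset.coe_range, Set.mem_Iio] at he
  rcases he with ⟨h, hh, rfl⟩ | ⟨j, hj, rfl⟩ | ⟨j, hj, rfl⟩
  · exact ⟨by show k0 < K; omega, lt_of_lt_of_le hi (Nat.pow_le_pow_right (by omega) (by
      show K0 - k0 ≤ K - k0; omega)), by show h ≤ H; omega⟩
  · refine ⟨by show k0 + j < K; omega, ?_, Nat.zero_le _⟩
    show i0 / (β + 2) ^ j < (β + 2) ^ (K - (k0 + j))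
    rw [Nat.div_lt_iff_lt_mul (pow_pos (by omega) _), ← pow_add]
    exact lt_of_lt_of_le hi (Nat.pow_le_pow_right (by omega) (by omega))
  · exact ⟨by show j < K; omega, pow_pos (by omega) _, Nat.zero_le _⟩

theorem pathF_conn {β k0 i0 n0 K0 K H : ℕ} (h0 : k0 < K0) (hi : i0 < (β + 2) ^ (K0 - k0))
    (hK : K0 ≤ K) (hH : n0 ≤ H) {ω : Ce → Bool} (hω : ∀ e ∈ pathF β k0 i0 n0 K0, ω e = true) :
    Conn ca (cc β) (LoA β K H) ω ((0, 0), 0) ((k0, i0), n0) := by
  have hsub := pathF_sub (β := β) (n0 := n0) h0 hi hK hH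
  have h1 : ∀ n, n ≤ n0 → Conn ca (cc β) (LoA β K H) ω ((k0, i0), 0) ((k0, i0), n) := by
    intro n
    induction n with
    | zero => intro _; exact Conn.refl _ _ _
    | succ n ih =>
      intro hn
      have he : ((true, (k0, i0), n) : Ce) ∈ pathF β k0 i0 n0 K0 := by
        simp only [pathF, Finset.mem_union, Finset.mem_image, Finset.mem_range]
        left; exact ⟨n, by omega, rfl⟩
      exact (ih (by omega)).trans (Conn.edge (hsub he) (hω _ he))
  have h2 : ∀ j, j ≤ K0 - k0 →
      Conn ca (cc β) (LoA β K H) ω ((k0, i0), 0) ((k0 + j, i0 / (β + 2) ^ j), 0) := by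
    intro j
    induction j with
    | zero => intro _; simpa using Conn.refl _ _ _
    | succ j ih =>
      intro hj
      have he : ((false, (k0 + j, i0 / (β + 2) ^ j), 0) : Ce) ∈ pathF β k0 i0 n0 K0 := by
        simp only [pathF, Finset.mem_union, Finset.mem_image, Finset.mem_range]
        right; left; exact ⟨j, by omega, rfl⟩
      have h3 := (ih (by omega)).trans (Conn.edge (hsub he) (hω _ he))
      have h4 : cc β ((false, (k0 + j, i0 / (β + 2) ^ j), 0) : Ce) =
          ((k0 + (j + 1), i0 / (β + 2) ^ (j + 1)), 0) := by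
        simp only [cc, Bool.false_eq_true, if_false, Nat.div_div_eq_div_mul, pow_succ]
        rfl
      rwa [h4] at h3
  have h3 : ∀ j, j ≤ K0 → Conn ca (cc β) (LoA β K H) ω ((0, 0), 0) ((j, 0), 0) := by
    intro j
    induction j with
    | zero => intro _; exact Conn.refl _ _ _
    | succ j ih =>
      intro hj
      have he : ((false, (j, 0), 0) : Ce) ∈ pathF β k0 i0 n0 K0 := by
        simp only [pathF, Finset.mem_union, Finset.mem_image, Finset.mem_range]
        right; right; exact ⟨j, by omega, rfl⟩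
      have h3 := (ih (by omega)).trans (Conn.edge (hsub he) (hω _ he))
      have h4 : cc β ((false, (j, 0), 0) : Ce) = ((j + 1, 0), 0) := by
        simp [cc]
      rwa [h4] at h3
  have h4 := h2 (K0 - k0) le_rfl
  rw [Nat.div_eq_of_lt hi, show k0 + (K0 - k0) = K0 by omega] at h4
  exact ((h3 K0 le_rfl).trans h4.symm).trans (h1 n0 le_rfl)

/-- probability of a connection from the corner to `(K, 0) × ℕ` -/
theorem corner_prob (β : ℕ) (p : unitInterval) {k0 i0 n0 K0 K H : ℕ} (h0 : k0 < K0)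
    (hi : i0 < (β + 2) ^ (K0 - k0)) (hK : K0 ≤ K) (hH : n0 ≤ H) :
    (p : ℝ) ^ (pathF β k0 i0 n0 K0).card *
      (mu Ce p {ω | ∃ m ≤ H, Conn ca (cc β) (LoA β K H) ω ((k0, i0), n0) ((K, 0), m)}).toReal ≤
    (mu Ce p {ω | ∃ m ≤ H, Conn ca (cc β) (LoA β K H) ω ((0, 0), 0) ((K, 0), m)}).toReal := by
  rw [← all_open_real]
  refine (harris_real p (LoA_finite β K H) ((dep_open _).mono (pathF_sub h0 hi hK hH)) ?_
    (incr_open _) ?_).trans ?_
  · exact dep_exconn _ _ _ _
  · exact incr_exconn _ _ _ _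
  · refine ENNReal.toReal_mono (measure_ne_top _ _) (measure_mono ?_)
    rintro ω ⟨h1, m, hm, h2⟩
    exact ⟨m, hm, (pathF_conn h0 hi hK hH h1).trans h2⟩

/-! ### transfer to words -/

/-- digits, least significant first, exactly `n` of them -/
def dp (β : ℕ) : ℕ → ℕ → List (Fin (β + 2))
  | 0, _ => []
  | n + 1, i => ⟨i % (β + 2), Nat.mod_lt _ (by omega)⟩ :: dp β n (i / (β + 2))

theorem dp_length (β : ℕ) : ∀ n i, (dp β n i).length = n
  | 0, _ => rfl
  | n + 1, i => by simp [dp, dp_length β n]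

theorem dp_tail (β n i : ℕ) (hn : 1 ≤ n) : (dp β n i).tail = dp β (n - 1) (i / (β + 2)) := by
  obtain ⟨n, rfl⟩ : ∃ m, n = m + 1 := ⟨n - 1, by omega⟩
  rfl

theorem dp_zero (β : ℕ) : ∀ n, dp β n 0 = List.replicate n 0
  | 0 => rfl
  | n + 1 => by
    rw [dp, Nat.zero_div, dp_zero β n, List.replicate_succ]
    congr 1

theorem dp_inj (β : ℕ) : ∀ n i j, i < (β + 2) ^ n → j < (β + 2) ^ n → dp β n i = dp β n j → i = j
  | 0, i, j, hi, hj, _ => by simp at hi hj; omega
  | n + 1, i, j, hi, hj, h => by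
    simp only [dp, List.cons.injEq, Fin.mk.injEq] at h
    have h1 : i / (β + 2) < (β + 2) ^ n := by
      rw [Nat.div_lt_iff_lt_mul (by omega), ← pow_succ]; exact hi
    have h2 : j / (β + 2) < (β + 2) ^ n := by
      rw [Nat.div_lt_iff_lt_mul (by omega), ← pow_succ]; exact hj
    have h3 := dp_inj β n _ _ h1 h2 h.2
    rw [← Nat.div_add_mod i (β + 2), ← Nat.div_add_mod j (β + 2), h.1, h3]

/-- the map of edges -/
def phiA (β K : ℕ) (e : Ce) : Te β := (e.1, dp β (K - e.2.1.1) e.2.1.2, e.2.2)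
/-- the map of vertices -/
def psiA (β K : ℕ) (v : Cv) : Tv β := (dp β (K - v.1.1) v.1.2, v.2)

theorem phiA_inj (β K H : ℕ) : Set.InjOn (phiA β K) (LoA β K H) := by
  rintro ⟨t, ⟨k, i⟩, n⟩ ⟨h1, h2, h3⟩ ⟨t', ⟨k', i'⟩, n'⟩ ⟨h1', h2', h3'⟩ h
  simp only [phiA, Prod.mk.injEq] at h
  simp only at h1 h2 h3 h1' h2' h3'
  obtain ⟨rfl, hd, rfl⟩ := h
  have hlen := congrArg List.length hd
  rw [dp_length, dp_length] at hlen
  have hk : k = k' := by omega
  subst hk
  have := dp_inj β (K - k) i i' h2 h2' hd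
  subst this
  rfl

theorem words_prob (β : ℕ) (p : unitInterval) (K H : ℕ) :
    (p : ℝ) * (mu Ce p {ω | ∃ m ≤ H, Conn ca (cc β) (LoA β K H) ω ((0, 0), 0) ((K, 0), m)}).toReal ≤
      WK β (K + 1) (H + 1) p := by
  set A : Set (Ce → Bool) :=
    {ω | ∃ m ≤ H, Conn ca (cc β) (LoA β K H) ω ((0, 0), 0) ((K, 0), m)} with hA
  have hdep : DepOn (LoA β K H) A := dep_exconn _ _ _ _
  set A' : Set (Te β → Bool) :=
    {ω | ∃ m ≤ H, Conn ta tc (RK β (K + 1) 0 (H + 1)) ω (List.replicate K 0, 0) ([], m)} with hA'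
  have h1 : (mu Ce p A).toReal ≤ (mu (Te β) p A').toReal := by
    rw [← transfer p (LoA_finite β K H) (phiA β K) (phiA_inj β K H) hdep]
    refine ENNReal.toReal_mono (measure_ne_top _ _) (measure_mono ?_)
    rintro ω ⟨m, hm, h⟩
    refine ⟨m, hm, ?_⟩
    have h2 := Conn.map (a' := ta) (c' := tc) (S' := RK β (K + 1) 0 (H + 1)) (phiA β K) (psiA β K)
      ?_ ?_ h
    · simp only [psiA, Nat.sub_zero, dp_zero, Nat.sub_self] at h2
      exact h2
    · rintro ⟨t, ⟨k, i⟩, n⟩ ⟨h1, h2, h3⟩
      simp only at h1 h2 h3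
      cases t
      · right
        simp only [phiA, dp_length]
        exact ⟨trivial, by omega, by omega, by omega, by omega⟩
      · left
        simp only [phiA, dp_length]
        exact ⟨trivial, by omega, by omega, by omega, by omega⟩
    · rintro ⟨t, ⟨k, i⟩, n⟩ ⟨h1, h2, h3⟩
      simp only at h1 h2 h3
      left
      cases t
      · simp only [phiA, psiA, ta, tc, ca, cc, Bool.false_eq_true, if_false, true_and]
        rw [dp_tail _ _ _ (by omega), Nat.sub_sub]
      · simp only [phiA, psiA, ta, tc, ca, cc, if_true, true_and]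
  have h2 : (p : ℝ) * (mu (Te β) p A').toReal ≤ WK β (K + 1) (H + 1) p := by
    have he : ((false, List.replicate (K + 1) 0, 0) : Te β) ∈ RK β (K + 1) 0 (H + 1) := by
      right
      simp only [List.length_replicate]
      exact ⟨trivial, by omega, by omega, by omega, by omega⟩
    rw [← one_open_real p ((false, List.replicate (K + 1) 0, 0) : Te β)]
    refine (harris_real p (RK_finite β (K + 1) 0 (H + 1)) ?_ ?_ ?_ ?_).trans ?_
    · intro ω ω' h
      simp only [Set.mem_ofPred_eq]
      rw [h _ he]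
    · exact dep_exconn _ _ _ _
    · intro ω ω' h h'
      exact h _ h'
    · exact incr_exconn _ _ _ _
    · refine ENNReal.toReal_mono (measure_ne_top _ _) (measure_mono ?_)
      rintro ω ⟨h1, m, hm, h2⟩
      refine ⟨m, by omega, ?_⟩
      have h3 := Conn.edge (a := ta) (c := tc) he h1
      simp only [ta, tc, Bool.false_eq_true, if_false, List.replicate_succ, List.tail_cons] at h3
      rw [List.replicate_succ]
      exact h3.trans h2
  exact (mul_le_mul_of_nonneg_left h1 p.2.1).trans h2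

/-- straight paths -/
theorem straight_prob (β K : ℕ) (p : unitInterval) : (p : ℝ) ^ K ≤ WK β K 0 p := by
  set F : Finset (Te β) := (Finset.range K).image (fun j => (false, List.replicate (j + 1) 0, 0))
  have hF : F.card ≤ K := by
    refine Finset.card_image_le.trans (by simp)
  refine (pow_le_pow_of_le_one p.2.1 p.2.2 hF).trans ?_
  rw [← all_open_real p F]
  refine ENNReal.toReal_mono (measure_ne_top _ _) (measure_mono ?_)
  intro ω hω
  refine ⟨0, le_rfl, ?_⟩
  have h1 : ∀ j, j ≤ K → Conn ta tc (RK β K 0 0) ω (List.replicate j 0, 0) ([], 0) := by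
    intro j
    induction j with
    | zero => intro _; exact Conn.refl _ _ _
    | succ j ih =>
      intro hj
      have he : ((false, List.replicate (j + 1) 0, 0) : Te β) ∈ RK β K 0 0 := by
        refine Or.inr ⟨rfl, ?_, ?_, le_rfl, le_rfl⟩ <;> simp only [List.length_replicate] <;> omega
      have ho : ω ((false, List.replicate (j + 1) 0, 0) : Te β) = true := by
        apply hω
        exact Finset.mem_image.2 ⟨j, Finset.mem_range.2 (by omega), rfl⟩
      have h3 := Conn.edge (a := ta) (c := tc) he ho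
      simp only [ta, tc, Bool.false_eq_true, if_false, List.replicate_succ, List.tail_cons] at h3
      rw [List.replicate_succ]
      exact h3.trans (ih (by omega))
  exact h1 K le_rfl

/-- **Step A** -/
theorem stepA (β : ℕ) (p : unitInterval) (v : Cv)
    (h : 0 < mu Ce p {ω | {u | Conn ca (cc β) Set.univ ω v u}.Infinite}) :
    ∃ c : ℝ, 0 < c ∧ ∀ K : ℕ, 1 ≤ K → ∃ L, c ≤ WK β K L p := by
  rcases eq_or_lt_of_le p.2.2 with hp1 | hp1
  · refine ⟨1, one_pos, fun K _ => ⟨0, ?_⟩⟩
    have := straight_prob β K p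
    rwa [hp1, one_pow] at this
  have hp1' : p < 1 := hp1
  obtain ⟨⟨k0, i0⟩, n0⟩ := v
  -- a level above `v`
  obtain ⟨K0, h0, hi⟩ : ∃ K0, k0 < K0 ∧ i0 < (β + 2) ^ (K0 - k0) := by
    refine ⟨k0 + (i0 + 1), by omega, ?_⟩
    rw [Nat.add_sub_cancel_left]
    have h1 : i0 < 2 ^ i0 := Nat.lt_two_pow_self
    calc i0 < 2 ^ i0 := h1
      _ ≤ 2 ^ (i0 + 1) := Nat.pow_le_pow_right (by omega) (by omega)
      _ ≤ (β + 2) ^ (i0 + 1) := Nat.pow_le_pow_left (by omega) _
  -- `p > 0`
  have hp0 : 0 < (p : ℝ) := by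
    rcases eq_or_lt_of_le p.2.1 with h2 | h2
    · exfalso
      have hp : p = 0 := Subtype.ext h2.symm
      subst hp
      obtain ⟨H, _, hH⟩ := hit_prob β 0 hp1' ((k0, i0), n0) h0 hi h
      rw [mu_zero_of_closed (LoA_finite β K0 H)] at hH
      · exact lt_irrefl _ hH
      · rintro ω hω ⟨m, _, hm⟩
        have := Conn.invariant {u : Cv | u = ((k0, i0), n0)} (fun e he ho => by
          rw [hω e he] at ho; exact absurd ho (by simp)) hm
        have h3 := this.1 rfl
        simp only [Set.mem_ofPred_eq, Prod.mk.injEq] at h3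
        omega
    · exact h2
  set θ := mu Ce p {ω | {u | Conn ca (cc β) Set.univ ω ((k0, i0), n0) u}.Infinite} with hθ
  have hθtop : θ ≠ ⊤ := measure_ne_top _ _
  set t : ENNReal := θ / 2 with ht
  have htθ : t < θ := ENNReal.half_lt_self h.ne' hθtop
  have htpos : 0 < t.toReal := ENNReal.toReal_pos (ENNReal.half_pos h.ne').ne' (ne_top_of_lt htθ)
  set N := (pathF β k0 i0 n0 K0).card with hN
  refine ⟨min ((p : ℝ) ^ K0) ((p : ℝ) * ((p : ℝ) ^ N * t.toReal)), by positivity, ?_⟩
  intro K hK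
  rcases Nat.lt_or_ge K0 K with hKK | hKK
  · obtain ⟨K, rfl⟩ : ∃ m, K = m + 1 := ⟨K - 1, by omega⟩
    have hKK' : K0 ≤ K := by omega
    have hi' : i0 < (β + 2) ^ (K - k0) :=
      lt_of_lt_of_le hi (Nat.pow_le_pow_right (by omega) (by omega))
    obtain ⟨H, hH1, hH2⟩ := hit_prob β p hp1' ((k0, i0), n0) (K := K) (by show k0 < K; omega) hi' htθ
    refine ⟨H + 1, (min_le_right _ _).trans ?_⟩
    refine le_trans ?_ (words_prob β p K H)
    refine mul_le_mul_of_nonneg_left ?_ p.2.1
    refine le_trans ?_ (corner_prob β p h0 hi hKK' hH1)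
    refine mul_le_mul_of_nonneg_left ?_ (pow_nonneg p.2.1 _)
    exact ENNReal.toReal_mono (measure_ne_top _ _) hH2.le
  · exact ⟨0, (min_le_left _ _).trans ((pow_le_pow_of_le_one p.2.1 p.2.2 hKK).trans
      (straight_prob β K p))⟩

end Pool.Agent.MP44
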