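import Mathlib

/-! Interface for MP_44e654_pr: Bernoulli percolation on index sets, connectivity, the rooted tree
model (words) and the canopy tree model (pairs of numbers). (helper96) -/

set_option autoImplicit false

namespace Pool.Agent.MP44

open MeasureTheory

/-! ### Bernoulli percolation -/

/-- Bernoulli law on `Bool`. -/
noncomputable def bern (p : unitInterval) : Measure Bool :=
  ENNReal.ofReal p • Measure.dirac true + ENNReal.ofReal (1 - p) • Measure.dirac false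

instance (p : unitInterval) : IsProbabilityMeasure (bern p) := by
  constructor
  have h0 := p.2.1
  have h1 := p.2.2
  simp only [bern, Measure.coe_add, Measure.coe_smul, Pi.add_apply, Pi.smul_apply, measure_univ,
    smul_eq_mul, mul_one]
  rw [← ENNReal.ofReal_add h0 (by linarith)]
  simp

/-- Bernoulli product measure. -/
noncomputable def mu (ι : Type) (p : unitInterval) : Measure (ι → Bool) :=
  Measure.infinitePi (fun _ : ι => bern p)

instance (ι : Type) (p : unitInterval) : IsProbabilityMeasure (mu ι p) := by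
  unfold mu; infer_instance

/-- `A` only depends on the coordinates in `F`. -/
def DepOn {ι : Type} (F : Set ι) (A : Set (ι → Bool)) : Prop :=
  ∀ ω ω' : ι → Bool, (∀ e ∈ F, ω e = ω' e) → (ω ∈ A ↔ ω' ∈ A)

/-- increasing event -/
def Incr {ι : Type} (A : Set (ι → Bool)) : Prop :=
  ∀ ω ω' : ι → Bool, (∀ e, ω e = true → ω' e = true) → ω ∈ A → ω' ∈ A

/-! ### Connectivity -/

/-- `u` and `v` are connected by open edges of `S`; `a e` and `c e` are the ends of the edge `e`. -/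
def Conn {ι V : Type} (a c : ι → V) (S : Set ι) (ω : ι → Bool) : V → V → Prop :=
  Relation.EqvGen (fun u v => ∃ e ∈ S, ω e = true ∧ a e = u ∧ c e = v)

section conn
variable {ι V : Type} {a c : ι → V}

theorem Conn.refl (S : Set ι) (ω : ι → Bool) (u : V) : Conn a c S ω u u := Relation.EqvGen.refl u

theorem Conn.symm {S : Set ι} {ω : ι → Bool} {u v : V} (h : Conn a c S ω u v) : Conn a c S ω v u :=
  Relation.EqvGen.symm _ _ h

theorem Conn.trans {S : Set ι} {ω : ι → Bool} {u v w : V} (h : Conn a c S ω u v)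
    (h' : Conn a c S ω v w) : Conn a c S ω u w := Relation.EqvGen.trans _ _ _ h h'

theorem Conn.edge {S : Set ι} {ω : ι → Bool} {e : ι} (he : e ∈ S) (ho : ω e = true) :
    Conn a c S ω (a e) (c e) := Relation.EqvGen.rel _ _ ⟨e, he, ho, rfl, rfl⟩

theorem Conn.mono {S S' : Set ι} {ω ω' : ι → Bool} (hS : S ⊆ S')
    (hω : ∀ e ∈ S, ω e = true → ω' e = true) {u v : V} (h : Conn a c S ω u v) :
    Conn a c S' ω' u v := by
  refine Relation.EqvGen.mono (fun u v huv => ?_) u v h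
  obtain ⟨e, he, ho, h1, h2⟩ := huv
  exact ⟨e, hS he, hω e he ho, h1, h2⟩

theorem Conn.mono_set {S S' : Set ι} {ω : ι → Bool} (hS : S ⊆ S') {u v : V}
    (h : Conn a c S ω u v) : Conn a c S' ω u v := h.mono hS (fun _ _ h => h)

theorem Conn.dep (S : Set ι) (u v : V) : DepOn S {ω | Conn a c S ω u v} := by
  intro ω ω' h
  exact ⟨fun h' => Conn.mono le_rfl (fun e he ho => by rw [← h e he]; exact ho) h',
    fun h' => Conn.mono le_rfl (fun e he ho => by rw [h e he]; exact ho) h'⟩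

theorem Conn.incr (S : Set ι) (u v : V) : Incr {ω | Conn a c S ω u v} := by
  intro ω ω' h h'
  exact Conn.mono le_rfl (fun e _ ho => h e ho) h'

/-- Transfer of connectivity along a map of edges and vertices (edges may be reversed). -/
theorem Conn.map {κ W : Type} {a' c' : κ → W} {S : Set ι} {S' : Set κ} {ω : κ → Bool} (φ : ι → κ)
    (ψ : V → W) (hS : ∀ e ∈ S, φ e ∈ S')
    (h : ∀ e ∈ S, (a' (φ e) = ψ (a e) ∧ c' (φ e) = ψ (c e)) ∨
      (a' (φ e) = ψ (c e) ∧ c' (φ e) = ψ (a e))) {u v : V}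
    (hc : Conn a c S (fun e => ω (φ e)) u v) : Conn a' c' S' ω (ψ u) (ψ v) := by
  induction hc with
  | rel u v huv =>
    obtain ⟨e, he, ho, rfl, rfl⟩ := huv
    rcases h e he with ⟨h1, h2⟩ | ⟨h1, h2⟩
    · rw [← h1, ← h2]; exact Conn.edge (hS e he) ho
    · rw [← h1, ← h2]; exact (Conn.edge (hS e he) ho).symm
  | refl u => exact Conn.refl _ _ _
  | symm u v _ ih => exact ih.symm
  | trans u v w _ _ ih1 ih2 => exact ih1.trans ih2

/-- Exhaustion by an increasing sequence of sets of edges. -/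
theorem Conn.exhaust {S : Set ι} {T : ℕ → Set ι} (hT : ∀ n m, n ≤ m → T n ⊆ T m)
    (hS : ∀ e ∈ S, ∃ n, e ∈ T n) {ω : ι → Bool} {u v : V} (h : Conn a c S ω u v) :
    ∃ n, Conn a c (T n) ω u v := by
  induction h with
  | rel u v huv =>
    obtain ⟨e, he, ho, rfl, rfl⟩ := huv
    obtain ⟨n, hn⟩ := hS e he
    exact ⟨n, Conn.edge hn ho⟩
  | refl u => exact ⟨0, Conn.refl _ _ _⟩
  | symm u v _ ih => obtain ⟨n, hn⟩ := ih; exact ⟨n, hn.symm⟩
  | trans u v w _ _ ih1 ih2 =>
    obtain ⟨n, hn⟩ := ih1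
    obtain ⟨m, hm⟩ := ih2
    exact ⟨max n m, (hn.mono_set (hT _ _ (le_max_left _ _))).trans
      (hm.mono_set (hT _ _ (le_max_right _ _)))⟩

end conn

/-! ### The rooted tree model

Vertices `(w, n)`, `w` a word in the letters `Fin (β + 2)` (the parent of `w` is `w.tail`, the root
is `[]`), `n` the height. Edges: `(false, w, n)` joins `(w, n)` to `(w.tail, n)`, `(true, w, n)`
joins `(w, n)` to `(w, n + 1)`. -/

/-- edges of the rooted tree model -/
abbrev Te (β : ℕ) : Type := Bool × List (Fin (β + 2)) × ℕ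
/-- vertices of the rooted tree model -/
abbrev Tv (β : ℕ) : Type := List (Fin (β + 2)) × ℕ

/-- first end -/
def ta {β : ℕ} (e : Te β) : Tv β := (e.2.1, e.2.2)
/-- second end -/
def tc {β : ℕ} (e : Te β) : Tv β := if e.1 then (e.2.1, e.2.2 + 1) else (e.2.1.tail, e.2.2)

/-- Edges at heights in `[h1, h2]` of the tree of depth `K`, without vertical edges over the root
and over the vertices of depth `K`. -/
def RK (β K h1 h2 : ℕ) : Set (Te β) :=
  {e | (e.1 = true ∧ 1 ≤ e.2.1.length ∧ e.2.1.length < K ∧ h1 ≤ e.2.2 ∧ e.2.2 < h2) ∨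
    (e.1 = false ∧ 1 ≤ e.2.1.length ∧ e.2.1.length ≤ K ∧ h1 ≤ e.2.2 ∧ e.2.2 ≤ h2)}

/-- Edges at heights in `[h1, h2]` of the tree of depth `K`, without vertical edges over the
vertices of depth `K`. -/
def TK (β K h1 h2 : ℕ) : Set (Te β) :=
  {e | (e.1 = true ∧ e.2.1.length < K ∧ h1 ≤ e.2.2 ∧ e.2.2 < h2) ∨
    (e.1 = false ∧ 1 ≤ e.2.1.length ∧ e.2.1.length ≤ K ∧ h1 ≤ e.2.2 ∧ e.2.2 ≤ h2)}

/-- probability that the leaf `0^K` at height `0` is connected to the root line in `RK`, heights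
`≤ L` -/
noncomputable def WK (β K L : ℕ) (p : unitInterval) : ℝ :=
  (mu (Te β) p {ω | ∃ m ≤ L, Conn ta tc (RK β K 0 L) ω (List.replicate K 0, 0) ([], m)}).toReal

/-- the same with a given end point -/
noncomputable def VK (β K R m : ℕ) (p : unitInterval) : ℝ :=
  (mu (Te β) p {ω | Conn ta tc (RK β K 0 R) ω (List.replicate K 0, 0) ([], m)}).toReal

/-- probability of a vertical connection over the root by `n * D`, depth `k`, margins `R` -/
noncomputable def QK (β D R k n : ℕ) (p : unitInterval) : ℝ :=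
  (mu (Te β) p {ω | Conn ta tc (TK β k 0 (n * D + 2 * R)) ω ([], R) ([], R + n * D)}).toReal

/-- supercriticality criterion (step B) -/
def SupB (β : ℕ) (p : unitInterval) : Prop :=
  ∃ K L : ℕ, 1 ≤ K ∧ 1 < ((β : ℝ) + 2) ^ K * (WK β K L p) ^ 2

/-- output of step C -/
def SupC (β : ℕ) (p : unitInterval) : Prop :=
  ∃ K m R : ℕ, 1 ≤ K ∧ 1 ≤ m ∧ m ≤ R ∧ 1 < ((β : ℝ) + 2) ^ K * (VK β K R m p) ^ 2

/-- output of step D -/
def SupD (β : ℕ) (p : unitInterval) : Prop :=
  ∃ K D R : ℕ, ∃ q g : ℝ, 1 ≤ K ∧ 1 ≤ D ∧ 0 < q ∧ q ≤ 1 ∧ 1 < g ∧ ∀ k n : ℕ,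
    min q (g * QK β D R (k * K) n p) ≤ QK β D R ((k + 1) * K) (n + 1) p

/-- output of step D' : vertical connections at a range exponential in the depth -/
def LongR (β : ℕ) (p : unitInterval) : Prop :=
  ∃ D R i : ℕ, ∃ q : ℝ, 1 ≤ D ∧ 1 ≤ i ∧ 0 < q ∧ ∀ r n : ℕ, n ≤ 2 ^ r → q ≤ QK β D R (i * (r + 1)) n p

/-! ### The canopy model

Vertices `((k, i), n)`: level `k`, number `i`, height `n`; the parent of `(k, i)` is
`(k + 1, i / b)`, `b = β + 2`; the ray is `(k, 0)`. -/

/-- edges of the canopy model -/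
abbrev Ce : Type := Bool × (ℕ × ℕ) × ℕ
/-- vertices of the canopy model -/
abbrev Cv : Type := (ℕ × ℕ) × ℕ

/-- first end -/
def ca (e : Ce) : Cv := (e.2.1, e.2.2)
/-- second end -/
def cc (β : ℕ) (e : Ce) : Cv :=
  if e.1 then (e.2.1, e.2.2 + 1) else ((e.2.1.1 + 1, e.2.1.2 / (β + 2)), e.2.2)

/-- a finite region of the canopy: the subtree below `(l, 0)`, heights at most `H` -/
def CR (β l H : ℕ) : Set Ce := {e | e.2.1.1 ≤ l ∧ e.2.1.2 < (β + 2) ^ l ∧ e.2.2 ≤ H}

/-- output of step E -/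
def Climb (β : ℕ) (p : unitInterval) : Prop :=
  ∃ r : ℝ, 0 < r ∧ ∀ l0 : ℕ, ∃ l H : ℕ, l0 ≤ l ∧
    r ≤ (mu Ce p {ω | ∃ n ≤ H, Conn ca (cc β) (CR β l H) ω ((0, 0), 0) ((l, 0), n)}).toReal

end Pool.Agent.MP44
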