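import Mathlib
import Pool.Agent.Work.MP_44e654_pr.Base

/-! Bernoulli product measure toolbox for MP_44e654_pr (helper41). -/

set_option autoImplicit false

namespace Pool.Agent.MP44

open MeasureTheory ProbabilityTheory

section dep

variable {ι : Type}

theorem DepOn.mono {F G : Set ι} (h : F ⊆ G) {A : Set (ι → Bool)} (hA : DepOn F A) : DepOn G A :=
  fun ω ω' h' => hA ω ω' fun e he => h' e (h he)

theorem DepOn.inter {F : Set ι} {A B : Set (ι → Bool)} (hA : DepOn F A) (hB : DepOn F B) :
    DepOn F (A ∩ B) :=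
  fun ω ω' h => and_congr (hA ω ω' h) (hB ω ω' h)

theorem DepOn.union {F : Set ι} {A B : Set (ι → Bool)} (hA : DepOn F A) (hB : DepOn F B) :
    DepOn F (A ∪ B) :=
  fun ω ω' h => or_congr (hA ω ω' h) (hB ω ω' h)

theorem DepOn.compl {F : Set ι} {A : Set (ι → Bool)} (hA : DepOn F A) : DepOn F Aᶜ :=
  fun ω ω' h => not_congr (hA ω ω' h)

theorem DepOn.univ (F : Set ι) : DepOn F (Set.univ : Set (ι → Bool)) :=
  fun _ _ _ => Iff.rfl

theorem DepOn.empty (F : Set ι) : DepOn F (∅ : Set (ι → Bool)) :=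
  fun _ _ _ => Iff.rfl

theorem DepOn.exists {F : Set ι} {κ : Sort*} {A : κ → Set (ι → Bool)}
    (hA : ∀ i, DepOn F (A i)) : DepOn F {ω | ∃ i, ω ∈ A i} :=
  fun ω ω' h => exists_congr fun i => hA i ω ω' h

theorem DepOn.forall {F : Set ι} {κ : Sort*} {A : κ → Set (ι → Bool)}
    (hA : ∀ i, DepOn F (A i)) : DepOn F {ω | ∀ i, ω ∈ A i} :=
  fun ω ω' h => forall_congr' fun i => hA i ω ω' h

theorem DepOn.exists_mem {F : Set ι} {κ : Type*} {s : Set κ} {A : κ → Set (ι → Bool)}
    (hA : ∀ i ∈ s, DepOn F (A i)) : DepOn F {ω | ∃ i ∈ s, ω ∈ A i} :=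
  fun ω ω' h => exists_congr fun i => and_congr_right fun hi => hA i hi ω ω' h

theorem DepOn.iUnion {F : Set ι} {κ : Sort*} {A : κ → Set (ι → Bool)}
    (hA : ∀ i, DepOn F (A i)) : DepOn F (⋃ i, A i) := by
  intro ω ω' h
  rw [Set.mem_iUnion, Set.mem_iUnion]
  exact exists_congr fun i => hA i ω ω' h

theorem DepOn.iInter {F : Set ι} {κ : Sort*} {A : κ → Set (ι → Bool)}
    (hA : ∀ i, DepOn F (A i)) : DepOn F (⋂ i, A i) := by
  intro ω ω' h
  rw [Set.mem_iInter, Set.mem_iInter]
  exact forall_congr' fun i => hA i ω ω' h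

theorem DepOn.biUnion {F : Set ι} {κ : Type*} {s : Set κ} {A : κ → Set (ι → Bool)}
    (hA : ∀ i ∈ s, DepOn F (A i)) : DepOn F (⋃ i ∈ s, A i) := by
  intro ω ω' h
  rw [Set.mem_iUnion₂, Set.mem_iUnion₂]
  exact exists_congr fun i => exists_congr fun hi => hA i hi ω ω' h

theorem DepOn.biUnion_finset {F : Set ι} {κ : Type*} {s : Finset κ} {A : κ → Set (ι → Bool)}
    (hA : ∀ i ∈ s, DepOn F (A i)) : DepOn F (⋃ i ∈ s, A i) := by
  intro ω ω' h
  rw [Set.mem_iUnion₂, Set.mem_iUnion₂]
  exact exists_congr fun i => exists_congr fun hi => hA i hi ω ω' h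

/-- an event read through a map of the index sets -/
theorem DepOn.preimage {κ : Type} {F : Set ι} {A : Set (ι → Bool)} (hA : DepOn F A) (φ : ι → κ) :
    DepOn (φ '' F) {ω : κ → Bool | (fun e => ω (φ e)) ∈ A} :=
  fun _ _ h => hA _ _ fun e he => h (φ e) ⟨e, he, rfl⟩

theorem Incr.preimage {κ : Type} {A : Set (ι → Bool)} (hA : Incr A) (φ : ι → κ) :
    Incr {ω : κ → Bool | (fun e => ω (φ e)) ∈ A} :=
  fun _ _ h h' => hA _ _ (fun e he => h (φ e) he) h'

theorem Incr.inter {A B : Set (ι → Bool)} (hA : Incr A) (hB : Incr B) : Incr (A ∩ B) :=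
  fun ω ω' h h' => ⟨hA ω ω' h h'.1, hB ω ω' h h'.2⟩

theorem Incr.union {A B : Set (ι → Bool)} (hA : Incr A) (hB : Incr B) : Incr (A ∪ B) :=
  fun ω ω' h h' => h'.imp (hA ω ω' h) (hB ω ω' h)

theorem Incr.exists {κ : Sort*} {A : κ → Set (ι → Bool)}
    (hA : ∀ i, Incr (A i)) : Incr {ω | ∃ i, ω ∈ A i} :=
  fun ω ω' h ⟨i, hi⟩ => ⟨i, hA i ω ω' h hi⟩

theorem Incr.exists_mem {κ : Type*} {s : Set κ} {A : κ → Set (ι → Bool)}
    (hA : ∀ i ∈ s, Incr (A i)) : Incr {ω | ∃ i ∈ s, ω ∈ A i} :=
  fun ω ω' h ⟨i, hs, hi⟩ => ⟨i, hs, hA i hs ω ω' h hi⟩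

end dep

/-! ### Reduction to finitely many coordinates -/

section red

variable {ι : Type}

/-- extension by `false` -/
noncomputable def ext0 (F : Finset ι) (x : F → Bool) : ι → Bool :=
  open Classical in fun i => if h : i ∈ F then x ⟨i, h⟩ else false

/-- trace of an event on finitely many coordinates -/
def trace (F : Finset ι) (A : Set (ι → Bool)) : Set (F → Bool) := {x | ext0 F x ∈ A}

theorem mem_iff_trace {F : Finset ι} {A : Set (ι → Bool)} (hA : DepOn (F : Set ι) A)
    (ω : ι → Bool) : ω ∈ A ↔ (fun i : F => ω i) ∈ trace F A := by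
  refine hA ω _ fun e he => ?_
  have he' : e ∈ F := he
  simp [ext0, he']

theorem eq_preimage_trace {F : Finset ι} {A : Set (ι → Bool)} (hA : DepOn (F : Set ι) A) :
    A = (fun (ω : ι → Bool) (i : F) => ω i) ⁻¹' trace F A := by
  ext ω
  exact mem_iff_trace hA ω

theorem meas_of_dep {F : Set ι} (hF : F.Finite) {A : Set (ι → Bool)} (hA : DepOn F A) :
    MeasurableSet A := by
  have hA' : DepOn (hF.toFinset : Set ι) A := hA.mono (by simp)
  rw [eq_preimage_trace hA']
  exact (measurable_pi_lambda _ fun i => measurable_pi_apply _) (MeasurableSet.of_discrete)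

theorem iIndep (p : unitInterval) :
    iIndepFun (fun (i : ι) (ω : ι → Bool) => ω i) (mu ι p) := by
  unfold mu
  exact iIndepFun_infinitePi (X := fun (_ : ι) (x : Bool) => x) (fun _ => measurable_id)

theorem indep_of_dep (p : unitInterval) {F G : Set ι} (hF : F.Finite) (hG : G.Finite)
    (hd : Disjoint F G) {A B : Set (ι → Bool)} (hA : DepOn F A) (hB : DepOn G B) :
    mu ι p (A ∩ B) = mu ι p A * mu ι p B := by
  have hA' : DepOn (hF.toFinset : Set ι) A := hA.mono (by simp)
  have hB' : DepOn (hG.toFinset : Set ι) B := hB.mono (by simp)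
  have hdis : Disjoint hF.toFinset hG.toFinset := by
    rw [Finset.disjoint_left]
    intro x hx hx'
    rw [Set.Finite.mem_toFinset] at hx hx'
    exact (Set.disjoint_left.1 hd) hx hx'
  have h := (iIndep (ι := ι) p).indepFun_finset hF.toFinset hG.toFinset hdis
    (fun i => measurable_pi_apply i)
  have h2 := h.measure_inter_preimage_eq_mul (trace hF.toFinset A) (trace hG.toFinset B)
    (MeasurableSet.of_discrete) (MeasurableSet.of_discrete)
  rw [← eq_preimage_trace hA', ← eq_preimage_trace hB'] at h2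
  exact h2

theorem mu_eq_of_inj {κ : Type} (p : unitInterval) (F : Finset ι) (φ : ι → κ)
    (hφ : Set.InjOn φ F) (S : Set (F → Bool)) :
    mu κ p ((fun (ω : κ → Bool) (i : F) => ω (φ i)) ⁻¹' S) =
      Measure.infinitePi (fun _ : F => bern p) S := by
  have hinj : Function.Injective (fun i : F => φ i) := by
    intro i j hij
    exact Subtype.ext (hφ i.2 j.2 hij)
  have h := Measure.map_infinitePi_infinitePi_of_inj (P := fun _ : κ => bern p) hinj
  rw [← h, Measure.map_apply (by fun_prop) (MeasurableSet.of_discrete)]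
  rfl

theorem transfer {κ : Type} (p : unitInterval) {F : Set ι} (hF : F.Finite) (φ : ι → κ)
    (hφ : Set.InjOn φ F) {A : Set (ι → Bool)} (hA : DepOn F A) :
    mu κ p {ω | (fun e => ω (φ e)) ∈ A} = mu ι p A := by
  have hA' : DepOn (hF.toFinset : Set ι) A := hA.mono (by simp)
  have hφ' : Set.InjOn φ (hF.toFinset : Set ι) := by simpa using hφ
  have h1 : {ω : κ → Bool | (fun e => ω (φ e)) ∈ A} =
      (fun (ω : κ → Bool) (i : hF.toFinset) => ω (φ i)) ⁻¹' trace hF.toFinset A := by
    ext ω
    exact mem_iff_trace hA' (fun e => ω (φ e))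
  have h2 := mu_eq_of_inj p hF.toFinset (fun i : ι => i) (fun _ _ _ _ h => h)
    (trace hF.toFinset A)
  rw [h1, mu_eq_of_inj p hF.toFinset φ hφ', ← h2, ← eq_preimage_trace hA']

/-- weight of a bit -/
noncomputable def wt (p : ℝ) (b : Bool) : ℝ := if b then p else 1 - p

theorem bern_singleton (p : unitInterval) (b : Bool) : bern p {b} = ENNReal.ofReal (wt p b) := by
  cases b <;> simp [bern, wt]

theorem wt_nonneg (p : unitInterval) (b : Bool) : 0 ≤ wt p b := by
  have h0 := p.2.1
  have h1 := p.2.2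
  cases b <;> simp [wt] <;> linarith

open Classical in
theorem pi_formula (p : unitInterval) (F : Finset ι) (S : Set (F → Bool)) :
    (Measure.infinitePi (fun _ : F => bern p) S).toReal =
      ∑ x : F → Bool, (∏ i, wt p (x i)) * (if x ∈ S then 1 else 0) := by
  have h1 : S = ↑(Finset.univ.filter (fun x => x ∈ S)) := by ext; simp
  have h2 : Measure.infinitePi (fun _ : F => bern p) S =
      ∑ x ∈ Finset.univ.filter (fun x => x ∈ S), ∏ i, ENNReal.ofReal (wt p (x i)) := by
    conv_lhs => rw [h1]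
    rw [← MeasureTheory.sum_measure_singleton]
    refine Finset.sum_congr rfl fun x _ => ?_
    rw [Measure.infinitePi_singleton_of_fintype]
    refine Finset.prod_congr rfl fun i _ => ?_
    rw [bern_singleton]
  rw [h2, ENNReal.toReal_sum]
  · rw [Finset.sum_filter]
    refine Finset.sum_congr rfl fun x _ => ?_
    split_ifs with h
    · rw [ENNReal.toReal_prod, mul_one]
      refine Finset.prod_congr rfl fun i _ => ?_
      rw [ENNReal.toReal_ofReal (wt_nonneg p _)]
    · simp
  · intro x _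
    exact ENNReal.prod_ne_top fun i _ => ENNReal.ofReal_ne_top

open Classical in
theorem mu_formula (p : unitInterval) (F : Finset ι) {A : Set (ι → Bool)}
    (hA : DepOn (F : Set ι) A) :
    (mu ι p A).toReal = ∑ x : F → Bool, (∏ i, wt p (x i)) * (if x ∈ trace F A then 1 else 0) := by
  have h2 := mu_eq_of_inj p F (fun i : ι => i) (fun _ _ _ _ h => h) (trace F A)
  rw [← eq_preimage_trace hA] at h2
  rw [h2, pi_formula]

theorem cont_dep {F : Set ι} (hF : F.Finite) {A : Set (ι → Bool)} (hA : DepOn F A) :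
    Continuous (fun p : unitInterval => (mu ι p A).toReal) := by
  classical
  have hA' : DepOn (hF.toFinset : Set ι) A := hA.mono (by simp)
  have h : (fun p : unitInterval => (mu ι p A).toReal) = fun p : unitInterval =>
      ∑ x : hF.toFinset → Bool, (∏ i, wt p (x i)) * (if x ∈ trace hF.toFinset A then 1 else 0) := by
    funext p
    exact mu_formula p _ hA'
  rw [h]
  refine continuous_finsetSum _ fun x _ => Continuous.mul ?_ continuous_const
  refine continuous_finsetProd _ fun i _ => ?_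
  cases h : x i
  · simp only [wt, Bool.false_eq_true, if_false]
    fun_prop
  · simp only [wt, if_true]
    fun_prop

theorem mu_univ (p : unitInterval) : mu ι p Set.univ = 1 := measure_univ

open Classical in
theorem sum_wt (p : unitInterval) (F : Finset ι) : ∑ x : F → Bool, ∏ i, wt p (x i) = 1 := by
  classical
  have h := mu_formula p F (DepOn.univ (F : Set ι))
  rw [mu_univ] at h
  simpa [trace] using h.symm

/-- Harris inequality -/
theorem harris (p : unitInterval) {F : Set ι} (hF : F.Finite) {A B : Set (ι → Bool)}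
    (hA : DepOn F A) (hB : DepOn F B) (hA' : Incr A) (hB' : Incr B) :
    mu ι p A * mu ι p B ≤ mu ι p (A ∩ B) := by
  classical
  set G := hF.toFinset with hG
  have hAG : DepOn (G : Set ι) A := hA.mono (by simp [hG])
  have hBG : DepOn (G : Set ι) B := hB.mono (by simp [hG])
  have hmono : ∀ C : Set (ι → Bool), Incr C →
      Monotone (fun x : G → Bool => if x ∈ trace G C then (1 : ℝ) else 0) := by
    intro C hC x y hxy
    have : x ∈ trace G C → y ∈ trace G C := by
      intro hx
      refine hC _ _ (fun e he => ?_) hx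
      unfold ext0 at he ⊢
      by_cases h : e ∈ G
      · simp only [h, dif_pos] at he ⊢
        have := hxy ⟨e, h⟩
        rw [he] at this
        exact top_le_iff.1 this
      · simp [h] at he
    by_cases hx : x ∈ trace G C
    · simp [hx, this hx]
    · simp only [hx, if_false]
      split_ifs <;> norm_num
  have key := fkg (fun x : G → Bool => if x ∈ trace G A then (1 : ℝ) else 0)
    (fun x => if x ∈ trace G B then (1 : ℝ) else 0) (fun x => ∏ i, wt p (x i))
    (fun x => Finset.prod_nonneg fun i _ => wt_nonneg p _)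
    (fun x => by dsimp only; split_ifs <;> norm_num)
    (fun x => by dsimp only; split_ifs <;> norm_num) (hmono A hA') (hmono B hB') (by
      intro a b
      rw [← Finset.prod_mul_distrib, ← Finset.prod_mul_distrib]
      refine le_of_eq (Finset.prod_congr rfl fun i _ => ?_)
      rw [Pi.inf_apply, Pi.sup_apply]
      cases a i <;> cases b i <;> simp [mul_comm])
  rw [sum_wt, one_mul] at key
  have hAB : ∑ x : G → Bool, (∏ i, wt p (x i)) *
      ((if x ∈ trace G A then (1 : ℝ) else 0) * (if x ∈ trace G B then 1 else 0)) =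
      (mu ι p (A ∩ B)).toReal := by
    rw [mu_formula p G (hAG.inter hBG)]
    refine Finset.sum_congr rfl fun x _ => ?_
    congr 1
    have : x ∈ trace G (A ∩ B) ↔ x ∈ trace G A ∧ x ∈ trace G B := Iff.rfl
    by_cases h1 : x ∈ trace G A <;> by_cases h2 : x ∈ trace G B <;> simp [this, h1, h2]
  have key2 : (mu ι p A).toReal * (mu ι p B).toReal ≤ (mu ι p (A ∩ B)).toReal := by
    rw [mu_formula p G hAG, mu_formula p G hBG, ← hAB]
    exact key
  rw [← ENNReal.toReal_mul] at key2
  exact (ENNReal.toReal_le_toReal (ENNReal.mul_ne_top (measure_ne_top _ _) (measure_ne_top _ _))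
    (measure_ne_top _ _)).1 key2

theorem harris_real (p : unitInterval) {F : Set ι} (hF : F.Finite) {A B : Set (ι → Bool)}
    (hA : DepOn F A) (hB : DepOn F B) (hA' : Incr A) (hB' : Incr B) :
    (mu ι p A).toReal * (mu ι p B).toReal ≤ (mu ι p (A ∩ B)).toReal := by
  rw [← ENNReal.toReal_mul]
  exact ENNReal.toReal_mono (measure_ne_top _ _) (harris p hF hA hB hA' hB')

theorem fubini_dep (p : unitInterval) {F G : Set ι} (hF : F.Finite) (hG : G.Finite)
    (hd : Disjoint F G) (C : (ι → Bool) → Set (ι → Bool))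
    (hC1 : ∀ ω ω' : ι → Bool, (∀ e ∈ F, ω e = ω' e) → C ω = C ω') (hC2 : ∀ ω, DepOn G (C ω)) :
    mu ι p {ω | ω ∈ C ω} = ∫⁻ ω, mu ι p (C ω) ∂(mu ι p) := by
  classical
  set H := hF.toFinset with hH
  have hmemH : ∀ e, e ∈ H ↔ e ∈ F := fun e => by simp [hH]
  set E : (H → Bool) → Set (ι → Bool) := fun x => {ω | (fun i : H => ω i) = x} with hE
  have hEdep : ∀ x, DepOn F (E x) := by
    intro x ω ω' h
    have : (fun i : H => ω i) = fun i : H => ω' i := by
      funext i
      exact h i ((hmemH _).1 i.2)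
    show (fun i : H => ω i) = x ↔ (fun i : H => ω' i) = x
    rw [this]
  have hCx : ∀ x, ∀ ω ∈ E x, C ω = C (ext0 H x) := by
    intro x ω hω
    apply hC1
    intro e he
    have he' : e ∈ H := (hmemH e).2 he
    have h1 : (fun i : H => ω i) = x := hω
    have h2 := congrFun h1 ⟨e, he'⟩
    simp only [ext0, he', dif_pos]
    exact h2
  have hEmeas : ∀ x, MeasurableSet (E x) := fun x => meas_of_dep hF (hEdep x)
  have hunion : (⋃ x, E x) = Set.univ := by
    ext ω; simp [hE]
  have hdisj : Pairwise (Function.onFun Disjoint E) := by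
    intro x y hxy
    rw [Function.onFun, Set.disjoint_left]
    intro ω h1 h2
    exact hxy (h1.symm.trans h2)
  -- left side
  have hL : {ω | ω ∈ C ω} = ⋃ x, (E x ∩ C (ext0 H x)) := by
    ext ω
    rw [Set.mem_iUnion]
    constructor
    · intro h
      refine ⟨fun i : H => ω i, rfl, ?_⟩
      rw [← hCx (fun i : H => ω i) ω rfl]
      exact h
    · rintro ⟨x, hx, h⟩
      rw [← hCx x ω hx] at h
      exact h
  have hL2 : mu ι p {ω | ω ∈ C ω} = ∑ x, mu ι p (E x) * mu ι p (C (ext0 H x)) := by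
    rw [hL, measure_iUnion, tsum_fintype]
    · refine Finset.sum_congr rfl fun x _ => ?_
      exact indep_of_dep p hF hG hd (hEdep x) (hC2 _)
    · intro x y hxy
      exact (hdisj hxy).mono Set.inter_subset_left Set.inter_subset_left
    · intro x
      exact (hEmeas x).inter (meas_of_dep hG (hC2 _))
  have hR : ∫⁻ ω, mu ι p (C ω) ∂(mu ι p) = ∑ x, mu ι p (E x) * mu ι p (C (ext0 H x)) := by
    rw [← setLIntegral_univ, ← hunion, lintegral_iUnion hEmeas hdisj, tsum_fintype]
    refine Finset.sum_congr rfl fun x _ => ?_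
    rw [setLIntegral_congr_fun (hEmeas x) (g := fun _ => mu ι p (C (ext0 H x)))
      (fun ω hω => by dsimp only; rw [hCx x ω hω]), setLIntegral_const, mul_comm]
  rw [hL2, hR]

theorem all_open (p : unitInterval) (F : Finset ι) :
    mu ι p {ω | ∀ e ∈ F, ω e = true} = ENNReal.ofReal ((p : ℝ) ^ F.card) := by
  have h1 : {ω : ι → Bool | ∀ e ∈ F, ω e = true} = Set.pi (F : Set ι) (fun _ => {true}) := by
    ext ω; simp [Set.pi]
  rw [h1, mu, Measure.infinitePi_pi _ (fun _ _ => MeasurableSet.of_discrete), Finset.prod_const,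
    bern_singleton, ENNReal.ofReal_pow p.2.1]
  simp [wt]

theorem all_open_real (p : unitInterval) (F : Finset ι) :
    (mu ι p {ω | ∀ e ∈ F, ω e = true}).toReal = (p : ℝ) ^ F.card := by
  rw [all_open, ENNReal.toReal_ofReal (pow_nonneg p.2.1 _)]

theorem one_open_real (p : unitInterval) (e : ι) :
    (mu ι p {ω | ω e = true}).toReal = (p : ℝ) := by
  have := all_open_real p ({e} : Finset ι)
  simpa using this

/-- probability that all edges of a finite set are closed -/
theorem all_closed (p : unitInterval) (F : Finset ι) :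
    mu ι p {ω | ∀ e ∈ F, ω e = false} = ENNReal.ofReal ((1 - p : ℝ) ^ F.card) := by
  have h1 : {ω : ι → Bool | ∀ e ∈ F, ω e = false} = Set.pi (F : Set ι) (fun _ => {false}) := by
    ext ω; simp [Set.pi]
  rw [h1, mu, Measure.infinitePi_pi _ (fun _ _ => MeasurableSet.of_discrete), Finset.prod_const,
    bern_singleton, ENNReal.ofReal_pow (by linarith [p.2.2])]
  simp [wt]

/-- for `p = 0` the configuration is almost surely closed on a finite set; an event which fails
on closed configurations has probability `0` -/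
theorem mu_zero_of_closed {F : Set ι} (hF : F.Finite) {A : Set (ι → Bool)}
    (h : ∀ ω : ι → Bool, (∀ e ∈ F, ω e = false) → ω ∉ A) : mu ι 0 A = 0 := by
  have h1 := all_closed (0 : unitInterval) hF.toFinset
  have h2 : mu ι 0 {ω | ∀ e ∈ hF.toFinset, ω e = false} = 1 := by
    rw [h1]; simp
  have hmeas : MeasurableSet {ω : ι → Bool | ∀ e ∈ hF.toFinset, ω e = false} := by
    apply meas_of_dep hF
    intro ω ω' h
    show (∀ e ∈ hF.toFinset, ω e = false) ↔ (∀ e ∈ hF.toFinset, ω' e = false)
    refine forall_congr' fun e => ?_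
    constructor
    · intro h3 he; rw [← h e (by simpa using he)]; exact h3 he
    · intro h3 he; rw [h e (by simpa using he)]; exact h3 he
  have h3 : mu ι 0 {ω | ∀ e ∈ hF.toFinset, ω e = false}ᶜ = 0 := by
    rw [prob_compl_eq_zero_iff hmeas, h2]
  refine measure_mono_null (fun ω hω => ?_) h3
  intro h4
  exact h ω (fun e he => h4 e (by simpa using he)) hω

end red

/-! ### Finiteness of the regions -/

theorem Te_finite (β K h2 : ℕ) : {e : Te β | e.2.1.length ≤ K ∧ e.2.2 ≤ h2}.Finite := by
  have h1 : ({w : List (Fin (β + 2)) | w.length ≤ K}).Finite := List.finite_length_le _ K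
  have h2' : ({n : ℕ | n ≤ h2}).Finite := Set.finite_Iic h2
  refine ((Set.finite_univ (α := Bool)).prod (h1.prod h2')).subset ?_
  rintro ⟨b, w, n⟩ ⟨ha, hb⟩
  exact ⟨trivial, ha, hb⟩

theorem RK_finite (β K h1 h2 : ℕ) : (RK β K h1 h2).Finite := by
  refine (Te_finite β K h2).subset ?_
  rintro e (⟨_, _, h, _, h'⟩ | ⟨_, _, h, _, h'⟩)
  · exact ⟨h.le, h'.le⟩
  · exact ⟨h, h'⟩

theorem TK_finite (β K h1 h2 : ℕ) : (TK β K h1 h2).Finite := by
  refine (Te_finite β K h2).subset ?_
  rintro e (⟨_, h, _, h'⟩ | ⟨_, _, h, _, h'⟩)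
  · exact ⟨h.le, h'.le⟩
  · exact ⟨h, h'⟩

theorem CR_finite (β l H : ℕ) : (CR β l H).Finite := by
  have h1 : ({n : ℕ | n ≤ l}).Finite := Set.finite_Iic l
  have h2 : ({n : ℕ | n < (β + 2) ^ l}).Finite := Set.finite_Iio _
  have h3 : ({n : ℕ | n ≤ H}).Finite := Set.finite_Iic H
  refine ((Set.finite_univ (α := Bool)).prod ((h1.prod h2).prod h3)).subset ?_
  rintro ⟨b, ⟨k, i⟩, n⟩ ⟨ha, hb, hc⟩
  exact ⟨trivial, ⟨ha, hb⟩, hc⟩

end Pool.Agent.MP44
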