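import Mathlib
import Pool.Agent.Work.MP_44e654_pr.Base
import Pool.Agent.Work.MP_44e654_pr.Prob

/-! Step B for MP_44e654_pr (helper41). -/

set_option autoImplicit false

namespace Pool.Agent.MP44

open MeasureTheory

theorem Conn.eq_of_closed {ι V : Type} {a c : ι → V} {S : Set ι} {ω : ι → Bool}
    (h : ∀ e ∈ S, ω e = false) {u v : V} (hc : Conn a c S ω u v) : u = v := by
  induction hc with
  | rel u v huv =>
    obtain ⟨e, he, ho, -, -⟩ := huv
    rw [h e he] at ho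
    exact absurd ho (by decide)
  | refl u => rfl
  | symm u v _ ih => exact ih.symm
  | trans u v w _ _ ih1 ih2 => exact ih1.trans ih2

theorem WK_dep (β K L : ℕ) : DepOn (RK β K 0 L)
    {ω | ∃ m ≤ L, Conn ta tc (RK β K 0 L) ω (List.replicate K 0, 0) ([], m)} :=
  DepOn.exists_mem (s := {m | m ≤ L})
    (A := fun m => {ω | Conn ta tc (RK β K 0 L) ω (List.replicate K 0, 0) ([], m)})
    (fun _ _ => Conn.dep (RK β K 0 L) _ _)

theorem WK_continuous (β K L : ℕ) : Continuous (fun p => WK β K L p) :=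
  cont_dep (RK_finite β K 0 L) (WK_dep β K L)

theorem WK_zero (β K L : ℕ) (hK : 1 ≤ K) : WK β K L 0 = 0 := by
  unfold WK
  rw [mu_zero_of_closed (RK_finite β K 0 L) (fun ω hω => ?_)]
  · rfl
  · rintro ⟨m, _, hc⟩
    have h := Conn.eq_of_closed hω hc
    have h2 := congrArg (fun x => x.1.length) h
    simp at h2
    omega

/-- step B -/
theorem stepB (β : ℕ) (p : unitInterval) (c : ℝ) (hc : 0 < c)
    (h : ∀ K : ℕ, 1 ≤ K → ∃ L, c ≤ WK β K L p) :
    ∃ p' : unitInterval, 0 < p' ∧ p' < p ∧ SupB β p' := by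
  have hβ : (1 : ℝ) < (β : ℝ) + 2 := by
    have : (0 : ℝ) ≤ β := Nat.cast_nonneg β
    linarith
  obtain ⟨K0, hK0⟩ := pow_unbounded_of_one_lt (1 / c ^ 2) hβ
  set K := K0 + 1 with hKdef
  have hK : 1 / c ^ 2 < ((β : ℝ) + 2) ^ K :=
    lt_of_lt_of_le hK0 (pow_le_pow_right₀ hβ.le (by omega))
  obtain ⟨L, hL⟩ := h K (by omega)
  have hcont : Continuous (fun q => ((β : ℝ) + 2) ^ K * (WK β K L q) ^ 2) :=
    continuous_const.mul ((WK_continuous β K L).pow 2)
  have hp1 : 1 < ((β : ℝ) + 2) ^ K * (WK β K L p) ^ 2 := by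
    have h1 : c ^ 2 ≤ (WK β K L p) ^ 2 := pow_le_pow_left₀ hc.le hL 2
    have h2 : 1 < ((β : ℝ) + 2) ^ K * c ^ 2 := by
      have := (div_lt_iff₀ (by positivity : (0 : ℝ) < c ^ 2)).1 hK
      linarith
    have h3 : ((β : ℝ) + 2) ^ K * c ^ 2 ≤ ((β : ℝ) + 2) ^ K * (WK β K L p) ^ 2 :=
      mul_le_mul_of_nonneg_left h1 (by positivity)
    linarith
  have hp0 : 0 < p := by
    rcases (unitInterval.nonneg' (t := p)).lt_or_eq with h0 | h0
    · exact h0
    · rw [← h0, WK_zero β K L (by omega)] at hp1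
      norm_num at hp1
  have hnhds : {q : unitInterval | 1 < ((β : ℝ) + 2) ^ K * (WK β K L q) ^ 2} ∈ nhds p :=
    (isOpen_lt continuous_const hcont).mem_nhds hp1
  obtain ⟨l, hl, hlsub⟩ := exists_Ioc_subset_of_mem_nhds hnhds ⟨0, hp0⟩
  obtain ⟨p', hp'1, hp'2⟩ := exists_between (max_lt hl hp0)
  refine ⟨p', lt_of_le_of_lt (le_max_right _ _) hp'1, hp'2, K, L, by omega, ?_⟩
  exact hlsub ⟨lt_of_le_of_lt (le_max_left _ _) hp'1, hp'2.le⟩

end Pool.Agent.MP44
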