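import Pool.Agent.Work.MP_44e654_pr.Prob

/-! MP_44e654_pr, step C: concatenation of up-crossings (helper65). -/

set_option autoImplicit false

namespace Pool.Agent.MP44

open MeasureTheory

section depon
variable {ι : Type}

theorem DepOn.mono65 {F G : Set ι} (h : F ⊆ G) {A : Set (ι → Bool)} (hA : DepOn F A) : DepOn G A :=
  fun ω ω' hh => hA ω ω' (fun e he => hh e (h he))

theorem DepOn.inter65 {F : Set ι} {A B : Set (ι → Bool)} (hA : DepOn F A) (hB : DepOn F B) :
    DepOn F (A ∩ B) :=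
  fun ω ω' hh => and_congr (hA ω ω' hh) (hB ω ω' hh)

theorem DepOn.diff65 {F : Set ι} {A B : Set (ι → Bool)} (hA : DepOn F A) (hB : DepOn F B) :
    DepOn F (A \ B) :=
  fun ω ω' hh => and_congr (hA ω ω' hh) (not_congr (hB ω ω' hh))

theorem DepOn.exle65 {F : Set ι} {A : ℕ → Set (ι → Bool)} {L : ℕ} (hA : ∀ m ≤ L, DepOn F (A m)) :
    DepOn F {ω | ∃ m ≤ L, ω ∈ A m} := by
  intro ω ω' hh
  constructor
  · rintro ⟨m, hm, h⟩
    exact ⟨m, hm, (hA m hm ω ω' hh).1 h⟩
  · rintro ⟨m, hm, h⟩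
    exact ⟨m, hm, (hA m hm ω ω' hh).2 h⟩

theorem DepOn.comap65 {κ : Type} {F : Set ι} (φ : ι → κ) {A : Set (ι → Bool)} (hA : DepOn F A) :
    DepOn (φ '' F) {ω : κ → Bool | (fun e => ω (φ e)) ∈ A} := by
  intro ω ω' hh
  exact hA _ _ (fun e he => hh (φ e) ⟨e, he, rfl⟩)

/-- First hitting decomposition. -/
theorem first_hit65 (p : unitInterval) {F : Set ι} (hF : F.Finite) (r : ENNReal)
    (A B : ℕ → Set (ι → Bool)) (G : ℕ → Set ι) (L : ℕ)
    (hA : ∀ m ≤ L, DepOn F (A m)) (hG : ∀ m ≤ L, (G m).Finite) (hd : ∀ m ≤ L, Disjoint F (G m))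
    (hB : ∀ m ≤ L, DepOn (G m) (B m)) (hr : ∀ m ≤ L, r ≤ mu ι p (B m)) :
    mu ι p {ω | ∃ m ≤ L, ω ∈ A m} * r ≤ mu ι p {ω | ∃ m ≤ L, ω ∈ A m ∧ ω ∈ B m} := by
  induction L with
  | zero =>
    have h1 : {ω | ∃ m ≤ 0, ω ∈ A m} = A 0 := by
      ext ω; simp
    have h2 : {ω | ∃ m ≤ 0, ω ∈ A m ∧ ω ∈ B m} = A 0 ∩ B 0 := by
      ext ω; simp
    rw [h1, h2, indep_of_dep p hF (hG 0 le_rfl) (hd 0 le_rfl) (hA 0 le_rfl) (hB 0 le_rfl)]
    gcongr
    exact hr 0 le_rfl
  | succ L ih =>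
    have ih' := ih (fun m hm => hA m (by omega)) (fun m hm => hG m (by omega))
      (fun m hm => hd m (by omega)) (fun m hm => hB m (by omega)) (fun m hm => hr m (by omega))
    set U : Set (ι → Bool) := {ω | ∃ m ≤ L, ω ∈ A m} with hU
    set V : Set (ι → Bool) := {ω | ∃ m ≤ L, ω ∈ A m ∧ ω ∈ B m} with hV
    have hUd : DepOn F U := DepOn.exle65 (fun m hm => hA m (by omega))
    have h1 : {ω | ∃ m ≤ L + 1, ω ∈ A m} = U ∪ (A (L + 1) \ U) := by
      ext ω
      simp only [Set.mem_ofPred_eq, Set.mem_union, Set.mem_sdiff]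
      constructor
      · rintro ⟨m, hm, h⟩
        by_cases hu : ω ∈ U
        · exact Or.inl hu
        · rcases Nat.lt_or_ge m (L + 1) with h3 | h3
          · exact absurd ⟨m, by omega, h⟩ hu
          · have : m = L + 1 := by omega
            subst this
            exact Or.inr ⟨h, hu⟩
      · rintro (⟨m, hm, h⟩ | ⟨h, _⟩)
        · exact ⟨m, by omega, h⟩
        · exact ⟨L + 1, le_rfl, h⟩
    have h2 : V ∪ ((A (L + 1) \ U) ∩ B (L + 1)) ⊆ {ω | ∃ m ≤ L + 1, ω ∈ A m ∧ ω ∈ B m} := by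
      rintro ω (⟨m, hm, h⟩ | ⟨⟨h, _⟩, h'⟩)
      · exact ⟨m, by omega, h⟩
      · exact ⟨L + 1, le_rfl, h, h'⟩
    have hVU : V ⊆ U := by
      rintro ω ⟨m, hm, h, _⟩
      exact ⟨m, hm, h⟩
    have hdisj : Disjoint V ((A (L + 1) \ U) ∩ B (L + 1)) := by
      rw [Set.disjoint_left]
      rintro ω hv ⟨⟨_, hu⟩, _⟩
      exact hu (hVU hv)
    have hd2 : DepOn F (A (L + 1) \ U) := (hA _ le_rfl).diff65 hUd
    have hm2 : MeasurableSet ((A (L + 1) \ U) ∩ B (L + 1)) :=
      (meas_of_dep hF hd2).inter (meas_of_dep (hG _ le_rfl) (hB _ le_rfl))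
    calc mu ι p {ω | ∃ m ≤ L + 1, ω ∈ A m} * r
        = mu ι p (U ∪ (A (L + 1) \ U)) * r := by rw [h1]
      _ ≤ (mu ι p U + mu ι p (A (L + 1) \ U)) * r := by
          gcongr
          exact measure_union_le _ _
      _ = mu ι p U * r + mu ι p (A (L + 1) \ U) * r := by ring
      _ ≤ mu ι p V + mu ι p (A (L + 1) \ U) * mu ι p (B (L + 1)) := by
          gcongr
          exact hr _ le_rfl
      _ = mu ι p V + mu ι p ((A (L + 1) \ U) ∩ B (L + 1)) := by
          rw [indep_of_dep p hF (hG _ le_rfl) (hd _ le_rfl) hd2 (hB _ le_rfl)]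
      _ = mu ι p (V ∪ ((A (L + 1) \ U) ∩ B (L + 1))) := by
          rw [measure_union hdisj hm2]
      _ ≤ _ := measure_mono h2

end depon

variable {β : ℕ}

/-- the word `0^K` -/
abbrev zw65 (β K : ℕ) : List (Fin (β + 2)) := List.replicate K 0

/-- embedding of the block next to the leaf -/
def phi65 (β K' : ℕ) (e : Te β) : Te β := (e.1, e.2.1 ++ zw65 β K', e.2.2)

/-- vertical shift -/
def sh65 {β : ℕ} (s : ℕ) (e : Te β) : Te β := (e.1, e.2.1, e.2.2 + s)

theorem phi65_inj (β K' : ℕ) : Function.Injective (phi65 β K') := by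
  rintro ⟨a, w, n⟩ ⟨a', w', n'⟩ h
  simp only [phi65, Prod.mk.injEq, List.append_cancel_right_eq] at h
  obtain ⟨rfl, rfl, rfl⟩ := h
  rfl

theorem sh65_inj (s : ℕ) : Function.Injective (sh65 (β := β) s) := by
  rintro ⟨a, w, n⟩ ⟨a', w', n'⟩ h
  simp only [sh65, Prod.mk.injEq, Nat.add_right_cancel_iff] at h
  obtain ⟨rfl, rfl, rfl⟩ := h
  rfl

theorem phi65_conn {K L K' N : ℕ} (hN : L ≤ N) (hK' : 1 ≤ K') {ω : Te β → Bool} {m : ℕ}
    (h : Conn ta tc (RK β K 0 L) (fun e => ω (phi65 β K' e)) (zw65 β K, 0) ([], m)) :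
    Conn ta tc (RK β (K + K') 0 N) ω (zw65 β (K + K'), 0) (zw65 β K', m) := by
  have := Conn.map (a' := ta) (c' := tc) (S' := RK β (K + K') 0 N) (phi65 β K')
    (fun v : Tv β => (v.1 ++ zw65 β K', v.2)) ?_ ?_ h
  · simpa [zw65, List.replicate_append_replicate] using this
  · rintro ⟨a, w, n⟩ he
    simp only [RK, Set.mem_ofPred_eq, phi65, List.length_append, List.length_replicate] at he ⊢
    rcases he with he | he
    · left
      exact ⟨he.1, by omega, by omega, by omega, by omega⟩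
    · right
      exact ⟨he.1, by omega, by omega, by omega, by omega⟩
  · rintro ⟨a, w, n⟩ he
    left
    simp only [RK, Set.mem_ofPred_eq] at he
    have hw : 1 ≤ w.length := by
      rcases he with he | he
      · exact he.2.1
      · exact he.2.1
    cases w with
    | nil => simp at hw
    | cons x w =>
      refine ⟨rfl, ?_⟩
      cases a <;> simp [tc, phi65]

theorem sh65_conn {K' L' K N s : ℕ} (hN : s + L' ≤ N) {ω : Te β → Bool} {m : ℕ}
    (h : Conn ta tc (RK β K' 0 L') (fun e => ω (sh65 s e)) (zw65 β K', 0) ([], m)) :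
    Conn ta tc (RK β (K + K') 0 N) ω (zw65 β K', s) ([], m + s) := by
  have := Conn.map (a' := ta) (c' := tc) (S' := RK β (K + K') 0 N) (sh65 s)
    (fun v : Tv β => (v.1, v.2 + s)) ?_ ?_ h
  · simpa using this
  · rintro ⟨a, w, n⟩ he
    simp only [RK, Set.mem_ofPred_eq, sh65] at he ⊢
    rcases he with he | he
    · left
      exact ⟨he.1, by omega, by omega, by omega, by omega⟩
    · right
      exact ⟨he.1, by omega, by omega, by omega, by omega⟩
  · rintro ⟨a, w, n⟩ he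
    left
    refine ⟨rfl, ?_⟩
    cases a
    · simp [tc, sh65]
    · simp [tc, sh65]; omega

/-- The event defining `WK`. -/
def EW65 (β K L : ℕ) : Set (Te β → Bool) :=
  {ω | ∃ m ≤ L, Conn ta tc (RK β K 0 L) ω (zw65 β K, 0) ([], m)}

theorem EW65_dep (β K L : ℕ) : DepOn (RK β K 0 L) (EW65 β K L) :=
  DepOn.exle65 (A := fun m => {ω | Conn ta tc (RK β K 0 L) ω (zw65 β K, 0) ([], m)})
    (fun m _ => Conn.dep _ _ _)

theorem WK65_eq (β K L : ℕ) (p : unitInterval) : WK β K L p = (mu (Te β) p (EW65 β K L)).toReal := rfl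

/-- the region of the leaf block -/
def reg65 (β K L K' : ℕ) : Set (Te β) := phi65 β K' '' RK β K 0 L

theorem reg65_len {K L K' : ℕ} {e : Te β} (he : e ∈ reg65 β K L K') : K' < e.2.1.length := by
  obtain ⟨⟨a, w, n⟩, he, rfl⟩ := he
  simp only [RK, Set.mem_ofPred_eq] at he
  simp only [phi65, List.length_append, List.length_replicate]
  rcases he with he | he <;> omega

theorem concat65 (p : unitInterval) (K L K' L' : ℕ) (hK' : 1 ≤ K') :
    mu (Te β) p (EW65 β K L) * mu (Te β) p (EW65 β K' L') ≤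
      mu (Te β) p (EW65 β (K + K') (L + L')) := by
  have hF : (reg65 β K L K').Finite := (RK_finite β K 0 L).image _
  have key := first_hit65 (ι := Te β) p hF (mu (Te β) p (EW65 β K' L'))
    (fun m => {ω | (fun e => ω (phi65 β K' e)) ∈
      {ω | Conn ta tc (RK β K 0 L) ω (zw65 β K, 0) ([], m)}})
    (fun m => {ω | (fun e => ω (sh65 m e)) ∈ EW65 β K' L'})
    (fun m => sh65 m '' RK β K' 0 L') L
    (fun m _ => DepOn.comap65 _ (Conn.dep _ _ _))
    (fun m _ => (RK_finite β K' 0 L').image _)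
    (fun m _ => by
      rw [Set.disjoint_left]
      rintro e he ⟨⟨a, w, n⟩, he', rfl⟩
      have h1 := reg65_len he
      simp only [RK, Set.mem_ofPred_eq] at he'
      simp only [sh65] at h1
      rcases he' with h2 | h2 <;> omega)
    (fun m _ => DepOn.comap65 _ (EW65_dep β K' L'))
    (fun m _ => by
      rw [transfer p (RK_finite β K' 0 L') (sh65 m) (sh65_inj m).injOn (EW65_dep β K' L')])
  have h0 : mu (Te β) p {ω | ∃ m ≤ L, ω ∈ (fun m => {ω : Te β → Bool |
      (fun e => ω (phi65 β K' e)) ∈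
        {ω | Conn ta tc (RK β K 0 L) ω (zw65 β K, 0) ([], m)}}) m} = mu (Te β) p (EW65 β K L) := by
    rw [← transfer p (RK_finite β K 0 L) (phi65 β K') (phi65_inj β K').injOn (EW65_dep β K L)]
    rfl
  rw [h0] at key
  refine key.trans (measure_mono ?_)
  rintro ω ⟨m, hm, h1, m', hm', h2⟩
  refine ⟨m' + m, by omega, ?_⟩
  have h3 := phi65_conn (N := L + L') (by omega) hK' h1
  have h4 := sh65_conn (K := K) (N := L + L') (by omega) h2
  exact h3.trans h4

/-- junction edge -/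
def je65 (β K' m : ℕ) : Te β := (true, zw65 β K', m)

theorem concatv65 (p : unitInterval) (K L K' L' : ℕ) (hK' : 1 ≤ K') (hK : 1 ≤ K) :
    mu (Te β) p (EW65 β K L) * (ENNReal.ofReal p * mu (Te β) p (EW65 β K' L')) ≤
      mu (Te β) p {ω | ∃ m, 1 ≤ m ∧ m ≤ L + 1 + L' ∧
        Conn ta tc (RK β (K + K') 0 (L + 1 + L')) ω (zw65 β (K + K'), 0) ([], m)} := by
  have hF : (reg65 β K L K').Finite := (RK_finite β K 0 L).image _
  have key := first_hit65 (ι := Te β) p hF (ENNReal.ofReal p * mu (Te β) p (EW65 β K' L'))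
    (fun m => {ω | (fun e => ω (phi65 β K' e)) ∈
      {ω | Conn ta tc (RK β K 0 L) ω (zw65 β K, 0) ([], m)}})
    (fun m => {ω | ω (je65 β K' m) = true} ∩ {ω | (fun e => ω (sh65 (m + 1) e)) ∈ EW65 β K' L'})
    (fun m => {je65 β K' m} ∪ sh65 (m + 1) '' RK β K' 0 L') L
    (fun m _ => DepOn.comap65 _ (Conn.dep _ _ _))
    (fun m _ => (Set.finite_singleton _).union ((RK_finite β K' 0 L').image _))
    (fun m _ => by
      rw [Set.disjoint_left]
      rintro e he (he' | ⟨⟨a, w, n⟩, he', rfl⟩)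
      · rw [Set.mem_singleton_iff] at he'
        subst he'
        have h1 := reg65_len he
        simp [je65, zw65] at h1
      · have h1 := reg65_len he
        simp only [RK, Set.mem_ofPred_eq] at he'
        simp only [sh65] at h1
        rcases he' with h2 | h2 <;> omega)
    (fun m _ => by
      refine DepOn.inter65 ?_ ((DepOn.comap65 _ (EW65_dep β K' L')).mono65 Set.subset_union_right)
      intro ω ω' hh
      have := hh (je65 β K' m) (Or.inl rfl)
      simp [this])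
    (fun m _ => by
      have h1 : DepOn {je65 β K' m} {ω : Te β → Bool | ω (je65 β K' m) = true} := by
        intro ω ω' hh
        have := hh (je65 β K' m) rfl
        simp [this]
      have h2 : mu (Te β) p {ω : Te β → Bool | ω (je65 β K' m) = true} = ENNReal.ofReal p := by
        have := all_open p ({je65 β K' m} : Finset (Te β))
        simpa using this
      rw [indep_of_dep p (Set.finite_singleton _) ((RK_finite β K' 0 L').image (sh65 (m + 1))) ?_
        h1 (DepOn.comap65 _ (EW65_dep β K' L')), h2,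
        transfer p (RK_finite β K' 0 L') (sh65 (m + 1)) (sh65_inj (m + 1)).injOn
          (EW65_dep β K' L')]
      rw [Set.disjoint_left]
      rintro e he ⟨⟨a, w, n⟩, he', rfl⟩
      rw [Set.mem_singleton_iff] at he
      simp only [sh65, je65, Prod.mk.injEq] at he
      obtain ⟨rfl, rfl, _⟩ := he
      simp [RK, zw65] at he')
  have h0 : mu (Te β) p {ω | ∃ m ≤ L, ω ∈ (fun m => {ω : Te β → Bool |
      (fun e => ω (phi65 β K' e)) ∈
        {ω | Conn ta tc (RK β K 0 L) ω (zw65 β K, 0) ([], m)}}) m} = mu (Te β) p (EW65 β K L) := by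
    rw [← transfer p (RK_finite β K 0 L) (phi65 β K') (phi65_inj β K').injOn (EW65_dep β K L)]
    rfl
  rw [h0] at key
  refine key.trans (measure_mono ?_)
  rintro ω ⟨m, hm, h1, h5, m', hm', h2⟩
  refine ⟨m' + (m + 1), by omega, by omega, ?_⟩
  have h3 := phi65_conn (N := L + 1 + L') (by omega) hK' h1
  have h4 := sh65_conn (K := K) (N := L + 1 + L') (by omega) h2
  refine h3.trans (Conn.trans ?_ h4)
  have h6 : je65 β K' m ∈ RK β (K + K') 0 (L + 1 + L') := by
    left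
    refine ⟨rfl, ?_, ?_, ?_, ?_⟩ <;> simp only [je65, zw65, List.length_replicate] <;> omega
  have h7 := Conn.edge (a := ta) (c := tc) h6 h5
  simpa [je65, ta, tc] using h7

theorem WK65_pow (p : unitInterval) (K L j : ℕ) (hK : 1 ≤ K) :
    (WK β K L p) ^ (j + 1) ≤ WK β ((j + 1) * K) ((j + 1) * L) p := by
  induction j with
  | zero => simp
  | succ j ih =>
    have h := concat65 (β := β) p K L ((j + 1) * K) ((j + 1) * L) (by nlinarith)
    have h' := ENNReal.toReal_mono (measure_ne_top _ _) h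
    rw [ENNReal.toReal_mul, ← WK65_eq, ← WK65_eq, ← WK65_eq] at h'
    have e1 : K + (j + 1) * K = (j + 1 + 1) * K := by ring
    have e2 : L + (j + 1) * L = (j + 1 + 1) * L := by ring
    rw [e1, e2] at h'
    refine le_trans ?_ h'
    rw [pow_succ']
    gcongr
    exact ENNReal.toReal_nonneg

theorem stepC (β : ℕ) (p : unitInterval) (hp : 0 < p) (h : SupB β p) : SupC β p := by
  obtain ⟨K, L, hK, hc⟩ := h
  set c := WK β K L p with hcdef
  have hc0 : 0 ≤ c := ENNReal.toReal_nonneg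
  have hp0 : (0 : ℝ) < p := hp
  -- the lower bound for the union
  have hmain : ∀ j : ℕ, 1 ≤ j → (p : ℝ) * c ^ (j + 1) ≤
      (mu (Te β) p {ω | ∃ m, 1 ≤ m ∧ m ≤ (j + 1) * L + 1 ∧
        Conn ta tc (RK β ((j + 1) * K) 0 ((j + 1) * L + 1)) ω
          (zw65 β ((j + 1) * K), 0) ([], m)}).toReal := by
    intro j hj
    obtain ⟨i, rfl⟩ : ∃ i, j = i + 1 := ⟨j - 1, by omega⟩
    have h1 := concatv65 (β := β) p K L ((i + 1) * K) ((i + 1) * L) (by nlinarith) hK
    have h2 := ENNReal.toReal_mono (measure_ne_top _ _) h1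
    rw [ENNReal.toReal_mul, ENNReal.toReal_mul, ← WK65_eq, ← WK65_eq,
      ENNReal.toReal_ofReal p.2.1] at h2
    have e1 : K + (i + 1) * K = (i + 1 + 1) * K := by ring
    have e2 : L + 1 + (i + 1) * L = (i + 1 + 1) * L + 1 := by ring
    rw [e1, e2] at h2
    refine le_trans ?_ h2
    have h3 := WK65_pow (β := β) p K L i hK
    rw [← hcdef] at h3 ⊢
    calc (p : ℝ) * c ^ (i + 1 + 1) = c * (p * c ^ (i + 1)) := by ring
      _ ≤ _ := by gcongr
  -- pigeonhole
  have hpig : ∀ j : ℕ, 1 ≤ j → ∃ m, 1 ≤ m ∧ m ≤ (j + 1) * L + 1 ∧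
      (p : ℝ) * c ^ (j + 1) / (((j + 1) * L + 1 : ℕ) : ℝ) ≤
        VK β ((j + 1) * K) ((j + 1) * L + 1) m p := by
    intro j hj
    by_contra hcon
    push Not at hcon
    set R := (j + 1) * L + 1 with hR
    have hRpos : (0 : ℝ) < (R : ℝ) := by
      rw [hR]; positivity
    have hunion : {ω : Te β → Bool | ∃ m, 1 ≤ m ∧ m ≤ R ∧
        Conn ta tc (RK β ((j + 1) * K) 0 R) ω (zw65 β ((j + 1) * K), 0) ([], m)} =
        ⋃ m ∈ Finset.Icc 1 R, {ω | Conn ta tc (RK β ((j + 1) * K) 0 R) ω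
          (List.replicate ((j + 1) * K) 0, 0) ([], m)} := by
      ext ω
      simp only [Set.mem_ofPred_eq, Finset.mem_Icc, Set.mem_iUnion, exists_prop, and_assoc]
    have h1 := hmain j hj
    rw [hunion] at h1
    have h2 : (mu (Te β) p (⋃ m ∈ Finset.Icc 1 R, {ω | Conn ta tc (RK β ((j + 1) * K) 0 R) ω
          (List.replicate ((j + 1) * K) 0, 0) ([], m)})).toReal ≤
        ∑ m ∈ Finset.Icc 1 R, VK β ((j + 1) * K) R m p := by
      refine (ENNReal.toReal_mono ?_ (measure_biUnion_finset_le _ _)).trans ?_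
      · exact ENNReal.sum_ne_top.2 (fun _ _ => measure_ne_top _ _)
      · rw [ENNReal.toReal_sum (fun _ _ => measure_ne_top _ _)]
        rfl
    have h3 : ∑ m ∈ Finset.Icc 1 R, VK β ((j + 1) * K) R m p <
        ∑ m ∈ Finset.Icc 1 R, (p : ℝ) * c ^ (j + 1) / (R : ℝ) := by
      apply Finset.sum_lt_sum_of_nonempty
      · exact ⟨1, by simp [hR]⟩
      · intro m hm
        rw [Finset.mem_Icc] at hm
        exact hcon m hm.1 hm.2
    rw [Finset.sum_const, Nat.card_Icc, Nat.add_sub_cancel, nsmul_eq_mul,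
      mul_div_cancel₀ _ hRpos.ne'] at h3
    linarith
  -- choice of j
  set x : ℝ := ((β : ℝ) + 2) ^ K * c ^ 2 with hx
  have hx1 : 1 < x := hc
  have hlim : ∃ j : ℕ, 1 ≤ j ∧ (((j + 1) * L + 1 : ℕ) : ℝ) ^ 2 / (p : ℝ) ^ 2 < x ^ (j + 1) := by
    have ht : Filter.Tendsto (fun n : ℕ => (n : ℝ) ^ 2 / x ^ n) Filter.atTop (nhds 0) :=
      tendsto_pow_const_div_const_pow_of_one_lt 2 hx1
    have hev := (ht.eventually (gt_mem_nhds (show (0 : ℝ) < (p : ℝ) ^ 2 / ((L : ℝ) + 1) ^ 2 by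
      positivity))).and (Filter.eventually_ge_atTop 2)
    obtain ⟨n, hn1, hn2⟩ := hev.exists
    refine ⟨n - 1, by omega, ?_⟩
    have hn3 : n - 1 + 1 = n := by omega
    rw [hn3]
    have hxn : 0 < x ^ n := by positivity
    rw [div_lt_div_iff₀ hxn (by positivity)] at hn1
    rw [div_lt_iff₀ (by positivity)]
    have h4 : ((n * L + 1 : ℕ) : ℝ) ≤ (n : ℝ) * ((L : ℝ) + 1) := by
      push_cast
      have : (1 : ℝ) ≤ n := by exact_mod_cast (by omega : 1 ≤ n)
      nlinarith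
    calc ((n * L + 1 : ℕ) : ℝ) ^ 2 ≤ ((n : ℝ) * ((L : ℝ) + 1)) ^ 2 := by gcongr
      _ = (n : ℝ) ^ 2 * ((L : ℝ) + 1) ^ 2 := by ring
      _ < (p : ℝ) ^ 2 * x ^ n := hn1
      _ = x ^ n * (p : ℝ) ^ 2 := by ring
  obtain ⟨j, hj, hjx⟩ := hlim
  obtain ⟨m, hm1, hm2, hm3⟩ := hpig j hj
  refine ⟨(j + 1) * K, m, (j + 1) * L + 1, by nlinarith, hm1, hm2, ?_⟩
  set R := (j + 1) * L + 1 with hR
  have hRpos : (0 : ℝ) < (R : ℝ) := by
    rw [hR]; positivity
  have h5 : (0 : ℝ) ≤ (p : ℝ) * c ^ (j + 1) / (R : ℝ) := by positivity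
  calc (1 : ℝ) < x ^ (j + 1) * (p : ℝ) ^ 2 / (R : ℝ) ^ 2 := by
        rw [div_lt_iff₀ (by positivity)] at hjx
        rw [one_lt_div (by positivity)]
        exact hjx
    _ = ((β : ℝ) + 2) ^ ((j + 1) * K) * ((p : ℝ) * c ^ (j + 1) / (R : ℝ)) ^ 2 := by
        rw [hx, mul_pow, ← pow_mul, ← pow_mul, div_pow, mul_pow, ← pow_mul, mul_comm K (j + 1),
          mul_comm 2 (j + 1)]
        ring
    _ ≤ _ := by gcongr

end Pool.Agent.MP44
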