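import Pool.Agent.Work.MP_44e654_pr.Base
import Pool.Agent.Work.MP_44e654_pr.Prob

/-! MP_44e654_pr, step D: the return recursion for vertical connections (helper61). -/

set_option autoImplicit false

namespace Pool.Agent.MP44

open MeasureTheory

/-! ### relabelling of words -/

section words
variable {β : ℕ}

/-- relabelling: the letter at distance `l` from the root is changed by the transposition
`(0 (f l))` -/
def sg (f : ℕ → Fin (β + 2)) : List (Fin (β + 2)) → List (Fin (β + 2))
  | [] => []
  | a :: t => Equiv.swap 0 (f t.length) a :: sg f t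

/-- the word with the letters `f l` -/
def wd (f : ℕ → Fin (β + 2)) : ℕ → List (Fin (β + 2))
  | 0 => []
  | K + 1 => f K :: wd f K

theorem sg_nil (f : ℕ → Fin (β + 2)) : sg f [] = [] := rfl

theorem sg_length (f : ℕ → Fin (β + 2)) (w : List (Fin (β + 2))) :
    (sg f w).length = w.length := by
  induction w with
  | nil => rfl
  | cons a t ih => simp [sg, ih]

theorem sg_tail (f : ℕ → Fin (β + 2)) (w : List (Fin (β + 2))) : (sg f w).tail = sg f w.tail := by
  cases w with
  | nil => rfl
  | cons a t => rfl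

theorem sg_inj (f : ℕ → Fin (β + 2)) : Function.Injective (sg f) := by
  intro w
  induction w with
  | nil =>
    intro w' h
    have := congrArg List.length h
    rw [sg_length, sg_length] at this
    exact (List.length_eq_zero_iff.mp this.symm).symm
  | cons a t ih =>
    intro w' h
    cases w' with
    | nil => simp [sg] at h
    | cons a' t' =>
      simp only [sg, List.cons.injEq] at h
      have h2 := ih h.2
      subst h2
      have h1 := (Equiv.swap 0 (f t.length)).injective h.1
      rw [h1]

theorem sg_replicate (f : ℕ → Fin (β + 2)) (K : ℕ) : sg f (List.replicate K 0) = wd f K := by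
  induction K with
  | zero => rfl
  | succ K ih =>
    rw [List.replicate_succ, sg, ih, wd, List.length_replicate, Equiv.swap_apply_left]

theorem wd_congr {f g : ℕ → Fin (β + 2)} {K : ℕ} (h : ∀ l < K, f l = g l) : wd f K = wd g K := by
  induction K with
  | zero => rfl
  | succ K ih =>
    rw [wd, wd, h K (Nat.lt_succ_self K), ih (fun l hl => h l (Nat.lt_succ_of_lt hl))]

theorem wd_reverse (y : List (Fin (β + 2))) : wd (fun l => y.reverse.getD l 0) y.length = y := by
  induction y with
  | nil => rfl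
  | cons a t ih =>
    rw [List.length_cons, wd]
    congr 1
    · simp
    · conv_rhs => rw [← ih]
      refine wd_congr (fun l hl => ?_)
      simp only [List.reverse_cons]
      rw [List.getD_append _ _ _ _ (by simpa using hl)]

end words

/-! ### the events -/

section events
variable {β : ℕ}

theorem conn_fwd {K R m H : ℕ} (p : unitInterval) (hH : R + m ≤ H) (y : List (Fin (β + 2)))
    (hy : y.length = K) :
    VK β K R m p ≤
      (mu (Te β) p {ω | Conn ta tc (RK β K 0 H) ω ([], R) (y, R + m)}).toReal := by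
  set f : ℕ → Fin (β + 2) := fun l => y.reverse.getD l 0 with hf
  have hfy : sg f (List.replicate K 0) = y := by
    rw [sg_replicate, ← hy, hf, wd_reverse]
  set φ : Te β → Te β := fun e =>
    (e.1, sg f e.2.1, if e.1 then R + m - e.2.2 - 1 else R + m - e.2.2) with hφ
  set ψ : Tv β → Tv β := fun v => (sg f v.1, R + m - v.2) with hψ
  have hinj : Set.InjOn φ (RK β K 0 R) := by
    rintro ⟨t, w, h⟩ he ⟨t', w', h'⟩ he' heq
    simp only [hφ, Prod.mk.injEq] at heq
    obtain ⟨rfl, h2, h3⟩ := heq
    have hw := sg_inj f h2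
    subst hw
    cases t with
    | true =>
      simp only [RK, Set.mem_ofPred_eq, Bool.true_eq_false, false_and, or_false, true_and] at he he'
      simp only [if_true] at h3
      have : h = h' := by omega
      rw [this]
    | false =>
      simp only [RK, Set.mem_ofPred_eq, Bool.false_eq_true, false_and, false_or, true_and] at he he'
      simp only [Bool.false_eq_true, if_false] at h3
      have : h = h' := by omega
      rw [this]
  have htr := transfer p (RK_finite β K 0 R) φ hinj
    (Conn.dep (a := ta) (c := tc) (RK β K 0 R) (List.replicate K 0, 0) ([], m))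
  rw [VK, ← htr]
  refine ENNReal.toReal_mono (measure_ne_top _ _) (measure_mono ?_)
  intro ω hω
  have := Conn.map (a' := ta) (c' := tc) (S' := RK β K 0 H) (ω := ω) φ ψ ?_ ?_ hω
  · have h2 := this.symm
    simp only [hψ, sg_nil, hfy, Nat.sub_zero, Nat.add_sub_cancel] at h2
    exact h2
  · rintro ⟨t, w, h⟩ he
    cases t with
    | true =>
      simp only [RK, Set.mem_ofPred_eq, Bool.true_eq_false, false_and, or_false, true_and, hφ,
        sg_length, if_true] at he ⊢
      refine ⟨he.1, he.2.1, by omega, by omega⟩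
    | false =>
      simp only [RK, Set.mem_ofPred_eq, Bool.false_eq_true, false_and, false_or, true_and, hφ,
        sg_length, if_false] at he ⊢
      refine ⟨he.1, he.2.1, by omega, by omega⟩
  · rintro ⟨t, w, h⟩ he
    cases t with
    | true =>
      simp only [RK, Set.mem_ofPred_eq, Bool.true_eq_false, false_and, or_false, true_and] at he
      right
      simp only [hφ, hψ, ta, tc, if_true, Prod.mk.injEq, true_and]
      omega
    | false =>
      left
      simp only [hφ, hψ, ta, tc, Bool.false_eq_true, if_false, sg_tail, and_self]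

theorem conn_ret {K R m H a : ℕ} (p : unitInterval) (hH : a + R ≤ H) (y : List (Fin (β + 2)))
    (hy : y.length = K) :
    VK β K R m p ≤
      (mu (Te β) p {ω | Conn ta tc (RK β K 0 H) ω (y, a) ([], a + m)}).toReal := by
  set f : ℕ → Fin (β + 2) := fun l => y.reverse.getD l 0 with hf
  have hfy : sg f (List.replicate K 0) = y := by
    rw [sg_replicate, ← hy, hf, wd_reverse]
  set φ : Te β → Te β := fun e => (e.1, sg f e.2.1, a + e.2.2) with hφ
  set ψ : Tv β → Tv β := fun v => (sg f v.1, a + v.2) with hψ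
  have hinj : Set.InjOn φ (RK β K 0 R) := by
    rintro ⟨t, w, h⟩ he ⟨t', w', h'⟩ he' heq
    simp only [hφ, Prod.mk.injEq, add_right_inj] at heq
    obtain ⟨rfl, h2, rfl⟩ := heq
    rw [sg_inj f h2]
  have htr := transfer p (RK_finite β K 0 R) φ hinj
    (Conn.dep (a := ta) (c := tc) (RK β K 0 R) (List.replicate K 0, 0) ([], m))
  rw [VK, ← htr]
  refine ENNReal.toReal_mono (measure_ne_top _ _) (measure_mono ?_)
  intro ω hω
  have := Conn.map (a' := ta) (c' := tc) (S' := RK β K 0 H) (ω := ω) φ ψ ?_ ?_ hω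
  · simp only [hψ, sg_nil, hfy, Nat.add_zero] at this
    exact this
  · rintro ⟨t, w, h⟩ he
    simp only [RK, Set.mem_ofPred_eq, hφ, sg_length] at he ⊢
    rcases he with he | he
    · left
      refine ⟨he.1, he.2.1, he.2.2.1, by omega, by omega⟩
    · right
      refine ⟨he.1, he.2.1, he.2.2.1, by omega, by omega⟩
  · rintro ⟨t, w, h⟩ he
    left
    cases t with
    | true => simp only [hφ, hψ, ta, tc, if_true, and_self, add_assoc]
    | false =>
      simp only [hφ, hψ, ta, tc, Bool.false_eq_true, if_false, sg_tail, and_self]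

/-- the map onto the subtree below `y`, shifted in height by `m` -/
def sb (y : List (Fin (β + 2))) (m : ℕ) (e : Te β) : Te β := (e.1, e.2.1 ++ y, e.2.2 + m)

theorem sb_inj (y : List (Fin (β + 2))) (m : ℕ) : Function.Injective (sb (β := β) y m) := by
  rintro ⟨t, w, h⟩ ⟨t', w', h'⟩ heq
  simp only [sb, Prod.mk.injEq, List.append_cancel_right_eq, add_left_inj] at heq
  obtain ⟨rfl, rfl, rfl⟩ := heq
  rfl

/-- the event that the shifted copy below `y` is connected -/
def Sev (β : ℕ) (y : List (Fin (β + 2))) (m R D k n : ℕ) : Set (Te β → Bool) :=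
  {ω | Conn ta tc (TK β k 0 (n * D + 2 * R)) (fun e => ω (sb y m e)) ([], R) ([], R + n * D)}

theorem Sev_prob (p : unitInterval) (y : List (Fin (β + 2))) (m R D k n : ℕ) :
    (mu (Te β) p (Sev β y m R D k n)).toReal = QK β D R k n p := by
  rw [QK, ← transfer p (TK_finite β k 0 (n * D + 2 * R)) (sb y m) ((sb_inj y m).injOn)
    (Conn.dep (a := ta) (c := tc) (TK β k 0 (n * D + 2 * R)) ([], R) ([], R + n * D))]
  rfl

theorem Sev_dep (y : List (Fin (β + 2))) (m R D k n : ℕ) :
    DepOn (sb y m '' TK β k 0 (n * D + 2 * R)) (Sev β y m R D k n) := by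
  intro ω ω' h
  exact Conn.dep (a := ta) (c := tc) (TK β k 0 (n * D + 2 * R)) ([], R) ([], R + n * D) _ _
    (fun e he => h _ ⟨e, he, rfl⟩)

theorem Sev_conn {K m R D k n H : ℕ} (y : List (Fin (β + 2))) (hy : y.length = K)
    (hH : n * D + 2 * R + m ≤ H) {ω : Te β → Bool} (hω : ω ∈ Sev β y m R D k n) :
    Conn ta tc (TK β (k + K) 0 H) ω (y, R + m) (y, R + n * D + m) := by
  have := Conn.map (a' := ta) (c' := tc) (S' := TK β (k + K) 0 H) (ω := ω) (sb y m)
    (fun v => (v.1 ++ y, v.2 + m)) ?_ ?_ hω
  · simpa only [List.nil_append] using this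
  · rintro ⟨t, w, h⟩ he
    simp only [TK, Set.mem_ofPred_eq, sb, List.length_append, hy] at he ⊢
    rcases he with he | he
    · left
      refine ⟨he.1, by omega, by omega, by omega⟩
    · right
      refine ⟨he.1, by omega, by omega, by omega, by omega⟩
  · rintro ⟨t, w, h⟩ he
    left
    cases t with
    | true => simp only [sb, ta, tc, if_true, and_self, add_right_comm]
    | false =>
      simp only [TK, Set.mem_ofPred_eq, Bool.false_eq_true, false_and, false_or, true_and] at he
      have hw : w ≠ [] := by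
        rintro rfl
        simp at he
      simp only [sb, ta, tc, Bool.false_eq_true, if_false, true_and, Prod.mk.injEq, and_true]
      exact List.tail_append_of_ne_nil hw

theorem Sev_disj {K m k L : ℕ} {y y' : List (Fin (β + 2))} (hy : y.length = K)
    (hy' : y'.length = K) (hne : y ≠ y') :
    Disjoint (sb y m '' TK β k 0 L) (sb y' m '' TK β k 0 L) := by
  rw [Set.disjoint_left]
  rintro e ⟨⟨t, w, h⟩, _, rfl⟩ ⟨⟨t', w', h'⟩, _, heq⟩
  simp only [sb, Prod.mk.injEq] at heq
  exact hne (List.append_inj_right' heq.2.1 (by rw [hy, hy'])).symm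

theorem Sev_disj_RK {K m k L H : ℕ} {y : List (Fin (β + 2))} (hy : y.length = K) :
    Disjoint (RK β K 0 H) (sb y m '' TK β k 0 L) := by
  rw [Set.disjoint_left]
  rintro e he ⟨⟨t, w, h⟩, he', rfl⟩
  simp only [TK, RK, Set.mem_ofPred_eq, sb, List.length_append, hy] at he he'
  rcases he with he | he
  · omega
  · rcases he' with he' | he'
    · rw [he.1] at he'
      exact absurd he'.1 (by simp)
    · omega

theorem RK_sub_TK {K k H : ℕ} : RK β K 0 H ⊆ TK β (k + K) 0 H := by
  rintro ⟨t, w, h⟩ he
  simp only [TK, RK, Set.mem_ofPred_eq] at he ⊢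
  rcases he with he | he
  · left; refine ⟨he.1, by omega, by omega, by omega⟩
  · right; refine ⟨he.1, by omega, by omega, by omega, by omega⟩

end events

/-- Bonferroni inequality. -/
theorem bonf {Ω ι : Type} [MeasurableSpace Ω] (μ : Measure Ω) [IsProbabilityMeasure μ]
    (s : Finset ι) (B : ι → Set Ω) (hB : ∀ i, MeasurableSet (B i)) (c t : ℝ) (ht : 0 ≤ t)
    (h1 : ∀ i, c ≤ (μ (B i)).toReal)
    (h2 : ∀ i j, i ≠ j → (μ (B i ∩ B j)).toReal ≤ t) :
    s.card * c - (s.card : ℝ) ^ 2 * t ≤ (μ (⋃ i ∈ s, B i)).toReal := by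
  classical
  induction s using Finset.induction_on with
  | empty => simp
  | insert a s ha ih =>
    rw [Finset.card_insert_of_notMem ha, Finset.set_biUnion_insert]
    have hm : MeasurableSet (⋃ i ∈ s, B i) := Finset.measurableSet_biUnion _ (fun i _ => hB i)
    have h3 := measureReal_union_add_inter (μ := μ) (s := B a) hm (measure_ne_top _ _)
      (measure_ne_top _ _)
    have h4 : μ.real (B a ∩ ⋃ i ∈ s, B i) ≤ s.card * t := by
      rw [Set.inter_iUnion₂]
      refine (measureReal_biUnion_finset_le _ _).trans ?_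
      refine (Finset.sum_le_card_nsmul _ _ t (fun i hi => ?_)).trans (by simp)
      exact h2 a i (fun h => ha (h ▸ hi))
    have h5 := h1 a
    change _ ≤ μ.real _
    change _ ≤ μ.real _ at ih
    change _ ≤ μ.real _ at h5
    push_cast
    nlinarith [mul_nonneg (Nat.cast_nonneg (α := ℝ) s.card) ht]

theorem stepD (β : ℕ) (p : unitInterval) (h : SupC β p) : SupD β p := by
  obtain ⟨K, m, R, hK, hm, hmR, hρ⟩ := h
  set v := VK β K R m p with hv
  have hv0 : 0 ≤ v := ENNReal.toReal_nonneg
  have hv1 : v ≤ 1 := by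
    rw [hv, VK]
    exact ENNReal.toReal_le_of_le_ofReal zero_le_one (by simpa using prob_le_one)
  set N : ℝ := ((β : ℝ) + 2) ^ K with hN
  have hN1 : 1 ≤ N := one_le_pow₀ (by linarith [Nat.cast_nonneg (α := ℝ) β])
  set ρ := N * v ^ 2 with hρd
  have hvp : 0 < v := by
    rcases hv0.lt_or_eq with h | h
    · exact h
    · exfalso
      rw [← h] at hρd
      rw [hρd] at hρ
      norm_num at hρ
  set q0 : ℝ := (ρ - 1) / (2 * N ^ 2) with hq0
  have hq0p : 0 < q0 := by
    apply div_pos (by linarith) (by positivity)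
  have hq01 : q0 ≤ 1 := by
    rw [hq0, div_le_one (by positivity)]
    nlinarith [mul_le_mul hv1 hv1 hv0 zero_le_one]
  refine ⟨K, 2 * m, R, v ^ 2 * q0, (1 + ρ) / 2, hK, by omega, by positivity, ?_, by linarith, ?_⟩
  · nlinarith [mul_le_mul hv1 hv1 hv0 zero_le_one]
  intro k n
  set x := QK β (2 * m) R (k * K) n p with hx
  have hx0 : 0 ≤ x := ENNReal.toReal_nonneg
  set H := (n + 1) * (2 * m) + 2 * R with hH
  set μ := mu (Te β) p with hμ
  -- the events
  set F : List.Vector (Fin (β + 2)) K → Set (Te β → Bool) := fun y =>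
    {ω | Conn ta tc (RK β K 0 H) ω ([], R) (y.1, R + m)} with hF
  set G : List.Vector (Fin (β + 2)) K → Set (Te β → Bool) := fun y =>
    {ω | Conn ta tc (RK β K 0 H) ω (y.1, R + n * (2 * m) + m) ([], R + n * (2 * m) + m + m)}
    with hG
  set S : List.Vector (Fin (β + 2)) K → Set (Te β → Bool) := fun y =>
    Sev β y.1 m R (2 * m) (k * K) n with hS
  have hHe : H = n * (2 * m) + 2 * m + 2 * R := by rw [hH]; ring
  have hFv : ∀ y, v ≤ (μ (F y)).toReal := fun y =>
    conn_fwd p (by omega) y.1 y.2
  have hGv : ∀ y, v ≤ (μ (G y)).toReal := fun y =>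
    conn_ret p (by omega) y.1 y.2
  have hFG : ∀ y, v ^ 2 ≤ (μ (F y ∩ G y)).toReal := by
    intro y
    have h1 := harris p (RK_finite β K 0 H) (Conn.dep (a := ta) (c := tc) (RK β K 0 H) ([], R) (y.1, R + m))
      (Conn.dep (a := ta) (c := tc) (RK β K 0 H) (y.1, R + n * (2 * m) + m)
        ([], R + n * (2 * m) + m + m)) (Conn.incr _ _ _) (Conn.incr _ _ _)
    have h2 := ENNReal.toReal_mono (measure_ne_top _ _) h1
    rw [ENNReal.toReal_mul] at h2
    refine le_trans ?_ h2
    rw [sq]
    exact mul_le_mul (hFv y) (hGv y) hv0 ENNReal.toReal_nonneg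
  have hFGdep : ∀ y, DepOn (RK β K 0 H) (F y ∩ G y) := by
    intro y ω ω' h
    exact and_congr (Conn.dep (a := ta) (c := tc) _ _ _ ω ω' h)
      (Conn.dep (a := ta) (c := tc) _ _ _ ω ω' h)
  have hSfin : ∀ y : List.Vector (Fin (β + 2)) K,
      (sb y.1 m '' TK β (k * K) 0 (n * (2 * m) + 2 * R)).Finite :=
    fun y => (TK_finite _ _ _ _).image _
  have hSdep : ∀ y, DepOn (sb y.1 m '' TK β (k * K) 0 (n * (2 * m) + 2 * R)) (S y) :=
    fun y => Sev_dep _ _ _ _ _ _
  have hSp : ∀ y, (μ (S y)).toReal = x := fun y => Sev_prob p _ _ _ _ _ _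
  set B : List.Vector (Fin (β + 2)) K → Set (Te β → Bool) := fun y => (F y ∩ G y) ∩ S y with hB
  have hBm : ∀ y, MeasurableSet (B y) := fun y =>
    (meas_of_dep (RK_finite β K 0 H) (hFGdep y)).inter (meas_of_dep (hSfin y) (hSdep y))
  have hBp : ∀ y, v ^ 2 * x ≤ (μ (B y)).toReal := by
    intro y
    rw [hB]
    simp only
    rw [indep_of_dep p (RK_finite β K 0 H) (hSfin y) (Sev_disj_RK y.2) (hFGdep y) (hSdep y),
      ENNReal.toReal_mul, hSp y]
    exact mul_le_mul_of_nonneg_right (hFG y) hx0
  have hBB : ∀ y y', y ≠ y' → (μ (B y ∩ B y')).toReal ≤ x ^ 2 := by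
    intro y y' hne
    have h1 : (μ (B y ∩ B y')).toReal ≤ (μ (S y ∩ S y')).toReal :=
      ENNReal.toReal_mono (measure_ne_top _ _)
        (measure_mono (fun ω hω => ⟨hω.1.2, hω.2.2⟩))
    refine h1.trans ?_
    rw [indep_of_dep p (hSfin y) (hSfin y')
      (Sev_disj y.2 y'.2 (fun h => hne (Subtype.ext h))) (hSdep y) (hSdep y'),
      ENNReal.toReal_mul, hSp y, hSp y', sq]
  have hbon := bonf μ Finset.univ B hBm (v ^ 2 * x) (x ^ 2) (sq_nonneg x) hBp hBB
  have hcard : ((Finset.univ : Finset (List.Vector (Fin (β + 2)) K)).card : ℝ) = N := by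
    rw [Finset.card_univ, card_vector, Fintype.card_fin, hN]
    push_cast
    rfl
  rw [hcard] at hbon
  -- inclusion in the target event
  have hsub : ∀ y, B y ⊆ {ω | Conn ta tc (TK β ((k + 1) * K) 0 ((n + 1) * (2 * m) + 2 * R)) ω
      ([], R) ([], R + (n + 1) * (2 * m))} := by
    rintro y ω ⟨⟨h1, h2⟩, h3⟩
    have hk : (k + 1) * K = k * K + K := by ring
    rw [← hH, hk]
    have h1' := Conn.mono_set (RK_sub_TK (k := k * K)) h1
    have h2' := Conn.mono_set (RK_sub_TK (k := k * K)) h2
    have h3' := Sev_conn (H := H) y.1 y.2 (by omega) h3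
    have h4 := (h1'.trans h3').trans h2'
    have h5 : R + n * (2 * m) + m + m = R + (n + 1) * (2 * m) := by ring
    rw [h5] at h4
    exact h4
  have hQ1 : (μ (⋃ y ∈ (Finset.univ : Finset (List.Vector (Fin (β + 2)) K)), B y)).toReal ≤
      QK β (2 * m) R ((k + 1) * K) (n + 1) p := by
    refine ENNReal.toReal_mono (measure_ne_top _ _) (measure_mono ?_)
    exact Set.iUnion₂_subset (fun y _ => hsub y)
  have hQ2 : v ^ 2 * x ≤ QK β (2 * m) R ((k + 1) * K) (n + 1) p := by
    let y0 : List.Vector (Fin (β + 2)) K := List.Vector.replicate K 0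
    exact (hBp y0).trans (ENNReal.toReal_mono (measure_ne_top _ _) (measure_mono (hsub y0)))
  rcases le_or_gt x q0 with hxq | hxq
  · refine (min_le_right _ _).trans (le_trans ?_ (hbon.trans hQ1))
    have h1 : N ^ 2 * x ≤ (ρ - 1) / 2 := by
      have := mul_le_mul_of_nonneg_left hxq (by positivity : (0:ℝ) ≤ N ^ 2)
      refine this.trans (le_of_eq ?_)
      rw [hq0]
      field_simp
    nlinarith [mul_le_mul_of_nonneg_right h1 hx0]
  · refine (min_le_left _ _).trans (le_trans ?_ hQ2)
    exact mul_le_mul_of_nonneg_left hxq.le (sq_nonneg v)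

end Pool.Agent.MP44
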