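import Mathlib
import Pool.Agent.Work.MP_44e654_pr.Base
import Pool.Agent.Work.MP_44e654_pr.Prob

/-! Step D2 for MP_44e654_pr (helper41). -/

set_option autoImplicit false

namespace Pool.Agent.MP44

open MeasureTheory

theorem QK_nonneg (β D R k n : ℕ) (p : unitInterval) : 0 ≤ QK β D R k n p :=
  ENNReal.toReal_nonneg

theorem QK_zero (β D R k : ℕ) (p : unitInterval) : QK β D R k 0 p = 1 := by
  unfold QK
  have : {ω : Te β → Bool | Conn ta tc (TK β k 0 (0 * D + 2 * R)) ω ([], R) ([], R + 0 * D)} =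
      Set.univ := by
    ext ω
    simp only [Set.mem_ofPred_eq, Set.mem_univ, iff_true]
    rw [zero_mul, add_zero]
    exact Conn.refl _ _ _
  rw [this, mu_univ]
  rfl

theorem TK_mono_depth (β : ℕ) {k k' : ℕ} (h : k ≤ k') (h1 h2 : ℕ) :
    TK β k h1 h2 ⊆ TK β k' h1 h2 := by
  rintro e (⟨ha, hb, hc⟩ | ⟨ha, hb, hc, hd⟩)
  · exact Or.inl ⟨ha, by omega, hc⟩
  · exact Or.inr ⟨ha, hb, by omega, hd⟩

theorem QK_mono (β D R : ℕ) {k k' : ℕ} (h : k ≤ k') (n : ℕ) (p : unitInterval) :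
    QK β D R k n p ≤ QK β D R k' n p := by
  unfold QK
  exact ENNReal.toReal_mono (measure_ne_top _ _)
    (measure_mono fun ω hω => Conn.mono_set (TK_mono_depth β h _ _) hω)

/-- shift of the heights -/
def shiftH (β s : ℕ) (e : Te β) : Te β := (e.1, e.2.1, e.2.2 + s)

theorem shiftH_inj (β s : ℕ) : Function.Injective (shiftH β s) := by
  rintro ⟨b, w, n⟩ ⟨b', w', n'⟩ h
  simp only [shiftH, Prod.mk.injEq, add_left_inj] at h
  obtain ⟨rfl, rfl, rfl⟩ := h
  rfl

theorem conn_shift (β s k h : ℕ) (ω : Te β → Bool) {u v : Tv β}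
    (hc : Conn ta tc (TK β k 0 h) (fun e => ω (shiftH β s e)) u v) :
    Conn ta tc (TK β k s (h + s)) ω (u.1, u.2 + s) (v.1, v.2 + s) := by
  refine Conn.map (shiftH β s) (fun u : Tv β => (u.1, u.2 + s)) ?_ ?_ hc
  · rintro ⟨b, w, n⟩ (⟨ha, hb, hc', hd⟩ | ⟨ha, hb, hc', hd, he⟩)
    · exact Or.inl ⟨ha, hb, by simp [shiftH], by simpa [shiftH] using hd⟩
    · exact Or.inr ⟨ha, hb, hc', by simp [shiftH], by simpa [shiftH] using he⟩
  · rintro ⟨b, w, n⟩ _
    left
    refine ⟨rfl, ?_⟩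
    cases b
    · simp [tc, shiftH]
    · simp [tc, shiftH]; omega

theorem QK_add (β D R k n1 n2 : ℕ) (p : unitInterval) :
    QK β D R k n1 p * QK β D R k n2 p ≤ QK β D R k (n1 + n2) p := by
  set F := TK β k 0 ((n1 + n2) * D + 2 * R) with hF
  set A : Set (Te β → Bool) :=
    {ω | Conn ta tc (TK β k 0 (n1 * D + 2 * R)) ω ([], R) ([], R + n1 * D)} with hA
  set B0 : Set (Te β → Bool) :=
    {ω | Conn ta tc (TK β k 0 (n2 * D + 2 * R)) ω ([], R) ([], R + n2 * D)} with hB0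
  set B : Set (Te β → Bool) := {ω | (fun e => ω (shiftH β (n1 * D) e)) ∈ B0} with hB
  have hsub1 : TK β k 0 (n1 * D + 2 * R) ⊆ F := by
    have hle : n1 * D ≤ (n1 + n2) * D := Nat.mul_le_mul_right _ (by omega)
    rintro e (⟨ha, hb, hc, hd⟩ | ⟨ha, hb, hc, hd, he⟩)
    · exact Or.inl ⟨ha, hb, hc, by omega⟩
    · exact Or.inr ⟨ha, hb, hc, hd, by omega⟩
  have hsub2 : shiftH β (n1 * D) '' TK β k 0 (n2 * D + 2 * R) ⊆ F := by
    have heq : (n1 + n2) * D = n1 * D + n2 * D := by ring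
    rintro _ ⟨e, (⟨ha, hb, hc, hd⟩ | ⟨ha, hb, hc, hd, he⟩), rfl⟩
    · refine Or.inl ⟨ha, hb, Nat.zero_le _, ?_⟩
      simp only [shiftH]; omega
    · refine Or.inr ⟨ha, hb, hc, Nat.zero_le _, ?_⟩
      simp only [shiftH]; omega
  have hFfin : F.Finite := TK_finite β k 0 _
  have hAdep : DepOn F A := (Conn.dep _ _ _).mono hsub1
  have hBdep : DepOn F B := ((Conn.dep _ _ _).preimage (shiftH β (n1 * D))).mono hsub2
  have hAinc : Incr A := Conn.incr _ _ _
  have hBinc : Incr B := (Conn.incr _ _ _).preimage _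
  have hBmu : mu (Te β) p B = mu (Te β) p B0 :=
    transfer p (TK_finite β k 0 _) (shiftH β (n1 * D)) (shiftH_inj β _).injOn (Conn.dep _ _ _)
  have hharris := harris_real p hFfin hAdep hBdep hAinc hBinc
  rw [hBmu] at hharris
  refine le_trans hharris ?_
  unfold QK
  refine ENNReal.toReal_mono (measure_ne_top _ _) (measure_mono ?_)
  rintro ω ⟨hω1, hω2⟩
  have h1 : Conn ta tc F ω ([], R) ([], R + n1 * D) := Conn.mono_set hsub1 hω1
  have h2 := conn_shift β (n1 * D) k (n2 * D + 2 * R) ω hω2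
  have hsub3 : TK β k (n1 * D) (n2 * D + 2 * R + n1 * D) ⊆ F := by
    have heq : (n1 + n2) * D = n1 * D + n2 * D := by ring
    rintro e (⟨ha, hb, hc, hd⟩ | ⟨ha, hb, hc, hd, he⟩)
    · exact Or.inl ⟨ha, hb, by omega, by omega⟩
    · exact Or.inr ⟨ha, hb, hc, by omega, by omega⟩
  have h3 := Conn.mono_set hsub3 h2
  have h4 : R + (n1 + n2) * D = R + n2 * D + n1 * D := by ring
  show Conn ta tc F ω ([], R) ([], R + (n1 + n2) * D)
  rw [h4]
  exact h1.trans h3

/-- the arithmetic of step D2 -/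
theorem stepD2_aux (Q : ℕ → ℕ → ℝ) (q g : ℝ) (hq : 0 < q) (hq1 : q ≤ 1) (hg : 1 < g)
    (hQ0 : ∀ k, Q k 0 = 1) (hmono : ∀ k k' n, k ≤ k' → Q k n ≤ Q k' n)
    (hadd : ∀ k n1 n2, Q k n1 * Q k n2 ≤ Q k (n1 + n2))
    (hamp : ∀ k n, min q (g * Q k n) ≤ Q (k + 1) (n + 1)) :
    ∃ i0 : ℕ, 1 ≤ i0 ∧ ∀ r n, n ≤ i0 * 2 ^ r → q ≤ Q (i0 * (r + 1)) n := by
  have hg0 : 0 < g := by linarith
  obtain ⟨j0, hj0⟩ := pow_unbounded_of_one_lt (1 / q) hg
  refine ⟨j0 + 1, by omega, ?_⟩
  set i0 := j0 + 1 with hi0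
  have hgi : 1 ≤ g ^ i0 * q := by
    have h1 : 1 / q < g ^ i0 := lt_of_lt_of_le hj0 (pow_le_pow_right₀ hg.le (by omega))
    have h2 := (div_lt_iff₀ hq).1 h1
    linarith
  -- first claim
  have c1 : ∀ k n, n ≤ k → q ≤ Q k n := by
    intro k
    induction k with
    | zero =>
      intro n hn
      obtain rfl : n = 0 := by omega
      rw [hQ0]; exact hq1
    | succ k ih =>
      intro n hn
      rcases n with _ | n
      · rw [hQ0]; exact hq1
      · refine le_trans ?_ (hamp k n)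
        refine le_min le_rfl ?_
        have h1 := ih n (by omega)
        nlinarith
  -- iterated amplification
  have c2 : ∀ j k m, 0 ≤ Q k m → min q (g ^ j * Q k m) ≤ Q (k + j) (m + j) := by
    intro j
    induction j with
    | zero => intro k m _; simp
    | succ j ih =>
      intro k m hQk
      have h1 := ih k m hQk
      have h2 := hamp (k + j) (m + j)
      refine le_trans ?_ h2
      refine le_min (min_le_left _ _) ?_
      have h3 : g * min q (g ^ j * Q k m) ≤ g * Q (k + j) (m + j) :=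
        mul_le_mul_of_nonneg_left h1 hg0.le
      refine le_trans ?_ h3
      rw [mul_min_of_nonneg _ _ hg0.le]
      refine le_min ?_ ?_
      · refine le_trans (min_le_left _ _) ?_
        nlinarith
      · refine le_trans (min_le_right _ _) (le_of_eq ?_)
        rw [pow_succ]; ring
  -- doubling
  have c3 : ∀ k N, i0 ≤ N → (∀ n ≤ N, q ≤ Q k n) → ∀ n ≤ 2 * N, q ≤ Q (k + i0) n := by
    intro k N hN hk n hn
    by_cases hnN : n ≤ N
    · exact le_trans (hk n hnN) (hmono _ _ _ (by omega))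
    · push Not at hnN
      obtain ⟨m, hm⟩ : ∃ m, n = m + i0 := ⟨n - i0, by omega⟩
      have hm1 : min m N ≤ N := min_le_right _ _
      have hm2 : m - min m N ≤ N := by omega
      have hsum : min m N + (m - min m N) = m := by omega
      have h1 := hadd k (min m N) (m - min m N)
      rw [hsum] at h1
      have h2 : q * q ≤ Q k m :=
        le_trans (mul_le_mul (hk _ hm1) (hk _ hm2) hq.le (le_trans hq.le (hk _ hm1))) h1
      have h3 := c2 i0 k m (le_trans (by positivity) h2)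
      rw [hm]
      refine le_trans ?_ h3
      refine le_min le_rfl ?_
      have h4 : g ^ i0 * (q * q) ≤ g ^ i0 * Q k m :=
        mul_le_mul_of_nonneg_left h2 (by positivity)
      nlinarith
  intro r
  induction r with
  | zero =>
    intro n hn
    have hn' : n ≤ i0 := by simpa using hn
    have h1 := c1 i0 n hn'
    simpa using h1
  | succ r ih =>
    intro n hn
    have h1 := c3 (i0 * (r + 1)) (i0 * 2 ^ r) (by
      have : 1 ≤ 2 ^ r := Nat.one_le_two_pow
      nlinarith) ih n (by rw [pow_succ] at hn; linarith)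
    have h2 : i0 * (r + 1) + i0 = i0 * (r + 1 + 1) := by ring
    rwa [h2] at h1

theorem stepD2 (β : ℕ) (p : unitInterval) (h : SupD β p) : LongR β p := by
  obtain ⟨K, D, R, q, g, hK, hD, hq, hq1, hg, hamp⟩ := h
  obtain ⟨i0, hi0, hmain⟩ := stepD2_aux (fun k n => QK β D R (k * K) n p) q g hq hq1 hg
    (fun k => QK_zero β D R _ p)
    (fun k k' n hkk => QK_mono β D R (Nat.mul_le_mul_right K hkk) n p)
    (fun k n1 n2 => QK_add β D R _ n1 n2 p) hamp
  refine ⟨D, R, K * i0, q, hD, Nat.one_le_iff_ne_zero.2 (by positivity), hq, fun r n hn => ?_⟩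
  have h1 := hmain r n (le_trans hn (by nlinarith [Nat.one_le_two_pow (n := r)]))
  have h2 : K * i0 * (r + 1) = i0 * (r + 1) * K := by ring
  rw [h2]
  exact h1

end Pool.Agent.MP44
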