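import Mathlib
import Pool.Agent.Work.MP_44e654_pr.Base
import Pool.Agent.Work.MP_44e654_pr.Prob
import Pool.Agent.Work.MP_44e654_pr.StepD2

/-! Step E, part 1, for MP_44e654_pr: dense connections through a fresh branch (helper41). -/

set_option autoImplicit false

namespace Pool.Agent.MP44

open MeasureTheory

/-- the vertices of the branch at `(l, 0)` through its second child -/
def br {β : ℕ} (l : ℕ) (w : List (Fin (β + 2))) : ℕ × ℕ :=
  (l - 1 - w.length, Nat.ofDigits (β + 2) (w.map Fin.val) + (β + 2) ^ w.length)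

/-- edges of the branch at `(l, 0)` (including the edge to `(l, 0)`), heights at most `H` -/
def BrS (β l H : ℕ) : Set Ce :=
  {e | ∃ w : List (Fin (β + 2)), w.length ≤ l - 1 ∧ e.2.1 = br l w ∧ e.2.2 ≤ H}

theorem ofDigits_lt {β : ℕ} (w : List (Fin (β + 2))) :
    Nat.ofDigits (β + 2) (w.map Fin.val) < (β + 2) ^ w.length := by
  have h := Nat.ofDigits_lt_base_pow_length (b := β + 2) (l := w.map Fin.val) (by omega) (by
    intro x hx
    rw [List.mem_map] at hx
    obtain ⟨y, _, rfl⟩ := hx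
    exact y.2)
  simpa using h

theorem br_snd_pos {β : ℕ} (l : ℕ) (w : List (Fin (β + 2))) : 0 < (br l w).2 := by
  have : 0 < (β + 2) ^ w.length := by positivity
  simp only [br]; omega

theorem br_snd_lt {β : ℕ} (l : ℕ) (w : List (Fin (β + 2))) :
    (br l w).2 < (β + 2) ^ (w.length + 1) := by
  have h1 := ofDigits_lt w
  have h2 : (β + 2) ^ (w.length + 1) = (β + 2) ^ w.length * (β + 2) := pow_succ _ _
  have h3 : (β + 2) ^ w.length * 2 ≤ (β + 2) ^ w.length * (β + 2) :=
    Nat.mul_le_mul_left _ (by omega)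
  simp only [br]; omega

theorem br_snd_ge {β : ℕ} (l : ℕ) (w : List (Fin (β + 2))) :
    (β + 2) ^ w.length ≤ (br l w).2 := by
  simp only [br]; omega

theorem br_length_eq {β : ℕ} {l l' : ℕ} {w w' : List (Fin (β + 2))}
    (h : (br l w).2 = (br l' w').2) : w.length = w'.length := by
  have hb : 1 < β + 2 := by omega
  by_contra hne
  rcases Nat.lt_or_gt_of_ne hne with hlt | hlt
  · have h1 : (β + 2) ^ (w.length + 1) ≤ (β + 2) ^ w'.length :=
      Nat.pow_le_pow_right (by omega) hlt
    have h2 := br_snd_lt l w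
    have h3 := br_snd_ge l' w'
    omega
  · have h1 : (β + 2) ^ (w'.length + 1) ≤ (β + 2) ^ w.length :=
      Nat.pow_le_pow_right (by omega) hlt
    have h2 := br_snd_lt l' w'
    have h3 := br_snd_ge l w
    omega

theorem br_inj {β : ℕ} {l l' : ℕ} {w w' : List (Fin (β + 2))}
    (h : (br l w).2 = (br l' w').2) : w = w' := by
  have hlen := br_length_eq h
  have h1 : Nat.ofDigits (β + 2) (w.map Fin.val) = Nat.ofDigits (β + 2) (w'.map Fin.val) := by
    simp only [br] at h
    rw [hlen] at h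
    omega
  have hdig : ∀ v : List (Fin (β + 2)), ∀ x ∈ v.map Fin.val, x < β + 2 := by
    intro v x hx
    rw [List.mem_map] at hx
    obtain ⟨y, _, rfl⟩ := hx
    exact y.2
  have h2 := Nat.ofDigits_inj_of_len_eq (b := β + 2) (by omega) (by simpa using hlen)
    (hdig w) (hdig w') h1
  exact List.map_injective_iff.2 Fin.val_injective h2

theorem br_parent {β : ℕ} (l : ℕ) (w : List (Fin (β + 2))) (h1 : 1 ≤ w.length)
    (h2 : w.length ≤ l - 1) :
    ((br l w).1 + 1, (br l w).2 / (β + 2)) = br l w.tail := by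
  cases w with
  | nil => simp at h1
  | cons a t =>
    simp only [List.length_cons] at h2
    simp only [br, List.tail_cons, List.length_cons, List.map_cons, Nat.ofDigits_cons,
      Prod.mk.injEq]
    constructor
    · omega
    · have h3 : (a : ℕ) < β + 2 := a.2
      have h4 : (a : ℕ) + (β + 2) * Nat.ofDigits (β + 2) (t.map Fin.val) +
          (β + 2) ^ (t.length + 1) = a + (β + 2) *
          (Nat.ofDigits (β + 2) (t.map Fin.val) + (β + 2) ^ t.length) := by
        rw [pow_succ]; ring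
      rw [h4, Nat.add_mul_div_left _ _ (by omega), Nat.div_eq_of_lt h3, zero_add]

theorem br_nil {β : ℕ} (l : ℕ) : br l ([] : List (Fin (β + 2))) = (l - 1, 1) := by
  simp [br]

/-! ### (3) disjointness facts -/

theorem BrS_finite (β l H : ℕ) : (BrS β l H).Finite := by
  have h1 : ({w : List (Fin (β + 2)) | w.length ≤ l - 1}).Finite := List.finite_length_le _ _
  have h2 : ({n : ℕ | n ≤ H}).Finite := Set.finite_Iic H
  refine ((Set.finite_univ (α := Bool)).prod ((h1.image (br l)).prod h2)).subset ?_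
  rintro ⟨b, v, n⟩ ⟨w, hw, hv, hn⟩
  exact ⟨trivial, ⟨w, hw, hv.symm⟩, hn⟩

theorem BrS_disjoint (β : ℕ) {l l' : ℕ} (hl : 1 ≤ l) (hl' : 1 ≤ l') (hne : l ≠ l') (H H' : ℕ) :
    Disjoint (BrS β l H) (BrS β l' H') := by
  rw [Set.disjoint_left]
  rintro e ⟨w, hw, he, _⟩ ⟨w', hw', he', _⟩
  have h1 : br l w = br l' w' := he.symm.trans he'
  have h2 : w = w' := br_inj (congrArg Prod.snd h1)
  subst h2
  have h3 := congrArg Prod.fst h1
  simp only [br] at h3
  omega

theorem BrS_snd_ne_zero (β l H : ℕ) {e : Ce} (he : e ∈ BrS β l H) : e.2.1.2 ≠ 0 := by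
  obtain ⟨w, _, h, _⟩ := he
  rw [h]
  exact (br_snd_pos l w).ne'

theorem BrS_subset_CR (β : ℕ) {l l' : ℕ} (hl : 1 ≤ l) (hll' : l ≤ l') (H : ℕ) :
    BrS β l H ⊆ CR β l' H := by
  rintro e ⟨w, hw, he, hH⟩
  refine ⟨?_, ?_, hH⟩
  · rw [he]; simp only [br]; omega
  · rw [he]
    refine lt_of_lt_of_le (br_snd_lt l w) (Nat.pow_le_pow_right (by omega) (by omega))

theorem BrS_mono_height (β l : ℕ) {H H' : ℕ} (h : H ≤ H') : BrS β l H ⊆ BrS β l H' := by
  rintro e ⟨w, hw, he, hH⟩
  exact ⟨w, hw, he, le_trans hH h⟩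

/-! ### (1) connection through the branch -/

/-- embedding of the edges of the tree model in the branch, heights shifted by `s` -/
def brE {β : ℕ} (l s : ℕ) (e : Te β) : Ce := (e.1, br l e.2.1, e.2.2 + s)
/-- embedding of the vertices of the tree model in the branch, heights shifted by `s` -/
def brV {β : ℕ} (l s : ℕ) (v : Tv β) : Cv := (br l v.1, v.2 + s)

theorem brE_inj {β : ℕ} (l s : ℕ) : Function.Injective (brE (β := β) l s) := by
  rintro ⟨b, w, n⟩ ⟨b', w', n'⟩ h
  simp only [brE, Prod.mk.injEq, add_left_inj] at h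
  obtain ⟨rfl, hbr, rfl⟩ := h
  have : w = w' := br_inj (congrArg Prod.snd hbr)
  rw [this]

theorem brE_mem {β : ℕ} {k h l s H : ℕ} (hl : k + 1 ≤ l) (hH : h + s ≤ H) {e : Te β}
    (he : e ∈ TK β k 0 h) : brE l s e ∈ BrS β l H := by
  rcases he with ⟨_, hb, _, hd⟩ | ⟨_, _, hc, _, he⟩
  · exact ⟨e.2.1, by omega, rfl, by simp only [brE]; omega⟩
  · exact ⟨e.2.1, by omega, rfl, by simp only [brE]; omega⟩

theorem conn_br {β : ℕ} {k h l s H : ℕ} (hl : k + 1 ≤ l) (hH : h + s ≤ H) (ω : Ce → Bool)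
    {u v : Tv β} (hc : Conn ta tc (TK β k 0 h) (fun e => ω (brE l s e)) u v) :
    Conn ca (cc β) (BrS β l H) ω (brV l s u) (brV l s v) := by
  refine Conn.map (brE l s) (brV l s) (fun e he => brE_mem hl hH he) ?_ hc
  rintro ⟨b, w, n⟩ he
  left
  refine ⟨rfl, ?_⟩
  cases b
  · have hw : 1 ≤ w.length ∧ w.length ≤ k := by
      rcases he with ⟨h1, _⟩ | ⟨_, h2, h3, _⟩
      · exact absurd h1 (by simp)
      · exact ⟨h2, h3⟩
    have hp := br_parent l w hw.1 (by omega)
    simp only [cc, brE, brV, tc]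
    simp only [Bool.false_eq_true, if_false]
    rw [hp]
  · simp only [cc, brE, brV, tc, if_true, Prod.mk.injEq, true_and]
    omega

theorem branch_conn (β : ℕ) (p : unitInterval) {D R k n : ℕ} (l a H : ℕ) (hl : k + 1 ≤ l)
    (ha : R ≤ a) (hH : a + n * D + R ≤ H) (hn : 1 ≤ n) (hD : 1 ≤ D) :
    (p : ℝ) ^ 2 * QK β D R k n p ≤
      (mu Ce p {ω | Conn ca (cc β) (BrS β l H) ω ((l, 0), a) ((l, 0), a + n * D)}).toReal := by
  classical
  have hnD : 1 ≤ n * D := Nat.one_le_iff_ne_zero.2 (by positivity)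
  set s := a - R with hs
  set e1 : Ce := (false, br l ([] : List (Fin (β + 2))), a) with he1
  set e2 : Ce := (false, br l ([] : List (Fin (β + 2))), a + n * D) with he2
  have hne : e1 ≠ e2 := by
    intro h
    have := congrArg (fun e : Ce => e.2.2) h
    simp only [he1, he2] at this
    omega
  set B0 : Set (Te β → Bool) :=
    {ω | Conn ta tc (TK β k 0 (n * D + 2 * R)) ω ([], R) ([], R + n * D)} with hB0
  set B : Set (Ce → Bool) := {ω | (fun e => ω (brE l s e)) ∈ B0} with hB
  set A : Set (Ce → Bool) := {ω | ∀ e ∈ ({e1, e2} : Finset Ce), ω e = true} with hA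
  have hB0dep : DepOn (TK β k 0 (n * D + 2 * R)) B0 := Conn.dep _ _ _
  have hBdep : DepOn (brE l s '' TK β k 0 (n * D + 2 * R)) B := hB0dep.preimage _
  have hAdep : DepOn ((({e1, e2} : Finset Ce)) : Set Ce) A := by
    intro ω ω' h
    show (∀ e ∈ ({e1, e2} : Finset Ce), ω e = true) ↔ (∀ e ∈ ({e1, e2} : Finset Ce), ω' e = true)
    exact forall_congr' fun e => forall_congr' fun he => by rw [h e he]
  have hdisj : Disjoint ((({e1, e2} : Finset Ce)) : Set Ce)
      (brE l s '' TK β k 0 (n * D + 2 * R)) := by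
    rw [Set.disjoint_left]
    rintro e he ⟨⟨b, w, h⟩, hmem, rfl⟩
    have hb : b = false ∧ br l w = br l ([] : List (Fin (β + 2))) := by
      rw [Finset.mem_coe, Finset.mem_insert, Finset.mem_singleton] at he
      rcases he with h | h
      · exact ⟨congrArg (fun e : Ce => e.1) h, congrArg (fun e : Ce => e.2.1) h⟩
      · exact ⟨congrArg (fun e : Ce => e.1) h, congrArg (fun e : Ce => e.2.1) h⟩
    have hw : w = [] := br_inj (congrArg Prod.snd hb.2)
    rcases hmem with ⟨h1, _⟩ | ⟨_, h2, _⟩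
    · simp only [hb.1] at h1; exact absurd h1 (by decide)
    · simp only [hw, List.length_nil] at h2; omega
  have hBmu : mu Ce p B = mu (Te β) p B0 :=
    transfer p (TK_finite β k 0 _) (brE l s) (brE_inj l s).injOn hB0dep
  have hAmu : (mu Ce p A).toReal = (p : ℝ) ^ 2 := by
    rw [hA, all_open_real, Finset.card_pair hne]
  have hind := indep_of_dep p (Finset.finite_toSet ({e1, e2} : Finset Ce))
    ((TK_finite β k 0 (n * D + 2 * R)).image (brE l s)) hdisj hAdep hBdep
  have hreal : (p : ℝ) ^ 2 * QK β D R k n p = (mu Ce p (A ∩ B)).toReal := by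
    rw [hind, ENNReal.toReal_mul, hAmu, hBmu]
    rfl
  rw [hreal]
  refine ENNReal.toReal_mono (measure_ne_top _ _) (measure_mono ?_)
  rintro ω ⟨hω1, hω2⟩
  have ho1 : ω e1 = true := hω1 e1 (by simp)
  have ho2 : ω e2 = true := hω1 e2 (by simp)
  have hmem : ∀ h ≤ H, ((false, br l ([] : List (Fin (β + 2))), h) : Ce) ∈ BrS β l H :=
    fun h hh => ⟨[], by simp, rfl, hh⟩
  have hmid := conn_br (β := β) (k := k) (h := n * D + 2 * R) (l := l) (s := s) (H := H) hl
    (by omega) ω hω2
  have hend : ∀ h, cc β ((false, br l ([] : List (Fin (β + 2))), h) : Ce) = ((l, 0), h) := by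
    intro h
    simp only [cc, Bool.false_eq_true, if_false, br_nil]
    have h1 : l - 1 + 1 = l := by omega
    have h2 : 1 / (β + 2) = 0 := Nat.div_eq_of_lt (by omega)
    rw [h1, h2]
  have c1 : Conn ca (cc β) (BrS β l H) ω (ca e1) (cc β e1) := Conn.edge (hmem a (by omega)) ho1
  have c2 : Conn ca (cc β) (BrS β l H) ω (ca e2) (cc β e2) :=
    Conn.edge (hmem (a + n * D) (by omega)) ho2
  rw [he1, hend] at c1
  rw [he2, hend] at c2
  have hv1 : brV l s (([], R) : Tv β) = (br l ([] : List (Fin (β + 2))), a) := by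
    simp only [brV]; congr 1; omega
  have hv2 : brV l s (([], R + n * D) : Tv β) = (br l ([] : List (Fin (β + 2))), a + n * D) := by
    simp only [brV]; congr 1; omega
  rw [hv1, hv2] at hmid
  exact c1.symm.trans (hmid.trans c2)

/-! ### (2) density -/

/-- reverse Markov inequality for a finite family of events -/
theorem reverse_markov {Ω : Type*} [MeasurableSpace Ω] (P : Measure Ω) [IsProbabilityMeasure P]
    (N : ℕ) (E : ℕ → Set Ω) (hE : ∀ n, MeasurableSet (E n)) (s : ℝ) (hs : 0 ≤ s) (hN : 1 ≤ N)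
    (h : ∀ n, 1 ≤ n → n ≤ N → s ≤ (P (E n)).toReal) (G : Set Ω) (hG : MeasurableSet G)
    (hGdef : ∀ ω, ω ∉ G → open Classical in
      ((((Finset.Icc 1 N).filter (fun n => ω ∈ E n)).card : ℝ)) ≤ s / 2 * N) :
    s / 2 ≤ (P G).toReal := by
  classical
  have h1 : (N : ℝ) * s ≤ ∑ n ∈ Finset.Icc 1 N, (P (E n)).toReal := by
    have : ∑ n ∈ Finset.Icc 1 N, s ≤ ∑ n ∈ Finset.Icc 1 N, (P (E n)).toReal :=
      Finset.sum_le_sum fun n hn => by
        rw [Finset.mem_Icc] at hn
        exact h n hn.1 hn.2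
    simpa using this
  have h2 : ∑ n ∈ Finset.Icc 1 N, (P (E n)).toReal =
      ∫ ω, ∑ n ∈ Finset.Icc 1 N, (E n).indicator (fun _ => (1 : ℝ)) ω ∂P := by
    rw [integral_finsetSum]
    · refine Finset.sum_congr rfl fun n _ => ?_
      rw [integral_indicator_const _ (hE n)]
      simp [Measure.real]
    · intro n _
      exact (integrable_const (1 : ℝ)).indicator (hE n)
  have h3 : ∀ ω, ∑ n ∈ Finset.Icc 1 N, (E n).indicator (fun _ => (1 : ℝ)) ω ≤
      (N : ℝ) * G.indicator (fun _ => (1 : ℝ)) ω + s / 2 * N := by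
    intro ω
    have hcard : ∑ n ∈ Finset.Icc 1 N, (E n).indicator (fun _ => (1 : ℝ)) ω =
        (((Finset.Icc 1 N).filter (fun n => ω ∈ E n)).card : ℝ) := by
      rw [Finset.card_filter]
      push_cast
      refine Finset.sum_congr rfl fun n _ => ?_
      by_cases hω : ω ∈ E n <;> simp [hω]
    rw [hcard]
    by_cases hω : ω ∈ G
    · rw [Set.indicator_of_mem hω, mul_one]
      have h4 : (((Finset.Icc 1 N).filter (fun n => ω ∈ E n)).card : ℝ) ≤ N := by
        have := Finset.card_filter_le (Finset.Icc 1 N) (fun n => ω ∈ E n)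
        rw [Nat.card_Icc] at this
        exact_mod_cast (by omega : ((Finset.Icc 1 N).filter (fun n => ω ∈ E n)).card ≤ N)
      have h5 : 0 ≤ s / 2 * (N : ℝ) := by positivity
      linarith
    · rw [Set.indicator_of_notMem hω, mul_zero, zero_add]
      exact hGdef ω hω
  have h4 : ∫ ω, ∑ n ∈ Finset.Icc 1 N, (E n).indicator (fun _ => (1 : ℝ)) ω ∂P ≤
      (N : ℝ) * (P G).toReal + s / 2 * N := by
    have h5 : ∫ ω, ((N : ℝ) * G.indicator (fun _ => (1 : ℝ)) ω + s / 2 * N) ∂P =
        (N : ℝ) * (P G).toReal + s / 2 * N := by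
      rw [integral_add, integral_const_mul, integral_indicator_const _ hG, integral_const]
      · simp [Measure.real]
      · exact ((integrable_const (1 : ℝ)).indicator hG).const_mul _
      · exact integrable_const _
    rw [← h5]
    refine integral_mono ?_ ?_ h3
    · exact integrable_finsetSum _ fun n _ => (integrable_const (1 : ℝ)).indicator (hE n)
    · exact (((integrable_const (1 : ℝ)).indicator hG).const_mul _).add (integrable_const _)
  have hNpos : (0 : ℝ) < N := by exact_mod_cast hN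
  have h6 : (N : ℝ) * s ≤ (N : ℝ) * (P G).toReal + s / 2 * N := by linarith
  nlinarith

open Classical in
theorem branch_dense (β : ℕ) (p : unitInterval) {D R k N : ℕ} {q : ℝ} (hq : 0 ≤ q) (hD : 1 ≤ D)
    (h : ∀ n ≤ N, q ≤ QK β D R k n p) (l a H : ℕ) (hl : k + 1 ≤ l) (ha : R ≤ a)
    (hH : a + N * D + R ≤ H) :
    (p : ℝ) ^ 2 * q / 2 ≤ (mu Ce p {ω | (p : ℝ) ^ 2 * q / 2 * N ≤
      (((Finset.Icc 1 N).filter (fun n =>
        Conn ca (cc β) (BrS β l H) ω ((l, 0), a) ((l, 0), a + n * D))).card : ℝ)}).toReal := by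
  have hp0 := p.2.1
  have hp1 := p.2.2
  have hs : 0 ≤ (p : ℝ) ^ 2 * q := by positivity
  have hq1 : q ≤ 1 := by
    have := h 0 (Nat.zero_le _)
    rwa [QK_zero] at this
  rcases Nat.eq_zero_or_pos N with hN | hN
  · subst hN
    have : {ω : Ce → Bool | (p : ℝ) ^ 2 * q / 2 * ((0 : ℕ) : ℝ) ≤
        (((Finset.Icc 1 0).filter (fun n =>
        Conn ca (cc β) (BrS β l H) ω ((l, 0), a) ((l, 0), a + n * D))).card : ℝ)} = Set.univ := by
      ext ω; simp
    rw [this, mu_univ, ENNReal.toReal_one]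
    have h2 : (p : ℝ) ^ 2 ≤ 1 := pow_le_one₀ hp0 hp1
    nlinarith
  · set E : ℕ → Set (Ce → Bool) := fun n =>
      {ω | Conn ca (cc β) (BrS β l H) ω ((l, 0), a) ((l, 0), a + n * D)} with hEdef
    have hEdep : ∀ n, DepOn (BrS β l H) (E n) := fun n => Conn.dep _ _ _
    have hGdep : DepOn (BrS β l H) {ω : Ce → Bool | (p : ℝ) ^ 2 * q / 2 * N ≤
        (((Finset.Icc 1 N).filter (fun n =>
        Conn ca (cc β) (BrS β l H) ω ((l, 0), a) ((l, 0), a + n * D))).card : ℝ)} := by
      intro ω ω' hωω'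
      have : (Finset.Icc 1 N).filter (fun n =>
          Conn ca (cc β) (BrS β l H) ω ((l, 0), a) ((l, 0), a + n * D)) =
          (Finset.Icc 1 N).filter (fun n =>
          Conn ca (cc β) (BrS β l H) ω' ((l, 0), a) ((l, 0), a + n * D)) :=
        Finset.filter_congr fun n _ => hEdep n ω ω' hωω'
      rw [Set.mem_ofPred_eq, Set.mem_ofPred_eq, this]
    refine reverse_markov (mu Ce p) N E (fun n => meas_of_dep (BrS_finite β l H) (hEdep n))
      ((p : ℝ) ^ 2 * q) hs hN ?_ _ (meas_of_dep (BrS_finite β l H) hGdep) ?_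
    · intro n hn1 hnN
      have h1 := branch_conn β p (D := D) (R := R) (k := k) (n := n) l a H hl ha (by
        have := Nat.mul_le_mul_right D hnN
        omega) hn1 hD
      refine le_trans ?_ h1
      exact mul_le_mul_of_nonneg_left (h n hnN) (by positivity)
    · intro ω hω
      rw [Set.mem_ofPred_eq, not_le] at hω
      exact hω.le

end Pool.Agent.MP44
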