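import Pool.Agent.Work.MP_44e654_pr.Base
import Pool.Agent.Work.MP_44e654_pr.Prob
import Pool.Agent.Work.MP_44e654_pr.StepE1

/-! MP_44e654_pr, step E, part 2: climbing the canopy (helper61). -/

set_option autoImplicit false

namespace Pool.Agent.MP44

open MeasureTheory

namespace E2

section gen
variable {ι : Type}

theorem indep_real (p : unitInterval) {F G : Set ι} (hF : F.Finite) (hG : G.Finite)
    (hd : Disjoint F G) {A B : Set (ι → Bool)} (hA : DepOn F A) (hB : DepOn G B) :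
    (mu ι p (A ∩ B)).toReal = (mu ι p A).toReal * (mu ι p B).toReal := by
  rw [indep_of_dep p hF hG hd hA hB, ENNReal.toReal_mul]

theorem compl_real (p : unitInterval) {F : Set ι} (hF : F.Finite) {A : Set (ι → Bool)}
    (hA : DepOn F A) : (mu ι p Aᶜ).toReal = 1 - (mu ι p A).toReal := by
  have := probReal_compl_eq_one_sub (μ := mu ι p) (meas_of_dep hF hA)
  exact this

theorem prod_fail {κ : Type} (p : unitInterval) (F : κ → Set ι) (hF : ∀ k, (F k).Finite)
    (E : κ → Set (ι → Bool)) (hE : ∀ k, DepOn (F k) (E k)) (x : ℝ)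
    (s : Finset κ) (hd : ∀ k ∈ s, ∀ k' ∈ s, k ≠ k' → Disjoint (F k) (F k'))
    (hx : ∀ k ∈ s, x ≤ (mu ι p (E k)).toReal) :
    (mu ι p {ω | ∀ k ∈ s, ω ∉ E k}).toReal ≤ (1 - x) ^ s.card := by
  classical
  induction s using Finset.induction_on with
  | empty => simp
  | insert a s ha ih =>
    have h1 : {ω | ∀ k ∈ insert a s, ω ∉ E k} = (E a)ᶜ ∩ {ω | ∀ k ∈ s, ω ∉ E k} := by
      ext ω
      simp only [Set.mem_ofPred_eq, Finset.forall_mem_insert, Set.mem_inter_iff, Set.mem_compl_iff]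
    have hfin : (⋃ k ∈ s, F k).Finite := s.finite_toSet.biUnion (fun k _ => hF k)
    have hdep : DepOn (⋃ k ∈ s, F k) {ω | ∀ k ∈ s, ω ∉ E k} := by
      intro ω ω' h
      refine forall₂_congr (fun k hk => not_congr (hE k ω ω' (fun e he => h e ?_)))
      exact Set.mem_biUnion hk he
    have hdisj : Disjoint (F a) (⋃ k ∈ s, F k) := by
      rw [Set.disjoint_iUnion₂_right]
      intro k hk
      exact hd a (Finset.mem_insert_self _ _) k (Finset.mem_insert_of_mem hk)
        (fun h => ha (h ▸ hk))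
    rw [h1, indep_real p (hF a) hfin hdisj (hE a).compl hdep, compl_real p (hF a) (hE a),
      Finset.card_insert_of_notMem ha, pow_succ, mul_comm]
    have h2 := hx a (Finset.mem_insert_self _ _)
    have h3 : (mu ι p (E a)).toReal ≤ 1 :=
      ENNReal.toReal_le_of_le_ofReal zero_le_one (by simpa using prob_le_one)
    have h4 := ih (fun k hk k' hk' => hd k (Finset.mem_insert_of_mem hk) k'
      (Finset.mem_insert_of_mem hk')) (fun k hk => hx k (Finset.mem_insert_of_mem hk))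
    refine mul_le_mul h4 (by linarith) (by linarith) ?_
    exact pow_nonneg (by linarith) _

theorem fub_lower (p : unitInterval) {F G : Set ι} (hF : F.Finite) (hG : G.Finite)
    (hd : Disjoint F G) (C : (ι → Bool) → Set (ι → Bool))
    (hC1 : ∀ ω ω' : ι → Bool, (∀ e ∈ F, ω e = ω' e) → C ω = C ω') (hC2 : ∀ ω, DepOn G (C ω))
    (A : Set (ι → Bool)) (hA : DepOn F A) (t : ℝ) (ht : 0 ≤ t)
    (h : ∀ ω ∈ A, t ≤ (mu ι p (C ω)).toReal) :
    (mu ι p A).toReal * t ≤ (mu ι p {ω | ω ∈ C ω}).toReal := by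
  have hm := meas_of_dep hF hA
  have h1 : mu ι p A * ENNReal.ofReal t ≤ mu ι p {ω | ω ∈ C ω} := by
    rw [fubini_dep p hF hG hd C hC1 hC2, mul_comm, ← lintegral_indicator_const hm]
    refine lintegral_mono (fun ω => ?_)
    by_cases hω : ω ∈ A
    · rw [Set.indicator_of_mem hω]
      exact ENNReal.ofReal_le_of_le_toReal (h ω hω)
    · rw [Set.indicator_of_notMem hω]
      exact bot_le
  have h2 := ENNReal.toReal_mono (measure_ne_top _ _) h1
  rwa [ENNReal.toReal_mul, ENNReal.toReal_ofReal ht] at h2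

theorem mu_mono (p : unitInterval) {A B : Set (ι → Bool)} (h : A ⊆ B) :
    (mu ι p A).toReal ≤ (mu ι p B).toReal :=
  ENNReal.toReal_mono (measure_ne_top _ _) (measure_mono h)

theorem mu_le_one (p : unitInterval) (A : Set (ι → Bool)) : (mu ι p A).toReal ≤ 1 :=
  ENNReal.toReal_le_of_le_ofReal zero_le_one (by simpa using prob_le_one)

end gen

/-! ### ray edges and straight climbs -/

/-- the ray edge from `(j,0)` to `(j+1,0)` at height `n` -/
def te (j n : ℕ) : Ce := (false, (j, 0), n)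

theorem te_inj {j n j' n' : ℕ} (h : te j n = te j' n') : j = j' ∧ n = n' := by
  simp only [te, Prod.mk.injEq, and_true, true_and] at h
  exact h

/-- the edges of the straight climb from level `l` to level `l + u` at height `n` -/
def Tn (l u n : ℕ) : Finset Ce := (Finset.Ico l (l + u)).image (fun j => te j n)

theorem mem_Tn {l u n : ℕ} {e : Ce} : e ∈ Tn l u n ↔ ∃ j, (l ≤ j ∧ j < l + u) ∧ te j n = e := by
  simp [Tn, Finset.mem_image, Finset.mem_Ico]

theorem card_Tn (l u n : ℕ) : (Tn l u n).card = u := by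
  rw [Tn, Finset.card_image_of_injective _ (fun a b h => (te_inj h).1), Nat.card_Ico]
  omega

/-- straight climb at height `n` -/
def Str (l u n : ℕ) : Set (Ce → Bool) := {ω | ∀ e ∈ Tn l u n, ω e = true}

theorem Str_prob (p : unitInterval) (l u n : ℕ) : (mu Ce p (Str l u n)).toReal = (p : ℝ) ^ u := by
  rw [Str, all_open_real, card_Tn]

theorem Str_dep (l u n : ℕ) : DepOn (Tn l u n : Set Ce) (Str l u n) := by
  intro ω ω' h
  refine forall₂_congr (fun e he => ?_)
  rw [h e he]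

theorem Tn_disj {l u n n' : ℕ} (h : n ≠ n') : Disjoint (Tn l u n : Set Ce) (Tn l u n' : Set Ce) := by
  rw [Set.disjoint_left]
  intro e he he'
  rw [Finset.mem_coe, mem_Tn] at he he'
  obtain ⟨j, _, rfl⟩ := he
  obtain ⟨j', _, h'⟩ := he'
  exact h (te_inj h').2.symm

/-- no straight climber in a finite set -/
theorem no_straight (p : unitInterval) (l u : ℕ) (A : Finset ℕ) :
    (mu Ce p {ω | ∀ a ∈ A, ω ∉ Str l u a}).toReal ≤ (1 - (p : ℝ) ^ u) ^ A.card :=
  prod_fail p (fun a => (Tn l u a : Set Ce)) (fun a => (Tn l u a).finite_toSet) (Str l u)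
    (Str_dep l u) _ A (fun _ _ _ _ h => Tn_disj h) (fun a _ => (Str_prob p l u a).ge)

open Classical in
/-- few straight climbers in a large set -/
theorem few_straight (p : unitInterval) (l u : ℕ) (B : Finset ℕ) (M S : ℕ) (hB : M * S ≤ B.card) :
    (mu Ce p {ω | (B.filter (fun n => ω ∈ Str l u n)).card < M}).toReal ≤
      M * (1 - (p : ℝ) ^ u) ^ S := by
  have hcard : Fintype.card (Fin M × Fin S) ≤ Fintype.card B := by
    simpa [Fintype.card_prod, Fintype.card_coe] using hB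
  obtain ⟨f⟩ := Function.Embedding.nonempty_of_card_le hcard
  let blk : Fin M → Finset ℕ := fun i => Finset.univ.image (fun v => (f (i, v) : ℕ))
  have hblk : ∀ i, (blk i).card = S := by
    intro i
    rw [Finset.card_image_of_injective, Finset.card_univ, Fintype.card_fin]
    intro v v' h
    have := f.injective (Subtype.ext h)
    exact (Prod.mk.inj this).2
  have hsub : {ω | (B.filter (fun n => ω ∈ Str l u n)).card < M} ⊆
      ⋃ i ∈ (Finset.univ : Finset (Fin M)), {ω | ∀ a ∈ blk i, ω ∉ Str l u a} := by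
    intro ω hω
    by_contra hcon
    simp only [Set.mem_iUnion, Finset.mem_univ, Set.mem_ofPred_eq, exists_prop, true_and,
      not_exists, not_forall, not_not] at hcon
    choose g hg1 hg2 using hcon
    have hginj : Function.Injective g := by
      intro i i' h
      have h1 := hg1 i
      have h2 := hg1 i'
      rw [← h] at h2
      simp only [blk, Finset.mem_image, Finset.mem_univ, true_and] at h1 h2
      obtain ⟨v, hv⟩ := h1
      obtain ⟨v', hv'⟩ := h2
      have := f.injective (Subtype.ext (hv.trans hv'.symm))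
      exact (Prod.mk.inj this).1
    have h3 : (Finset.univ.image g) ⊆ B.filter (fun n => ω ∈ Str l u n) := by
      intro n hn
      rw [Finset.mem_image] at hn
      obtain ⟨i, _, rfl⟩ := hn
      rw [Finset.mem_filter]
      refine ⟨?_, hg2 i⟩
      have h1 := hg1 i
      simp only [blk, Finset.mem_image, Finset.mem_univ, true_and] at h1
      obtain ⟨v, hv⟩ := h1
      rw [← hv]
      exact (f (i, v)).2
    have h4 := Finset.card_le_card h3
    rw [Finset.card_image_of_injective _ hginj, Finset.card_univ, Fintype.card_fin] at h4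
    exact absurd hω (not_lt.mpr h4)
  refine (mu_mono p hsub).trans ?_
  refine (measureReal_biUnion_finset_le _ _).trans ?_
  refine (Finset.sum_le_card_nsmul _ _ ((1 - (p : ℝ) ^ u) ^ S) (fun i _ => ?_)).trans (by simp)
  have := no_straight p l u (blk i)
  rw [hblk i] at this
  exact this

/-! ### regions -/

/-- edges below `(l,0)`, heights at most `H` -/
def Lo (β l H : ℕ) : Set Ce := {e | e.2.1.1 < l ∧ e.2.1.2 < (β + 2) ^ (l - e.2.1.1) ∧ e.2.2 ≤ H}

/-- ray edges and branches between the levels `l` and `l + u` -/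
def Mid (β l u H : ℕ) : Set Ce :=
  {e | ∃ n ≤ H, e ∈ Tn l u n} ∪ {e | ∃ j ∈ Finset.Ioc l (l + u), e ∈ BrS β j H}

theorem BrS_spec {β j H : ℕ} (hj : 1 ≤ j) {e : Ce} (he : e ∈ BrS β j H) :
    e.2.1.1 < j ∧ (β + 2) ^ (j - 1 - e.2.1.1) ≤ e.2.1.2 ∧
      e.2.1.2 < 2 * (β + 2) ^ (j - 1 - e.2.1.1) ∧ e.2.2 ≤ H := by
  obtain ⟨w, hw, he1, he2⟩ := he
  have h1 : e.2.1.1 = j - 1 - w.length := by rw [he1]; rfl
  have h2 : e.2.1.2 = Nat.ofDigits (β + 2) (w.map Fin.val) + (β + 2) ^ w.length := by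
    rw [he1]; rfl
  have h3 : j - 1 - e.2.1.1 = w.length := by omega
  have h4 : Nat.ofDigits (β + 2) (w.map Fin.val) < (β + 2) ^ w.length := by
    have := Nat.ofDigits_lt_base_pow_length (b := β + 2) (l := w.map Fin.val) (by omega)
      (by
        intro x hx
        rw [List.mem_map] at hx
        obtain ⟨y, _, rfl⟩ := hx
        exact y.2)
    rwa [List.length_map] at this
  rw [h3, h2]
  refine ⟨by omega, by omega, by omega, he2⟩

theorem Tn_BrS_disj {β l u n j H : ℕ} (hj : 1 ≤ j) : Disjoint (Tn l u n : Set Ce) (BrS β j H) := by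
  rw [Set.disjoint_left]
  intro e he he'
  rw [Finset.mem_coe, mem_Tn] at he
  obtain ⟨i, _, rfl⟩ := he
  have h1 := (BrS_spec hj he').2.1
  have h2 : 1 ≤ (β + 2) ^ (j - 1 - (te i n).2.1.1) := Nat.one_le_pow _ _ (by omega)
  have h3 : (te i n).2.1.2 = 0 := rfl
  omega

theorem BrS_disj_lt {β j j' H H' : ℕ} (hj : 1 ≤ j) (h : j < j') :
    Disjoint (BrS β j H) (BrS β j' H') := by
  rw [Set.disjoint_left]
  intro e he he'
  obtain ⟨h1, _, h3, _⟩ := BrS_spec hj he
  obtain ⟨_, h5, _, _⟩ := BrS_spec (by omega) he'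
  have h6 : (β + 2) ^ (j - 1 - e.2.1.1 + 1) ≤ (β + 2) ^ (j' - 1 - e.2.1.1) :=
    Nat.pow_le_pow_right (by omega) (by omega)
  rw [pow_succ] at h6
  have h7 : 0 < (β + 2) ^ (j - 1 - e.2.1.1) := Nat.pow_pos (by omega)
  nlinarith

theorem BrS_disj {β j j' H H' : ℕ} (hj : 1 ≤ j) (hj' : 1 ≤ j') (h : j ≠ j') :
    Disjoint (BrS β j H) (BrS β j' H') := by
  rcases lt_or_gt_of_ne h with h | h
  · exact BrS_disj_lt hj h
  · exact (BrS_disj_lt hj' h).symm

theorem Lo_finite (β l H : ℕ) : (Lo β l H).Finite := by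
  refine (CR_finite β l H).subset ?_
  rintro e ⟨h1, h2, h3⟩
  exact ⟨h1.le, h2.trans_le (Nat.pow_le_pow_right (by omega) (Nat.sub_le _ _)), h3⟩

theorem Lo_sub_CR (β l H : ℕ) : Lo β l H ⊆ CR β l H := by
  rintro e ⟨h1, h2, h3⟩
  exact ⟨h1.le, h2.trans_le (Nat.pow_le_pow_right (by omega) (Nat.sub_le _ _)), h3⟩

theorem Mid_finite (β l u H : ℕ) : (Mid β l u H).Finite := by
  apply Set.Finite.union
  · have : {e | ∃ n ≤ H, e ∈ Tn l u n} ⊆ ⋃ n ∈ Finset.range (H + 1), (Tn l u n : Set Ce) := by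
      rintro e ⟨n, hn, he⟩
      exact Set.mem_biUnion (by simpa using Nat.lt_succ_of_le hn) he
    exact ((Finset.range (H + 1)).finite_toSet.biUnion (fun n _ => (Tn l u n).finite_toSet)).subset
      this
  · have : {e | ∃ j ∈ Finset.Ioc l (l + u), e ∈ BrS β j H} ⊆
        ⋃ j ∈ Finset.Ioc l (l + u), BrS β j H := by
      rintro e ⟨j, hj, he⟩
      exact Set.mem_biUnion hj he
    exact ((Finset.Ioc l (l + u)).finite_toSet.biUnion (fun j _ => BrS_finite β j H)).subset this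

theorem Lo_mono {β l u H H' : ℕ} (h : H ≤ H') : Lo β l H ⊆ Lo β (l + u) H' := by
  rintro e ⟨h1, h2, h3⟩
  exact ⟨by omega, h2.trans_le (Nat.pow_le_pow_right (by omega) (by omega)), by omega⟩

theorem Mid_sub_Lo {β l u H : ℕ} : Mid β l u H ⊆ Lo β (l + u) H := by
  rintro e (⟨n, hn, he⟩ | ⟨j, hj, he⟩)
  · rw [mem_Tn] at he
    obtain ⟨i, hi, rfl⟩ := he
    exact ⟨hi.2, Nat.pow_pos (by omega), hn⟩
  · rw [Finset.mem_Ioc] at hj
    obtain ⟨h1, _, h3, h4⟩ := BrS_spec (by omega) he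
    refine ⟨by omega, ?_, h4⟩
    have h6 : (β + 2) ^ (j - 1 - e.2.1.1 + 1) ≤ (β + 2) ^ (l + u - e.2.1.1) :=
      Nat.pow_le_pow_right (by omega) (by omega)
    rw [pow_succ] at h6
    have h7 : 0 < (β + 2) ^ (j - 1 - e.2.1.1) := Nat.pow_pos (by omega)
    nlinarith

theorem Lo_Mid_disj {β l u H H' : ℕ} : Disjoint (Lo β l H) (Mid β l u H') := by
  rw [Set.disjoint_left]
  rintro e ⟨h1, h2, h3⟩ (⟨n, hn, he⟩ | ⟨j, hj, he⟩)
  · rw [mem_Tn] at he
    obtain ⟨i, hi, rfl⟩ := he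
    have : (te i n).2.1.1 = i := rfl
    omega
  · rw [Finset.mem_Ioc] at hj
    obtain ⟨h4, h5, _, _⟩ := BrS_spec (by omega) he
    have h6 : (β + 2) ^ (l - e.2.1.1) ≤ (β + 2) ^ (j - 1 - e.2.1.1) :=
      Nat.pow_le_pow_right (by omega) (by omega)
    omega

theorem str_conn {β l u H n : ℕ} (hn : n ≤ H) {ω : Ce → Bool} (hω : ω ∈ Str l u n) {j1 j2 : ℕ}
    (h1 : l ≤ j1) (h2 : j1 ≤ j2) (h3 : j2 ≤ l + u) :
    Conn ca (cc β) (Mid β l u H) ω ((j1, 0), n) ((j2, 0), n) := by
  induction j2, h2 using Nat.le_induction with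
  | base => exact Conn.refl _ _ _
  | succ j hj ih =>
    have ih' := ih (by omega)
    have hmem : te j n ∈ Tn l u n := mem_Tn.mpr ⟨j, ⟨by omega, by omega⟩, rfl⟩
    have he := Conn.edge (a := ca) (c := cc β) (S := Mid β l u H) (ω := ω) (e := te j n)
      (Or.inl ⟨n, hn, hmem⟩) (hω _ hmem)
    have h4 : ca (te j n) = ((j, 0), n) := rfl
    have h5 : cc β (te j n) = ((j + 1, 0), n) := by
      simp [cc, te]
    rw [h4, h5] at he
    exact ih'.trans he

/-! ### one phase -/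

open Classical in
/-- the steps `n` with a connection by `n * D` in the branch `j`, based at height `a` -/
noncomputable def dn (β D N j H a : ℕ) (ω : Ce → Bool) : Finset ℕ :=
  (Finset.Icc 1 N).filter
    (fun n => Conn ca (cc β) (BrS β j H) ω ((j, 0), a) ((j, 0), a + n * D))

/-- the heights reached in the branch `j`, outside `A` -/
noncomputable def Bs (β D N j H a : ℕ) (A : Finset ℕ) (ω : Ce → Bool) : Finset ℕ :=
  ((dn β D N j H a ω).image (fun n => a + n * D)) \ A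

theorem dn_congr {β D N j H a : ℕ} {ω ω' : Ce → Bool} (h : ∀ e ∈ BrS β j H, ω e = ω' e) :
    dn β D N j H a ω = dn β D N j H a ω' := by
  classical
  unfold dn
  refine Finset.filter_congr (fun n _ => ?_)
  exact Conn.dep (a := ca) (c := cc β) (BrS β j H) _ _ ω ω' h

theorem Bs_congr {β D N j H a : ℕ} {A : Finset ℕ} {ω ω' : Ce → Bool}
    (h : ∀ e ∈ BrS β j H, ω e = ω' e) : Bs β D N j H a A ω = Bs β D N j H a A ω' := by
  rw [Bs, Bs, dn_congr h]

theorem Bs_card {β D N j H a : ℕ} (hD : 1 ≤ D) {A : Finset ℕ} (ω : Ce → Bool) :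
    (dn β D N j H a ω).card ≤ (Bs β D N j H a A ω).card + A.card := by
  have h1 : ((dn β D N j H a ω).image (fun n => a + n * D)).card = (dn β D N j H a ω).card := by
    apply Finset.card_image_of_injective
    intro n n' h
    have h2 : n * D = n' * D := Nat.add_left_cancel h
    exact Nat.eq_of_mul_eq_mul_right (by omega) h2
  rw [← h1, Bs]
  have := Finset.le_card_sdiff A ((dn β D N j H a ω).image (fun n => a + n * D))
  omega

theorem mem_Bs {β D N j H a : ℕ} {A : Finset ℕ} {ω : Ce → Bool} {n : ℕ}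
    (h : n ∈ Bs β D N j H a A ω) : n ∉ A ∧ a ≤ n ∧ n ≤ a + N * D ∧
      Conn ca (cc β) (BrS β j H) ω ((j, 0), a) ((j, 0), n) := by
  classical
  rw [Bs, Finset.mem_sdiff, Finset.mem_image] at h
  obtain ⟨⟨m, hm, rfl⟩, hA⟩ := h
  rw [dn, Finset.mem_filter, Finset.mem_Icc] at hm
  refine ⟨hA, by omega, ?_, hm.2⟩
  have := Nat.mul_le_mul_right D hm.1.2
  omega

open Classical in
theorem phase (β : ℕ) (p : unitInterval) {D R k N : ℕ} {q : ℝ} (hq : 0 ≤ q) (hq1 : q ≤ 1)
    (hD : 1 ≤ D)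
    (hQ : ∀ n ≤ N, q ≤ QK β D R k n p) (l u : ℕ) (hk : k ≤ l) (A : Finset ℕ)
    (hA : ∀ a ∈ A, R ≤ a) (H : ℕ) (hH : ∀ a ∈ A, a + N * D + R ≤ H) (M S : ℕ)
    (hB : ((M * S + A.card : ℕ) : ℝ) ≤ (p : ℝ) ^ 2 * q / 2 * N)
    (h3 : M * (1 - (p : ℝ) ^ u) ^ S ≤ 1) :
    (1 - (1 - (p : ℝ) ^ u) ^ A.card) * (1 - (1 - (p : ℝ) ^ 2 * q / 2) ^ u) *
      (1 - M * (1 - (p : ℝ) ^ u) ^ S) ≤
    (mu Ce p {ω | M ≤ ((Finset.Icc R H).filter (fun n => ∃ a ∈ A,
      Conn ca (cc β) (Mid β l u H) ω ((l, 0), a) ((l + u, 0), n))).card}).toReal := by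
  have hp0 := p.2.1
  have hp1 := p.2.2
  set x : ℝ := (p : ℝ) ^ 2 * q / 2 with hx
  have hx0 : 0 ≤ x := by positivity
  have hx1 : x ≤ 1 := by
    have : (p : ℝ) ^ 2 ≤ 1 := pow_le_one₀ hp0 hp1
    nlinarith
  -- the sets of edges
  set F1 : Set Ce := ⋃ a ∈ A, (Tn l u a : Set Ce) with hF1
  set F2 : Set Ce := ⋃ j ∈ Finset.Ioc l (l + u), BrS β j H with hF2
  set F3 : Set Ce := ⋃ n ∈ (Finset.Icc R H \ A), (Tn l u n : Set Ce) with hF3
  have hF1f : F1.Finite := A.finite_toSet.biUnion (fun k _ => (Tn l u k).finite_toSet)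
  have hF2f : F2.Finite := (Finset.Ioc l (l + u)).finite_toSet.biUnion
    (fun j _ => BrS_finite β j H)
  have hF3f : F3.Finite := (Finset.Icc R H \ A).finite_toSet.biUnion
    (fun k _ => (Tn l u k).finite_toSet)
  have hd12 : Disjoint F1 F2 := by
    rw [hF1, hF2, Set.disjoint_iUnion₂_left]
    intro a _
    rw [Set.disjoint_iUnion₂_right]
    intro j hj
    exact Tn_BrS_disj (by have := (Finset.mem_Ioc.mp hj).1; omega)
  have hd32 : Disjoint F3 F2 := by
    rw [hF3, hF2, Set.disjoint_iUnion₂_left]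
    intro a _
    rw [Set.disjoint_iUnion₂_right]
    intro j hj
    exact Tn_BrS_disj (by have := (Finset.mem_Ioc.mp hj).1; omega)
  have hd13 : Disjoint F1 F3 := by
    rw [hF1, hF3, Set.disjoint_iUnion₂_left]
    intro a ha
    rw [Set.disjoint_iUnion₂_right]
    intro n hn
    refine Tn_disj ?_
    rintro rfl
    exact (Finset.mem_sdiff.mp hn).2 ha
  have hd : Disjoint (F1 ∪ F2) F3 := Set.disjoint_union_left.mpr ⟨hd13, hd32.symm⟩
  -- the events
  set De : ℕ → ℕ → Set (Ce → Bool) := fun a j => {ω | x * N ≤ ((dn β D N j H a ω).card : ℝ)}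
    with hDe
  have hDedep : ∀ a j, DepOn (BrS β j H) (De a j) := by
    intro a j ω ω' h
    simp only [hDe, Set.mem_ofPred_eq]
    rw [dn_congr h]
  have hStr : ∀ a ∈ A, ∀ ω ω' : Ce → Bool, (∀ e ∈ F1, ω e = ω' e) →
      (ω ∈ Str l u a ↔ ω' ∈ Str l u a) := by
    intro a ha ω ω' h
    exact Str_dep l u a ω ω' (fun e he => h e (Set.mem_biUnion ha he))
  set E1 : Set (Ce → Bool) := {ω | ∃ a ∈ A, ω ∈ Str l u a} with hE1
  have hE1dep : DepOn F1 E1 := by
    intro ω ω' h
    exact exists_congr (fun a => and_congr_right (fun ha => hStr a ha ω ω' h))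
  have hE1p : 1 - (1 - (p : ℝ) ^ u) ^ A.card ≤ (mu Ce p E1).toReal := by
    have h1 : E1ᶜ = {ω | ∀ a ∈ A, ω ∉ Str l u a} := by
      ext ω
      simp only [hE1, Set.mem_compl_iff, Set.mem_ofPred_eq, not_exists, not_and]
    have h2 := compl_real p hF1f hE1dep
    rw [h1] at h2
    have h3 := no_straight p l u A
    linarith
  set C2 : (Ce → Bool) → Set (Ce → Bool) := fun ω => {ω' | ∃ a ∈ A, ω ∈ Str l u a ∧
    ∃ j ∈ Finset.Ioc l (l + u), ω' ∈ De a j} with hC2
  set E2 : Set (Ce → Bool) := {ω | ω ∈ C2 ω} with hE2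
  have hE2p : (mu Ce p E1).toReal * (1 - (1 - x) ^ u) ≤ (mu Ce p E2).toReal := by
    refine fub_lower p hF1f hF2f hd12 C2 ?_ ?_ E1 hE1dep _ ?_ ?_
    · intro ω ω' h
      ext ω''
      simp only [hC2, Set.mem_ofPred_eq]
      refine exists_congr (fun a => and_congr_right (fun ha => ?_))
      rw [hStr a ha ω ω' h]
    · intro ω ω1 ω2 h
      simp only [hC2, Set.mem_ofPred_eq]
      refine exists_congr (fun a => and_congr_right (fun ha => and_congr_right (fun _ =>
        exists_congr (fun j => and_congr_right (fun hj => ?_)))))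
      exact hDedep a j ω1 ω2 (fun e he => h e (Set.mem_biUnion hj he))
    · have : (1 - x) ^ u ≤ 1 := pow_le_one₀ (by linarith) (by linarith)
      linarith
    · rintro ω ⟨a, ha, hωa⟩
      have h1 := prod_fail p (fun j => BrS β j H) (fun j => BrS_finite β j H) (De a)
        (hDedep a) x (Finset.Ioc l (l + u))
        (fun j hj j' hj' hne => BrS_disj (by have := (Finset.mem_Ioc.mp hj).1; omega)
          (by have := (Finset.mem_Ioc.mp hj').1; omega) hne)
        (fun j hj => by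
          have h4 := branch_dense β p hq hD hQ j a H
            (by have := (Finset.mem_Ioc.mp hj).1; omega) (hA a ha) (hH a ha)
          refine h4.trans (mu_mono p ?_)
          intro ω' hω'
          simp only [hDe, dn, Set.mem_ofPred_eq] at hω' ⊢
          convert hω' using 3)
      rw [Nat.card_Ioc, Nat.add_sub_cancel_left] at h1
      have h2 : {ω' | ∀ j ∈ Finset.Ioc l (l + u), ω' ∉ De a j}ᶜ ⊆ C2 ω := by
        intro ω' hω'
        simp only [Set.mem_compl_iff, Set.mem_ofPred_eq, not_forall, not_not,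
          exists_prop] at hω'
        exact ⟨a, ha, hωa, hω'⟩
      have h5 : DepOn F2 {ω' | ∀ j ∈ Finset.Ioc l (l + u), ω' ∉ De a j} := by
        intro ω1 ω2 h
        refine forall₂_congr (fun j hj => not_congr ?_)
        exact hDedep a j ω1 ω2 (fun e he => h e (Set.mem_biUnion hj he))
      have h6 := compl_real p hF2f h5
      have h7 := mu_mono p h2
      rw [h6] at h7
      linarith
  have hE2dep : DepOn (F1 ∪ F2) E2 := by
    intro ω ω' h
    simp only [hE2, hC2, Set.mem_ofPred_eq]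
    refine exists_congr (fun a => and_congr_right (fun ha => and_congr ?_ ?_))
    · exact hStr a ha ω ω' (fun e he => h e (Or.inl he))
    · refine exists_congr (fun j => and_congr_right (fun hj => ?_))
      exact hDedep a j ω ω' (fun e he => h e (Or.inr (Set.mem_biUnion hj he)))
  set C3 : (Ce → Bool) → Set (Ce → Bool) := fun ω => {ω' | ∃ a ∈ A, ω ∈ Str l u a ∧
    ∃ j ∈ Finset.Ioc l (l + u), ω ∈ De a j ∧
      M ≤ ((Bs β D N j H a A ω).filter (fun n => ω' ∈ Str l u n)).card} with hC3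
  have hE3p : (mu Ce p E2).toReal * (1 - M * (1 - (p : ℝ) ^ u) ^ S) ≤
      (mu Ce p {ω | ω ∈ C3 ω}).toReal := by
    refine fub_lower p (hF1f.union hF2f) hF3f hd C3 ?_ ?_ E2 hE2dep _ (by linarith) ?_
    · intro ω ω' h
      ext ω''
      simp only [hC3, Set.mem_ofPred_eq]
      refine exists_congr (fun a => and_congr_right (fun ha => ?_))
      rw [hStr a ha ω ω' (fun e he => h e (Or.inl he))]
      refine and_congr_right (fun _ => exists_congr (fun j => and_congr_right (fun hj => ?_)))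
      have h4 : ∀ e ∈ BrS β j H, ω e = ω' e :=
        fun e he => h e (Or.inr (Set.mem_biUnion hj he))
      rw [hDedep a j ω ω' h4, Bs_congr h4]
    · intro ω ω1 ω2 h
      simp only [hC3, Set.mem_ofPred_eq]
      refine exists_congr (fun a => and_congr_right (fun ha => and_congr_right (fun _ =>
        exists_congr (fun j => and_congr_right (fun hj => and_congr_right (fun _ => ?_))))))
      have h4 : (Bs β D N j H a A ω).filter (fun n => ω1 ∈ Str l u n) =
          (Bs β D N j H a A ω).filter (fun n => ω2 ∈ Str l u n) := by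
        refine Finset.filter_congr (fun n hn => ?_)
        obtain ⟨h5, h6, h7, _⟩ := mem_Bs hn
        refine Str_dep l u n ω1 ω2 (fun e he => h e (Set.mem_biUnion (t := fun n =>
          (Tn l u n : Set Ce)) (x := n) ?_ he))
        have h8 := hA a ha
        have h9 := hH a ha
        rw [Finset.mem_coe, Finset.mem_sdiff, Finset.mem_Icc]
        exact ⟨⟨by omega, by omega⟩, h5⟩
      rw [h4]
    · rintro ω ⟨a, ha, hωa, j, hj, hωj⟩
      have h4 : M * S ≤ (Bs β D N j H a A ω).card := by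
        have h5 := Bs_card (β := β) (D := D) (N := N) (j := j) (H := H) (a := a) hD (A := A) ω
        have h6 : x * N ≤ ((dn β D N j H a ω).card : ℝ) := hωj
        have h7 := hB.trans h6
        have h8 : M * S + A.card ≤ (dn β D N j H a ω).card := by exact_mod_cast h7
        omega
      have h5 := few_straight p l u (Bs β D N j H a A ω) M S h4
      have h6 : {ω' | ((Bs β D N j H a A ω).filter (fun n => ω' ∈ Str l u n)).card < M}ᶜ ⊆
          C3 ω := by
        intro ω' hω'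
        simp only [Set.mem_compl_iff, Set.mem_ofPred_eq, not_lt] at hω'
        exact ⟨a, ha, hωa, j, hj, hωj, hω'⟩
      have h7 : DepOn F3 {ω' |
          ((Bs β D N j H a A ω).filter (fun n => ω' ∈ Str l u n)).card < M} := by
        intro ω1 ω2 h
        have h4 : (Bs β D N j H a A ω).filter (fun n => ω1 ∈ Str l u n) =
            (Bs β D N j H a A ω).filter (fun n => ω2 ∈ Str l u n) := by
          refine Finset.filter_congr (fun n hn => ?_)
          obtain ⟨h5, h6, h7, _⟩ := mem_Bs hn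
          refine Str_dep l u n ω1 ω2 (fun e he => h e (Set.mem_biUnion (t := fun n =>
            (Tn l u n : Set Ce)) (x := n) ?_ he))
          have h8 := hA a ha
          have h9 := hH a ha
          rw [Finset.mem_coe, Finset.mem_sdiff, Finset.mem_Icc]
          exact ⟨⟨by omega, by omega⟩, h5⟩
        simp only [Set.mem_ofPred_eq]
        rw [h4]
      have h8 := compl_real p hF3f h7
      have h9 := mu_mono p h6
      rw [h8] at h9
      linarith
  have hfinal : {ω | ω ∈ C3 ω} ⊆ {ω | M ≤ ((Finset.Icc R H).filter (fun n => ∃ a ∈ A,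
      Conn ca (cc β) (Mid β l u H) ω ((l, 0), a) ((l + u, 0), n))).card} := by
    rintro ω ⟨a, ha, hωa, j, hj, _, hM⟩
    refine hM.trans (Finset.card_le_card ?_)
    intro n hn
    rw [Finset.mem_filter] at hn ⊢
    obtain ⟨h5, h6, h7, h8⟩ := mem_Bs hn.1
    have h9 := hA a ha
    have h10 := hH a ha
    have hj' := Finset.mem_Ioc.mp hj
    rw [Finset.mem_Icc]
    refine ⟨⟨by omega, by omega⟩, a, ha, ?_⟩
    have c1 := str_conn (β := β) (H := H) (by omega) hωa (j1 := l) (j2 := j) le_rfl (by omega)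
      (by omega)
    have c2 := h8.mono_set (S' := Mid β l u H) (fun e he => Or.inr ⟨j, hj, he⟩)
    have c3 := str_conn (β := β) (H := H) (by omega) hn.2 (j1 := j) (j2 := l + u) (by omega)
      (by omega) le_rfl
    exact (c1.trans c2).trans c3
  refine le_trans ?_ (mu_mono p hfinal)
  refine le_trans ?_ hE3p
  refine mul_le_mul_of_nonneg_right ?_ (by linarith)
  refine le_trans ?_ hE2p
  refine mul_le_mul_of_nonneg_right hE1p ?_
  have : (1 - x) ^ u ≤ 1 := pow_le_one₀ (by linarith) (by linarith)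
  linarith

/-! ### the chain -/

open Classical in
/-- heights of `(l,0)` reached from the origin below `(l,0)` -/
noncomputable def Acc (β R l H : ℕ) (ω : Ce → Bool) : Finset ℕ :=
  (Finset.Icc R H).filter (fun n => Conn ca (cc β) (Lo β l H) ω ((0, 0), 0) ((l, 0), n))

theorem mem_Acc {β R l H : ℕ} {ω : Ce → Bool} {n : ℕ} : n ∈ Acc β R l H ω ↔
    (R ≤ n ∧ n ≤ H) ∧ Conn ca (cc β) (Lo β l H) ω ((0, 0), 0) ((l, 0), n) := by
  classical
  rw [Acc, Finset.mem_filter, Finset.mem_Icc]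

theorem Acc_congr {β R l H : ℕ} {ω ω' : Ce → Bool} (h : ∀ e ∈ Lo β l H, ω e = ω' e) :
    Acc β R l H ω = Acc β R l H ω' := by
  ext n
  rw [mem_Acc, mem_Acc]
  exact and_congr_right (fun _ => Conn.dep (a := ca) (c := cc β) (Lo β l H) _ _ ω ω' h)

/-- probability that at least `M` heights are reached -/
noncomputable def Pr (β R : ℕ) (p : unitInterval) (l H M : ℕ) : ℝ :=
  (mu Ce p {ω | M ≤ (Acc β R l H ω).card}).toReal

open Classical in
theorem chain_step (β R : ℕ) (p : unitInterval) (l u H0 H M0 M : ℕ) (t : ℝ) (ht : 0 ≤ t)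
    (hH : H0 ≤ H)
    (hph : ∀ A : Finset ℕ, A.card = M0 → (∀ a ∈ A, R ≤ a ∧ a ≤ H0) →
      t ≤ (mu Ce p {ω | M ≤ ((Finset.Icc R H).filter (fun n => ∃ a ∈ A,
        Conn ca (cc β) (Mid β l u H) ω ((l, 0), a) ((l + u, 0), n))).card}).toReal) :
    Pr β R p l H0 M0 * t ≤ Pr β R p (l + u) H M := by
  set C : (Ce → Bool) → Set (Ce → Bool) := fun ω => {ω' | M ≤ ((Finset.Icc R H).filter
    (fun n => ∃ a ∈ Acc β R l H0 ω,
      Conn ca (cc β) (Mid β l u H) ω' ((l, 0), a) ((l + u, 0), n))).card} with hC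
  have h1 : DepOn (Lo β l H0) {ω | M0 ≤ (Acc β R l H0 ω).card} := by
    intro ω ω' h
    simp only [Set.mem_ofPred_eq]
    rw [Acc_congr h]
  have h2 := fub_lower p (Lo_finite β l H0) (Mid_finite β l u H) Lo_Mid_disj C ?_ ?_
    {ω | M0 ≤ (Acc β R l H0 ω).card} h1 t ht ?_
  · refine h2.trans (mu_mono p ?_)
    intro ω hω
    simp only [hC, Set.mem_ofPred_eq] at hω ⊢
    refine hω.trans (Finset.card_le_card ?_)
    intro n hn
    rw [Finset.mem_filter, Finset.mem_Icc] at hn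
    rw [mem_Acc]
    obtain ⟨hn1, a, ha, hn2⟩ := hn
    rw [mem_Acc] at ha
    exact ⟨hn1, (ha.2.mono_set (Lo_mono hH)).trans (hn2.mono_set Mid_sub_Lo)⟩
  · intro ω ω' h
    simp only [hC]
    rw [Acc_congr h]
  · intro ω ω1 ω2 h
    simp only [hC, Set.mem_ofPred_eq]
    have h4 : (Finset.Icc R H).filter (fun n => ∃ a ∈ Acc β R l H0 ω,
        Conn ca (cc β) (Mid β l u H) ω1 ((l, 0), a) ((l + u, 0), n)) =
        (Finset.Icc R H).filter (fun n => ∃ a ∈ Acc β R l H0 ω,
        Conn ca (cc β) (Mid β l u H) ω2 ((l, 0), a) ((l + u, 0), n)) := by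
      refine Finset.filter_congr (fun n _ => exists_congr (fun a => and_congr_right (fun _ => ?_)))
      exact Conn.dep (a := ca) (c := cc β) (Mid β l u H) _ _ ω1 ω2 h
    rw [h4]
  · intro ω hω
    obtain ⟨A, hA1, hA2⟩ := Finset.exists_subset_card_eq hω
    refine (hph A hA2 (fun a ha => (mem_Acc.mp (hA1 ha)).1)).trans (mu_mono p ?_)
    intro ω' hω'
    simp only [hC, Set.mem_ofPred_eq] at hω' ⊢
    refine hω'.trans (Finset.card_le_card ?_)
    intro n hn
    rw [Finset.mem_filter] at hn ⊢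
    obtain ⟨hn1, a, ha, hn2⟩ := hn
    exact ⟨hn1, a, hA1 ha, hn2⟩

theorem start_pos (β R : ℕ) (p : unitInterval) (hp : 0 < p) (l M : ℕ) (hl : 1 ≤ l) :
    0 < Pr β R p l (R + M) M := by
  have h1 : {ω : Ce → Bool | ∀ e ∈ (Lo_finite β l (R + M)).toFinset, ω e = true} ⊆
      {ω | M ≤ (Acc β R l (R + M) ω).card} := by
    intro ω hω
    have ho : ∀ e ∈ Lo β l (R + M), ω e = true :=
      fun e he => hω e ((Lo_finite β l (R + M)).mem_toFinset.mpr he)
    have c1 : ∀ j h, j ≤ l → h ≤ R + M →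
        Conn ca (cc β) (Lo β l (R + M)) ω ((0, 0), h) ((j, 0), h) := by
      intro j h hj hh
      induction j with
      | zero => exact Conn.refl _ _ _
      | succ j ih =>
        have hmem : ((false, (j, 0), h) : Ce) ∈ Lo β l (R + M) :=
          ⟨by show j < l; omega, Nat.pow_pos (by omega), hh⟩
        have he := Conn.edge (a := ca) (c := cc β) hmem (ho _ hmem)
        have h5 : cc β ((false, (j, 0), h) : Ce) = ((j + 1, 0), h) := by simp [cc]
        rw [h5] at he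
        exact (ih (by omega)).trans he
    have c2 : ∀ h, h ≤ R + M →
        Conn ca (cc β) (Lo β l (R + M)) ω ((l - 1, 0), 0) ((l - 1, 0), h) := by
      intro h hh
      induction h with
      | zero => exact Conn.refl _ _ _
      | succ h ih =>
        have hmem : ((true, (l - 1, 0), h) : Ce) ∈ Lo β l (R + M) :=
          ⟨by show l - 1 < l; omega, Nat.pow_pos (by omega), by show h ≤ R + M; omega⟩
        have he := Conn.edge (a := ca) (c := cc β) hmem (ho _ hmem)
        have h5 : cc β ((true, (l - 1, 0), h) : Ce) = ((l - 1, 0), h + 1) := by simp [cc]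
        rw [h5] at he
        exact (ih (by omega)).trans he
    have h2 : Finset.Icc R (R + M) ⊆ Acc β R l (R + M) ω := by
      intro n hn
      rw [Finset.mem_Icc] at hn
      rw [mem_Acc]
      refine ⟨hn, ?_⟩
      have d1 := c1 (l - 1) 0 (by omega) (by omega)
      have d2 := c2 n hn.2
      have d3 := (c1 (l - 1) n (by omega) hn.2).symm
      have d4 := c1 l n le_rfl hn.2
      exact ((d1.trans d2).trans d3).trans d4
    have h3 := Finset.card_le_card h2
    rw [Nat.card_Icc] at h3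
    show M ≤ _
    omega
  refine lt_of_lt_of_le ?_ (mu_mono p h1)
  rw [all_open_real]
  exact pow_pos hp _

/-- numerical bounds -/
theorem numer (p y : ℝ) (hp0 : 0 < p) (hp1 : p ≤ 1) (hy0 : 0 < y) (hy1 : y ≤ 1 / 2) (P : ℕ)
    (hP : 2 ≤ P) (hPp : 1 / (P : ℝ) ≤ p) :
    ∃ u1 : ℕ, ∀ u : ℕ, u1 ≤ u →
      ((((P ^ (u + 1)) ^ 2 * (P ^ u) ^ 2 + (P ^ u) ^ 2 : ℕ) : ℝ) ≤ y * ((P ^ u) ^ 8 : ℕ)) ∧
      ((P ^ (u + 1)) ^ 2 : ℕ) * (1 - p ^ u) ^ ((P ^ u) ^ 2) ≤ 1 ∧
      1 - 1 / ((u : ℝ) + 1) ^ 2 ≤ (1 - (1 - p ^ u) ^ ((P ^ u) ^ 2)) * (1 - (1 - y) ^ u) *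
        (1 - ((P ^ (u + 1)) ^ 2 : ℕ) * (1 - p ^ u) ^ ((P ^ u) ^ 2)) := by
  have t1 := tendsto_pow_const_mul_const_pow_of_abs_lt_one 2
    (show |(1 / 4 : ℝ)| < 1 by rw [abs_of_pos] <;> norm_num)
  have t2 := tendsto_pow_const_mul_const_pow_of_abs_lt_one 2
    (show |1 - y| < 1 by rw [abs_of_pos] <;> linarith)
  have hPr : (2 : ℝ) ≤ P := by exact_mod_cast hP
  set c : ℝ := 24 * (1 + (P : ℝ) ^ 2) with hc
  have hcp : 0 < c := by positivity
  have e1 := (t1.eventually_lt_const (show (0 : ℝ) < 1 / (8 * c) by positivity))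
  have e2 := (t2.eventually_lt_const (show (0 : ℝ) < 1 / 8 by norm_num))
  have e3 := (tendsto_pow_atTop_atTop_of_one_lt (show (1 : ℝ) < 2 by norm_num)).eventually_ge_atTop
    (((P : ℝ) ^ 2 + 1) / y)
  obtain ⟨u1, hu1⟩ := Filter.eventually_atTop.mp (e1.and (e2.and e3))
  refine ⟨max u1 1, fun u hu => ?_⟩
  obtain ⟨h1, h2, h3⟩ := hu1 u (le_of_max_le_left hu)
  have hu' : 1 ≤ u := le_of_max_le_right hu
  have huR : (1 : ℝ) ≤ u := by exact_mod_cast hu'
  set x : ℝ := (P : ℝ) ^ u with hx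
  have hx2 : (2 : ℝ) ^ u ≤ x := pow_le_pow_left₀ (by norm_num) hPr u
  have hx1 : 1 ≤ x := one_le_pow₀ (by linarith)
  have hx0 : 0 < x := by linarith
  have hcast : ((((P ^ (u + 1)) ^ 2 : ℕ)) : ℝ) = (P : ℝ) ^ 2 * x ^ 2 := by
    push_cast
    have h4 : (P : ℝ) ^ (u + 1) = x * P := pow_succ _ _
    rw [h4]
    ring
  have hpx : 1 / x ≤ p ^ u := by
    rw [hx, ← one_div_pow]
    exact pow_le_pow_left₀ (by positivity) hPp u
  have hpu1 : p ^ u ≤ 1 := pow_le_one₀ hp0.le hp1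
  set f1 : ℝ := (1 - p ^ u) ^ ((P ^ u) ^ 2) with hf1
  have hf10 : 0 ≤ f1 := pow_nonneg (by linarith) _
  have hf1e : f1 ≤ Real.exp (-x) := by
    have h4 : 1 - p ^ u ≤ Real.exp (-(p ^ u)) := by
      have := Real.add_one_le_exp (-(p ^ u))
      linarith
    have h5 : f1 ≤ (Real.exp (-(p ^ u))) ^ ((P ^ u) ^ 2) :=
      pow_le_pow_left₀ (by linarith) h4 _
    refine h5.trans ?_
    rw [← Real.exp_nat_mul]
    apply Real.exp_le_exp.mpr
    push_cast
    rw [← hx]
    have h6 : x ≤ x ^ 2 * p ^ u := by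
      calc x = x ^ 2 * (1 / x) := by field_simp
        _ ≤ x ^ 2 * p ^ u := by gcongr
    linarith
  have hex : Real.exp (-x) ≤ 24 / x ^ 4 := by
    have h4 := Real.pow_div_factorial_le_exp x hx0.le 4
    rw [Real.exp_neg, inv_eq_one_div, div_le_div_iff₀ (Real.exp_pos _) (by positivity)]
    have h5 : (Nat.factorial 4 : ℝ) = 24 := by norm_num [Nat.factorial]
    rw [h5, div_le_iff₀ (by norm_num)] at h4
    linarith
  have hf1b : f1 ≤ 24 / x ^ 4 := hf1e.trans hex
  have hq4 : x⁻¹ ^ 2 ≤ (1 / 4 : ℝ) ^ u := by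
    have h4 : x⁻¹ ≤ (1 / 2 : ℝ) ^ u := by
      rw [one_div_pow, ← one_div]
      exact one_div_le_one_div_of_le (by positivity) hx2
    calc x⁻¹ ^ 2 ≤ ((1 / 2 : ℝ) ^ u) ^ 2 := by gcongr
      _ = (1 / 4 : ℝ) ^ u := by rw [← pow_mul, mul_comm, pow_mul]; norm_num
  have hsum : f1 + (P : ℝ) ^ 2 * x ^ 2 * f1 ≤ c * (1 / 4 : ℝ) ^ u := by
    have h4 : f1 + (P : ℝ) ^ 2 * x ^ 2 * f1 ≤ (1 + (P : ℝ) ^ 2) * x ^ 2 * (24 / x ^ 4) := by
      have h5 : f1 + (P : ℝ) ^ 2 * x ^ 2 * f1 = (1 + (P : ℝ) ^ 2 * x ^ 2) * f1 := by ring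
      rw [h5]
      refine mul_le_mul ?_ hf1b hf10 (by positivity)
      have : 1 ≤ x ^ 2 := one_le_pow₀ hx1
      nlinarith
    refine h4.trans ?_
    have h5 : (1 + (P : ℝ) ^ 2) * x ^ 2 * (24 / x ^ 4) = c * x⁻¹ ^ 2 := by
      rw [hc]; field_simp
    rw [h5]
    gcongr
  set f2 : ℝ := (1 - y) ^ u with hf2
  have hf20 : 0 ≤ f2 := pow_nonneg (by linarith) _
  have hf21 : f2 ≤ 1 := pow_le_one₀ (by linarith) (by linarith)
  have hu2 : ((u : ℝ) + 1) ^ 2 ≤ 4 * (u : ℝ) ^ 2 := by nlinarith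
  have htot : (f1 + (P : ℝ) ^ 2 * x ^ 2 * f1 + f2) * ((u : ℝ) + 1) ^ 2 ≤ 1 := by
    have h4 : (f1 + (P : ℝ) ^ 2 * x ^ 2 * f1 + f2) ≤ c * (1 / 4 : ℝ) ^ u + f2 := by linarith
    have h5 : 0 ≤ c * (1 / 4 : ℝ) ^ u + f2 := by positivity
    calc (f1 + (P : ℝ) ^ 2 * x ^ 2 * f1 + f2) * ((u : ℝ) + 1) ^ 2
        ≤ (c * (1 / 4 : ℝ) ^ u + f2) * (4 * (u : ℝ) ^ 2) :=
          mul_le_mul h4 hu2 (by positivity) h5
      _ = 4 * c * ((u : ℝ) ^ 2 * (1 / 4) ^ u) + 4 * ((u : ℝ) ^ 2 * f2) := by ring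
      _ ≤ 4 * c * (1 / (8 * c)) + 4 * (1 / 8) := by gcongr
      _ = 1 := by field_simp; norm_num
  have hup : (0 : ℝ) < ((u : ℝ) + 1) ^ 2 := by positivity
  have htot' : f1 + (P : ℝ) ^ 2 * x ^ 2 * f1 + f2 ≤ 1 / ((u : ℝ) + 1) ^ 2 := by
    rw [le_div_iff₀ hup]; exact htot
  have hle1 : 1 / ((u : ℝ) + 1) ^ 2 ≤ 1 := by
    rw [div_le_one hup]
    nlinarith
  have hf30 : 0 ≤ (P : ℝ) ^ 2 * x ^ 2 * f1 := by positivity
  refine ⟨?_, ?_, ?_⟩
  · push_cast
    rw [← hx]
    have h4 : ((P : ℝ) ^ (u + 1)) ^ 2 = (P : ℝ) ^ 2 * x ^ 2 := by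
      have h5 : (P : ℝ) ^ (u + 1) = x * P := pow_succ _ _
      rw [h5]
      ring
    rw [h4]
    have h5 : ((P : ℝ) ^ 2 + 1) ≤ y * x := by
      have := h3.trans hx2
      rw [div_le_iff₀ hy0] at this
      linarith
    have h6 : 1 ≤ x ^ 2 := one_le_pow₀ hx1
    have h7 : 1 ≤ x ^ 3 := one_le_pow₀ hx1
    calc (P : ℝ) ^ 2 * x ^ 2 * x ^ 2 + x ^ 2 ≤ ((P : ℝ) ^ 2 + 1) * x ^ 4 := by nlinarith
      _ ≤ (y * x) * x ^ 4 := by gcongr
      _ = y * x ^ 5 := by ring
      _ ≤ y * x ^ 5 * x ^ 3 := by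
        have : 0 ≤ y * x ^ 5 := by positivity
        nlinarith
      _ = y * x ^ 8 := by ring
  · rw [hcast]
    linarith
  · rw [hcast]
    have h4 : f1 ≤ 1 := by linarith
    have h5 : (P : ℝ) ^ 2 * x ^ 2 * f1 ≤ 1 := by linarith
    set f3 := (P : ℝ) ^ 2 * x ^ 2 * f1
    nlinarith [mul_nonneg hf10 hf20, mul_nonneg hf30 (add_nonneg hf10 hf20),
      mul_nonneg (mul_nonneg hf10 hf20) (sub_nonneg.mpr h5)]

end E2

open E2 in
theorem stepE (β : ℕ) (p : unitInterval) (hp : 0 < p) (h : LongR β p) : Climb β p := by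
  obtain ⟨D, R, i, q, hD, hi, hq, hLR⟩ := h
  have hq1 : q ≤ 1 := by
    have := hLR 0 0 (Nat.zero_le _)
    exact this.trans (mu_le_one p _)
  have hp0 : (0 : ℝ) < p := hp
  have hp1 : (p : ℝ) ≤ 1 := p.2.2
  set y : ℝ := (p : ℝ) ^ 2 * q / 2 with hy
  have hy0 : 0 < y := by positivity
  have hy1 : y ≤ 1 / 2 := by
    have : (p : ℝ) ^ 2 ≤ 1 := pow_le_one₀ hp0.le hp1
    nlinarith
  obtain ⟨s, hs⟩ := exists_pow_lt_of_lt_one hp0 (show (1 / 2 : ℝ) < 1 by norm_num)
  have hs1 : 1 ≤ s := by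
    rcases Nat.eq_zero_or_pos s with h | h
    · rw [h, pow_zero] at hs
      linarith
    · exact h
  set P : ℕ := 2 ^ s with hP
  have hP2 : 2 ≤ P := by
    calc 2 = 2 ^ 1 := rfl
      _ ≤ 2 ^ s := Nat.pow_le_pow_right (by norm_num) hs1
  have hPp : 1 / (P : ℝ) ≤ p := by
    rw [hP]
    push_cast
    rw [← one_div_pow]
    exact hs.le
  obtain ⟨u1, hu1⟩ := numer p y hp0 hp1 hy0 hy1 P hP2 hPp
  set u0 : ℕ := max u1 (max (8 * s * i) 1) with hu0
  have hu01 : u1 ≤ u0 := le_max_left _ _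
  have hu02 : 8 * s * i ≤ u0 := (le_max_left _ _).trans (le_max_right _ _)
  have hu03 : 1 ≤ u0 := (le_max_right _ _).trans (le_max_right _ _)
  set l0 : ℕ := i * (8 * s * u0 + 1) with hl0
  have hl01 : 1 ≤ l0 := Nat.mul_pos hi (by omega)
  set P0 : ℝ := Pr β R p l0 (R + (P ^ u0) ^ 2) ((P ^ u0) ^ 2) with hP0
  have hP0p : 0 < P0 := start_pos β R p hp l0 _ hl01
  have claim : ∀ t : ℕ, ∃ l H : ℕ, i * (8 * s * (u0 + t) + 1) ≤ l ∧ t ≤ l ∧
      P0 / 2 * (1 + 1 / ((u0 + t : ℕ) : ℝ)) ≤ Pr β R p l H ((P ^ (u0 + t)) ^ 2) := by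
    intro t
    induction t with
    | zero =>
      refine ⟨l0, R + (P ^ u0) ^ 2, le_of_eq (by rw [hl0, add_zero]), Nat.zero_le _, ?_⟩
      rw [add_zero, ← hP0]
      have h1 : 1 / (u0 : ℝ) ≤ 1 := by
        rw [div_le_one (by exact_mod_cast hu03)]
        exact_mod_cast hu03
      nlinarith
    | succ t ih =>
      obtain ⟨l, H, h1, h2, h3⟩ := ih
      set u := u0 + t with hu
      have huu : u1 ≤ u := by omega
      obtain ⟨n1, n2, n3⟩ := hu1 u huu
      have hu1' : 1 ≤ u := by omega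
      have huR : (1 : ℝ) ≤ u := by exact_mod_cast hu1'
      have hup : (0 : ℝ) < ((u : ℝ) + 1) ^ 2 := by positivity
      have hle1 : 1 / ((u : ℝ) + 1) ^ 2 ≤ 1 := by
        rw [div_le_one hup]
        nlinarith
      set N : ℕ := (P ^ u) ^ 8 with hN
      have hNe : N = 2 ^ (8 * s * u) := by
        rw [hN, hP, ← pow_mul, ← pow_mul]
        congr 1
        ring
      have hstep := chain_step β R p l u H (H + N * D + R) ((P ^ u) ^ 2) ((P ^ (u + 1)) ^ 2)
        (1 - 1 / ((u : ℝ) + 1) ^ 2) (by linarith) (by omega) ?_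
      · refine ⟨l + u, H + N * D + R, ?_, by omega, ?_⟩
        · have h4 : i * (8 * s * (u0 + (t + 1)) + 1) = i * (8 * s * u + 1) + 8 * s * i := by
            rw [hu]; ring
          rw [h4]
          omega
        · have h5 : u0 + (t + 1) = u + 1 := by omega
          rw [h5]
          refine le_trans ?_ hstep
          have h6 : P0 / 2 * (1 + 1 / (((u + 1 : ℕ)) : ℝ)) =
              P0 / 2 * (1 + 1 / (u : ℝ)) * (1 - 1 / ((u : ℝ) + 1) ^ 2) := by
            push_cast
            field_simp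
            ring
          rw [h6]
          exact mul_le_mul_of_nonneg_right h3 (by linarith)
      · intro A hA1 hA2
        have hph := phase β p hq.le hq1 hD (k := i * (8 * s * u + 1)) (N := N)
          (fun n hn => hLR (8 * s * u) n (by rw [← hNe]; exact hn)) l u h1 A
          (fun a ha => (hA2 a ha).1) (H + N * D + R)
          (fun a ha => by have := (hA2 a ha).2; omega) ((P ^ (u + 1)) ^ 2) ((P ^ u) ^ 2)
          (by rw [hA1]; exact n1) n2
        rw [hA1] at hph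
        exact n3.trans hph
  refine ⟨P0 / 2, by positivity, fun l1 => ?_⟩
  obtain ⟨l, H, _, h2, h3⟩ := claim l1
  refine ⟨l, H, h2, ?_⟩
  have h4 : P0 / 2 ≤ Pr β R p l H ((P ^ (u0 + l1)) ^ 2) := by
    refine le_trans ?_ h3
    have : 0 ≤ 1 / ((u0 + l1 : ℕ) : ℝ) := by positivity
    nlinarith
  refine h4.trans (mu_mono p ?_)
  intro ω hω
  have h5 : 0 < (Acc β R l H ω).card :=
    lt_of_lt_of_le (Nat.pow_pos (Nat.pow_pos (by omega))) hω
  obtain ⟨n, hn⟩ := Finset.card_pos.mp h5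
  rw [mem_Acc] at hn
  exact ⟨n, hn.1.2, hn.2.mono_set (Lo_sub_CR β l H)⟩

end Pool.Agent.MP44
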