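import Pool.Agent.Work.MP_44e654_pr.Base

/-! Official objects for MP_44e654_pr: Bernoulli bond percolation on a graph, the canopy tree, and
the translation to the canopy model. (helper96) -/

set_option autoImplicit false

namespace Pool.Agent.MP44

open MeasureTheory

/-- The law of Bernoulli bond percolation on `G` with parameter `p`: every edge is open (`true`)
independently with probability `p`. -/
noncomputable def percLaw {V : Type} (G : SimpleGraph V) (p : unitInterval) :
    Measure (G.edgeSet → Bool) :=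
  Measure.infinitePi (fun _ : G.edgeSet =>
    ENNReal.ofReal p • Measure.dirac true + ENNReal.ofReal (1 - p) • Measure.dirac false)

/-- The graph of open edges. -/
def openSub {V : Type} (G : SimpleGraph V) (ω : G.edgeSet → Bool) : SimpleGraph V :=
  SimpleGraph.fromEdgeSet {e | ∃ h : e ∈ G.edgeSet, ω ⟨e, h⟩ = true}

/-- The open cluster of `v`. -/
def cluster {V : Type} (G : SimpleGraph V) (ω : G.edgeSet → Bool) (v : V) : Set V :=
  {u | (openSub G ω).Reachable v u}

/-- The probability that the open cluster of `v` is infinite. -/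
noncomputable def theta {V : Type} (G : SimpleGraph V) (p : unitInterval) (v : V) : ENNReal :=
  percLaw G p {ω | (cluster G ω v).Infinite}

/-- The critical value. -/
noncomputable def pc {V : Type} (G : SimpleGraph V) : ℝ :=
  sInf {p : ℝ | ∃ h : p ∈ Set.Icc (0 : ℝ) 1, ∃ v : V, 0 < theta G ⟨p, h⟩ v}

/-- The canopy tree of the `d`-regular tree: the vertex `(k, i)` is the `i`-th vertex of level `k`;
its parent is `(k + 1, i / (d - 1))`. -/
def canopy (d : ℕ) : SimpleGraph (ℕ × ℕ) where
  Adj u v := v = (u.1 + 1, u.2 / (d - 1)) ∨ u = (v.1 + 1, v.2 / (d - 1))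
  symm := ⟨fun _ _ h => h.symm⟩
  loopless := ⟨fun u h => by
    rcases h with h | h
    · have := congrArg Prod.fst h
      simp at this
    · have := congrArg Prod.fst h
      simp at this⟩

/-- The product of the canopy tree and the half-line. -/
def canopyLine (d : ℕ) : SimpleGraph ((ℕ × ℕ) × ℕ) := canopy d □ SimpleGraph.hasse ℕ

section bridge
variable (β : ℕ)

theorem adj_iff (u v : Cv) : (canopyLine (β + 3)).Adj u v ↔
    ∃ e : Ce, (ca e = u ∧ cc β e = v) ∨ (ca e = v ∧ cc β e = u) := by
  have hb : β + 3 - 1 = β + 2 := by omega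
  simp only [canopyLine, SimpleGraph.boxProd_adj, canopy, SimpleGraph.hasse_adj, hb]
  constructor
  · rintro (⟨h1 | h1, h2⟩ | ⟨h1 | h1, h2⟩)
    · refine ⟨(false, u.1, u.2), Or.inl ⟨rfl, ?_⟩⟩
      simp only [cc, Bool.false_eq_true, if_false]
      exact Prod.ext h1.symm h2
    · refine ⟨(false, v.1, v.2), Or.inr ⟨rfl, ?_⟩⟩
      simp only [cc, Bool.false_eq_true, if_false]
      exact Prod.ext h1.symm h2.symm
    · refine ⟨(true, u.1, u.2), Or.inl ⟨rfl, ?_⟩⟩
      simp only [cc, if_true]
      exact Prod.ext h2 (Nat.covBy_iff_add_one_eq.1 h1)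
    · refine ⟨(true, v.1, v.2), Or.inr ⟨rfl, ?_⟩⟩
      simp only [cc, if_true]
      exact Prod.ext h2.symm (Nat.covBy_iff_add_one_eq.1 h1)
  · rintro ⟨⟨t, x, n⟩, ⟨rfl, rfl⟩ | ⟨rfl, rfl⟩⟩
    · cases t
      · left; simp [ca, cc]
      · right; simp [ca, cc, Nat.covBy_iff_add_one_eq]
    · cases t
      · left; simp [ca, cc]
      · right; simp [ca, cc, Nat.covBy_iff_add_one_eq]

/-- the edge of the graph coded by `e` -/
def edgeOf (e : Ce) : (canopyLine (β + 3)).edgeSet :=
  ⟨s(ca e, cc β e), (adj_iff β _ _).2 ⟨e, Or.inl ⟨rfl, rfl⟩⟩⟩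

theorem edgeOf_bij : Function.Bijective (edgeOf β) := by
  constructor
  · rintro ⟨t, ⟨k, i⟩, n⟩ ⟨t', ⟨k', i'⟩, n'⟩ h
    have h1 := congrArg Subtype.val h
    simp only [edgeOf, Sym2.eq_iff] at h1
    cases t <;> cases t' <;> simp [ca, cc] at h1 ⊢ <;> omega
  · rintro ⟨e, he⟩
    induction e using Sym2.ind with
    | _ u v =>
      obtain ⟨e, ⟨h1, h2⟩ | ⟨h1, h2⟩⟩ := (adj_iff β u v).1 he
      · exact ⟨e, Subtype.ext (by simp only [edgeOf, h1, h2])⟩
      · exact ⟨e, Subtype.ext (by simp only [edgeOf, h1, h2]; exact Sym2.eq_swap)⟩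

/-- coding of the edges -/
noncomputable def edgeEquiv : Ce ≃ (canopyLine (β + 3)).edgeSet := Equiv.ofBijective _ (edgeOf_bij β)

theorem percLaw_apply (p : unitInterval) (A : Set ((canopyLine (β + 3)).edgeSet → Bool)) :
    percLaw (canopyLine (β + 3)) p A =
      mu Ce p {ω | (fun e => ω ((edgeEquiv β).symm e)) ∈ A} := by
  have h := Measure.infinitePi_map_piCongrLeft (fun _ : (canopyLine (β + 3)).edgeSet => bern p)
    (edgeEquiv β)
  have h2 : percLaw (canopyLine (β + 3)) p = Measure.infinitePi (fun _ => bern p) := rfl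
  rw [h2, ← h, MeasurableEquiv.map_apply]
  unfold mu
  congr 1
  ext ω
  have h3 : MeasurableEquiv.piCongrLeft (fun _ : (canopyLine (β + 3)).edgeSet => Bool) (edgeEquiv β) ω
      = fun e => ω ((edgeEquiv β).symm e) := by
    funext e
    have := MeasurableEquiv.piCongrLeft_apply_apply (β := fun _ : (canopyLine (β + 3)).edgeSet => Bool)
      (edgeEquiv β) ω ((edgeEquiv β).symm e)
    rw [Equiv.apply_symm_apply] at this
    exact this
  simp only [Set.mem_preimage, Set.mem_ofPred_eq, h3]

theorem reach_iff (ω : Ce → Bool) (u v : Cv) :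
    (openSub (canopyLine (β + 3)) (fun e => ω ((edgeEquiv β).symm e))).Reachable u v ↔
      Conn ca (cc β) Set.univ ω u v := by
  constructor
  · rintro ⟨w⟩
    induction w with
    | nil => exact Conn.refl _ _ _
    | cons h _ ih =>
      refine Conn.trans ?_ ih
      rw [openSub, SimpleGraph.fromEdgeSet_adj] at h
      obtain ⟨⟨he, ho⟩, _⟩ := h
      set e := (edgeEquiv β).symm ⟨_, he⟩ with hedef
      have h1 : edgeEquiv β e = ⟨_, he⟩ := Equiv.apply_symm_apply _ _
      have h2 := congrArg Subtype.val h1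
      change s(ca e, cc β e) = _ at h2
      rw [Sym2.eq_iff] at h2
      rcases h2 with ⟨h3, h4⟩ | ⟨h3, h4⟩
      · rw [← h3, ← h4]; exact Conn.edge (Set.mem_univ _) ho
      · rw [← h3, ← h4]; exact (Conn.edge (Set.mem_univ _) ho).symm
  · intro h
    induction h with
    | rel u v huv =>
      obtain ⟨e, _, ho, rfl, rfl⟩ := huv
      refine SimpleGraph.Adj.reachable ?_
      rw [openSub, SimpleGraph.fromEdgeSet_adj]
      have hadj : (canopyLine (β + 3)).Adj (ca e) (cc β e) := (adj_iff β _ _).2 ⟨e, Or.inl ⟨rfl, rfl⟩⟩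
      refine ⟨⟨hadj, ?_⟩, hadj.ne⟩
      have : (edgeEquiv β).symm ⟨s(ca e, cc β e), hadj⟩ = e := by
        rw [Equiv.symm_apply_eq]; rfl
      rw [this]; exact ho
    | refl u => exact SimpleGraph.Reachable.refl _
    | symm u v _ ih => exact ih.symm
    | trans u v w _ _ ih1 ih2 => exact ih1.trans ih2

/-- `theta` in the canopy model -/
theorem theta_eq (p : unitInterval) (v : Cv) : theta (canopyLine (β + 3)) p v =
    mu Ce p {ω | {u | Conn ca (cc β) Set.univ ω v u}.Infinite} := by
  rw [theta, percLaw_apply]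
  congr 1
  ext ω
  simp only [Set.mem_ofPred_eq, cluster, reach_iff]

end bridge

end Pool.Agent.MP44
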